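import Mathlib

/-! # MP_f155e9_co, odd diameter: fewer equations than unknowns -/

set_option autoImplicit false

namespace Pool.Agent.OddDiam

open Finset

theorem exists_kernel {ι κ : Type*} (F : Finset ι) (I : Finset κ) (M : κ → ι → ℝ)
    (h : I.card < F.card) :
    ∃ f : ι → ℝ, (∃ A ∈ F, f A ≠ 0) ∧ ∀ i ∈ I, ∑ A ∈ F, M i A * f A = 0 := by
  classical
  let L : (F → ℝ) →ₗ[ℝ] (I → ℝ) :=
    { toFun := fun g i => ∑ A : F, M i A * g A
      map_add' := by
        intro g g'
        funext i
        simp only [Pi.add_apply, mul_add, Finset.sum_add_distrib]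
      map_smul' := by
        intro c g
        funext i
        simp only [Pi.smul_apply, smul_eq_mul, RingHom.id_apply, Finset.mul_sum]
        exact Finset.sum_congr rfl fun A _ => by ring }
  have hlt : Module.finrank ℝ (I → ℝ) < Module.finrank ℝ (F → ℝ) := by
    simpa using h
  obtain ⟨g, hg, hg0⟩ := Submodule.exists_mem_ne_zero_of_ne_bot
    (LinearMap.ker_ne_bot_of_finrank_lt (f := L) hlt)
  refine ⟨fun A => if hA : A ∈ F then g ⟨A, hA⟩ else 0, ?_, ?_⟩
  · by_contra hno
    apply hg0
    funext ⟨A, hA⟩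
    by_contra hne
    exact hno ⟨A, hA, by simpa [hA] using hne⟩
  · intro i hi
    have h1 := congrFun (LinearMap.mem_ker.1 hg) ⟨i, hi⟩
    have h2 : (∑ A : F, M i A * g A) = 0 := h1
    rw [← h2, ← Finset.sum_coe_sort F]
    refine Finset.sum_congr rfl fun A _ => ?_
    simp

end Pool.Agent.OddDiam
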