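import Pool.Agent.OddDiam.General

/-! # MP_f155e9_co, odd diameter: consequences of LYM -/

set_option autoImplicit false

namespace Pool.Agent.OddDiam

open Finset

variable {α : Type*} [Fintype α] [DecidableEq α]

private theorem lym_choose {n r t : ℕ} (hrt : r ≤ t) (ht : 2 * t ≤ n) :
    n.choose r ≤ n.choose t := by
  induction t, hrt using Nat.le_induction with
  | base => exact le_rfl
  | succ t hrt ih =>
    exact (ih (by omega)).trans (Nat.choose_le_succ_of_lt_half_left (by omega))

theorem lym_le {t : ℕ} (ht : 2 * t ≤ Fintype.card α) {F : Finset (Finset α)}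
    (hF : IsAntichain (· ⊆ ·) (F : Set (Finset α))) (hsize : ∀ A ∈ F, A.card ≤ t) :
    F.card ≤ (Fintype.card α).choose t := by
  have : 0 < ((Fintype.card α).choose t : ℚ≥0) :=
    Nat.cast_pos.2 <| Nat.choose_pos (by omega)
  have h := calc
    ∑ s ∈ F, ((Fintype.card α).choose t : ℚ≥0)⁻¹
    _ ≤ ∑ s ∈ F, ((Fintype.card α).choose s.card : ℚ≥0)⁻¹ := by
      refine sum_le_sum fun s hs => ?_
      refine inv_anti₀ ?_ ?_
      · exact mod_cast Nat.choose_pos s.card_le_univ
      · exact mod_cast lym_choose (hsize s hs) ht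
    _ ≤ 1 := Finset.lubell_yamamoto_meshalkin_inequality_sum_inv_choose hF
  simpa [mul_inv_le_iff₀' this] using h

/-- the same for families living on a subset `Y` -/
theorem lym_le_on {t : ℕ} {Y : Finset α} (ht : 2 * t ≤ Y.card) {F : Finset (Finset α)}
    (hF : IsAntichain (· ⊆ ·) (F : Set (Finset α))) (hsize : ∀ A ∈ F, A.card ≤ t)
    (hY : ∀ A ∈ F, A ⊆ Y) : F.card ≤ Y.card.choose t := by
  classical
  have hmap : ∀ A ∈ F, (A.subtype (· ∈ Y)).map (Function.Embedding.subtype _) = A := by
    intro A hA
    exact Finset.subtype_map_of_mem fun x hx => hY A hA hx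
  have hinj : Set.InjOn (fun A : Finset α => A.subtype (· ∈ Y)) (F : Set (Finset α)) := by
    intro A hA B hB hAB
    rw [← hmap A hA, ← hmap B hB]
    exact congrArg _ hAB
  have hcard : Fintype.card {x // x ∈ Y} = Y.card := Fintype.card_coe Y
  rw [← Finset.card_image_of_injOn hinj, ← hcard]
  refine lym_le (by rw [hcard]; exact ht) ?_ ?_
  · intro A' hA' B' hB' hne hle
    rw [Finset.mem_coe, Finset.mem_image] at hA' hB'
    obtain ⟨A, hA, rfl⟩ := hA'
    obtain ⟨B, hB, rfl⟩ := hB'
    apply hF (Finset.mem_coe.2 hA) (Finset.mem_coe.2 hB)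
    · rintro rfl
      exact hne rfl
    · rw [← hmap A hA, ← hmap B hB]
      exact Finset.map_subset_map.2 hle
  · intro A' hA'
    rw [Finset.mem_image] at hA'
    obtain ⟨A, hA, rfl⟩ := hA'
    rw [← Finset.card_map (Function.Embedding.subtype _), hmap A hA]
    exact hsize A hA

/-- two antichains on `Y`, no member of the first below (or equal to) a member of the second -/
theorem two_anti {t : ℕ} {Y : Finset α} (ht : 2 * t ≤ Y.card) {F G : Finset (Finset α)}
    (hF : IsAntichain (· ⊆ ·) (F : Set (Finset α)))
    (hG : IsAntichain (· ⊆ ·) (G : Set (Finset α)))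
    (hFt : ∀ A ∈ F, A.card ≤ t) (hGt : ∀ A ∈ G, A.card ≤ t)
    (hFY : ∀ A ∈ F, A ⊆ Y) (hGY : ∀ A ∈ G, A ⊆ Y)
    (hFG : ∀ A ∈ F, ∀ B ∈ G, ¬ A ⊆ B) :
    F.card + G.card ≤ Y.card.choose t + (if t = 0 then 0 else Y.card.choose (t - 1)) := by
  classical
  set G1 := G.filter (fun B => B.card = t) with hG1
  set G2 := G.filter (fun B => ¬ B.card = t) with hG2
  have hsplit : G.card = G1.card + G2.card := (Finset.card_filter_add_card_filter_not _).symm
  have hdisj : Disjoint F G1 := by
    rw [Finset.disjoint_left]
    intro A hA hA'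
    exact hFG A hA A (Finset.mem_filter.1 hA').1 subset_rfl
  have h1 : F.card + G1.card ≤ Y.card.choose t := by
    rw [← Finset.card_union_of_disjoint hdisj]
    refine lym_le_on ht ?_ ?_ ?_
    · intro A hA B hB hne hle
      rw [Finset.mem_coe, Finset.mem_union] at hA hB
      rcases hA with hA | hA
      · rcases hB with hB | hB
        · exact hF hA hB hne hle
        · exact hFG A hA B (Finset.mem_filter.1 hB).1 hle
      · rcases hB with hB | hB
        · have hc := (Finset.mem_filter.1 hA).2
          have : A = B := Finset.eq_of_subset_of_card_le hle (by rw [hc]; exact hFt B hB)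
          exact hne this
        · exact hG (Finset.mem_filter.1 hA).1 (Finset.mem_filter.1 hB).1 hne hle
    · intro A hA
      rw [Finset.mem_union] at hA
      rcases hA with hA | hA
      · exact hFt A hA
      · exact hGt A (Finset.mem_filter.1 hA).1
    · intro A hA
      rw [Finset.mem_union] at hA
      rcases hA with hA | hA
      · exact hFY A hA
      · exact hGY A (Finset.mem_filter.1 hA).1
  have h2 : G2.card ≤ if t = 0 then 0 else Y.card.choose (t - 1) := by
    split_ifs with h0
    · rw [Nat.le_zero, Finset.card_eq_zero, Finset.filter_eq_empty_iff]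
      intro B hB
      have := hGt B hB
      omega
    · refine lym_le_on (by omega) ?_ ?_ ?_
      · intro A hA B hB hne hle
        exact hG (Finset.mem_filter.1 hA).1 (Finset.mem_filter.1 hB).1 hne hle
      · intro A hA
        have hA' := Finset.mem_filter.1 hA
        have := hGt A hA'.1
        have := hA'.2
        omega
      · intro A hA
        exact hGY A (Finset.mem_filter.1 hA).1
  omega

theorem lower_part {s : ℕ} (hs : 2 * s ≤ Fintype.card α) {F : Finset (Finset α)}
    (hF : IsAntichain (· ⊆ ·) (F : Set (Finset α))) :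
    (F.filter (fun A => A.card ≤ s)).card + (sh s (F.filter (fun A => s < A.card))).card ≤
      (Fintype.card α).choose s := by
  classical
  have hsh : ∀ T, T ∈ sh s (F.filter (fun A => s < A.card)) →
      T.card = s ∧ ∃ B ∈ F, s < B.card ∧ T ⊆ B := by
    intro T hT
    rw [sh, Finset.mem_filter, Finset.mem_powersetCard] at hT
    obtain ⟨⟨-, hc⟩, B, hB, hTB⟩ := hT
    rw [Finset.mem_filter] at hB
    exact ⟨hc, B, hB.1, hB.2, hTB⟩
  have hlow : ∀ A ∈ F, A.card ≤ s → ∀ B ∈ F, s < B.card → ¬ A ⊆ B := by
    intro A hA hAs B hB hBs hle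
    by_cases h : A = B
    · rw [h] at hAs
      omega
    · exact hF hA hB h hle
  rw [← Finset.card_union_of_disjoint]
  · refine lym_le hs ?_ ?_
    · intro A hA B hB hne hle
      rw [Finset.mem_coe, Finset.mem_union, Finset.mem_filter] at hA hB
      rcases hA with hA | hA
      · rcases hB with hB | hB
        · exact hF hA.1 hB.1 hne hle
        · obtain ⟨-, C, hC, hCs, hBC⟩ := hsh B hB
          exact hlow A hA.1 hA.2 C hC hCs (hle.trans hBC)
      · obtain ⟨hAc, C, hC, hCs, hAC⟩ := hsh A hA
        rcases hB with hB | hB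
        · have : A = B := Finset.eq_of_subset_of_card_le hle (by rw [hAc]; exact hB.2)
          exact hne this
        · obtain ⟨hBc, -⟩ := hsh B hB
          have : A = B := Finset.eq_of_subset_of_card_le hle (by rw [hAc, hBc])
          exact hne this
    · intro A hA
      rw [Finset.mem_union, Finset.mem_filter] at hA
      rcases hA with hA | hA
      · exact hA.2
      · exact (hsh A hA).1.le
  · rw [Finset.disjoint_left]
    intro A hA hA'
    rw [Finset.mem_filter] at hA
    obtain ⟨-, C, hC, hCs, hAC⟩ := hsh A hA'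
    exact hlow A hA.1 hA.2 C hC hCs hAC

/-- R1: the general bound -/
theorem general {s : ℕ} (hs : 2 * s ≤ Fintype.card α) {F : Finset (Finset α)}
    (hF : IsAntichain (· ⊆ ·) (F : Set (Finset α)))
    (hdiam : ∀ A ∈ F, ∀ B ∈ F, (symmDiff A B).card ≤ 2 * s + 1) :
    F.card ≤ (Fintype.card α).choose s +
      2 * ∑ j ∈ Icc 1 (s / 2), (Fintype.card α).choose (s - 2 * j) := by
  classical
  have h1 := lower_part hs hF
  have h2 := big_le (s := s) (F := F.filter (fun A => s < A.card))
    (hF.subset (by intro A hA; exact (Finset.mem_filter.1 hA).1))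
    (fun A hA B hB => hdiam A (Finset.mem_filter.1 hA).1 B (Finset.mem_filter.1 hB).1)
    (fun A hA => (Finset.mem_filter.1 hA).2)
  have h3 : F.card = (F.filter (fun A => A.card ≤ s)).card +
      (F.filter (fun A => s < A.card)).card := by
    rw [← Finset.card_filter_add_card_filter_not (s := F) (fun A => A.card ≤ s)]
    simp only [not_le]
  omega

end Pool.Agent.OddDiam
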