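import Mathlib

/-! # MP_f155e9_co, odd diameter: intersecting families which are not stars -/

set_option autoImplicit false
set_option linter.unusedSectionVars false

namespace Pool.Agent.OddDiam

open Finset

variable {α : Type*} [Fintype α] [DecidableEq α]

open scoped FinsetFamily in
private theorem cross_fin {n s : ℕ} (hs : 1 ≤ s) (hn : 2 * s ≤ n)
    {𝒜 ℬ : Finset (Finset (Fin n))}
    (hA : (𝒜 : Set (Finset (Fin n))).Sized s) (hB : (ℬ : Set (Finset (Fin n))).Sized s)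
    (hint : ∀ A ∈ 𝒜, ∀ B ∈ ℬ, (A ∩ B).Nonempty) (hle : 𝒜.card ≤ ℬ.card) :
    𝒜.card ≤ (n - 1).choose (s - 1) := by
  refine le_of_not_gt fun size => ?_
  have hdisj : Disjoint 𝒜 (∂^[n - 2 * s] ℬᶜˢ) := disjoint_right.2 fun A hAbar hA' ↦ by
    simp only [mem_shadow_iterate_iff_exists_sdiff, mem_compls] at hAbar
    obtain ⟨C, hC, hAC, _⟩ := hAbar
    obtain ⟨x, hx⟩ := hint A hA' Cᶜ hC
    rw [mem_inter, mem_compl] at hx
    exact hx.2 (hAC hx.1)
  have h1 : s ≤ n := by omega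
  have h2 : 1 ≤ n := by omega
  have z : (n - 1).choose (n - s) < #ℬᶜˢ := by
    rw [card_compls]
    refine lt_of_lt_of_le ?_ hle
    rwa [Nat.choose_symm_of_eq_add (tsub_add_tsub_cancel h1 hs).symm]
  have hBbar : (ℬᶜˢ : Set (Finset (Fin n))).Sized (n - s) := by simpa using hB.compls
  have kk := kruskal_katona_lovasz_form (i := n - 2 * s) (by omega)
    ((tsub_le_tsub_iff_left h2).2 hs) tsub_le_self hBbar z.le
  have h3 : n - s - (n - 2 * s) = s := by omega
  rw [h3] at kk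
  have h4 : n.choose s = (n - 1).choose (s - 1) + (n - 1).choose s := by
    obtain ⟨m, rfl⟩ : ∃ m, n = m + 1 := ⟨n - 1, by omega⟩
    obtain ⟨t, rfl⟩ : ∃ t, s = t + 1 := ⟨s - 1, by omega⟩
    simpa using Nat.choose_succ_succ m t
  have h5 : n.choose s < #(𝒜 ∪ ∂^[n - 2 * s] ℬᶜˢ) := by
    rw [card_union_of_disjoint hdisj, h4]
    exact add_lt_add_of_lt_of_le size kk
  have h6 : ((𝒜 ∪ ∂^[n - 2 * s] ℬᶜˢ : Finset (Finset (Fin n))) :
      Set (Finset (Fin n))).Sized s := by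
    rw [coe_union, Set.sized_union]
    refine ⟨hA, ?_⟩
    have := hBbar.shadow_iterate (k := n - 2 * s)
    rwa [h3] at this
  have h7 := h6.card_le
  rw [Fintype.card_fin] at h7
  omega

/-- cross-intersecting `s`-uniform families: the smaller one has at most `C(n-1,s-1)` members -/
theorem cross_min {s : ℕ} (hs : 1 ≤ s) (hn : 2 * s ≤ Fintype.card α) {𝒜 ℬ : Finset (Finset α)}
    (hA : ∀ A ∈ 𝒜, A.card = s) (hB : ∀ B ∈ ℬ, B.card = s)
    (hint : ∀ A ∈ 𝒜, ∀ B ∈ ℬ, (A ∩ B).Nonempty) (hle : 𝒜.card ≤ ℬ.card) :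
    𝒜.card ≤ (Fintype.card α - 1).choose (s - 1) := by
  classical
  let e : α ≃ Fin (Fintype.card α) := Fintype.equivFin α
  let f : Finset α ↪ Finset (Fin (Fintype.card α)) := (Finset.mapEmbedding e.toEmbedding).toEmbedding
  have hf : ∀ A : Finset α, f A = A.map e.toEmbedding := fun A => rfl
  have h := cross_fin (n := Fintype.card α) hs hn (𝒜 := 𝒜.map f) (ℬ := ℬ.map f)
    (by
      intro A hA'
      rw [mem_coe, mem_map] at hA'
      obtain ⟨A, hA', rfl⟩ := hA'
      rw [hf, card_map]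
      exact hA A hA')
    (by
      intro A hA'
      rw [mem_coe, mem_map] at hA'
      obtain ⟨A, hA', rfl⟩ := hA'
      rw [hf, card_map]
      exact hB A hA')
    (by
      intro A hA' B hB'
      rw [mem_map] at hA' hB'
      obtain ⟨A, hA', rfl⟩ := hA'
      obtain ⟨B, hB', rfl⟩ := hB'
      rw [hf, hf, ← map_inter]
      exact (hint A hA' B hB').map)
    (by simpa using hle)
  simpa using h

private theorem cross_on {s : ℕ} (hs : 1 ≤ s) {V : Finset α} (hn : 2 * s ≤ V.card)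
    {𝒜 ℬ : Finset (Finset α)}
    (hAV : ∀ A ∈ 𝒜, A ⊆ V) (hBV : ∀ B ∈ ℬ, B ⊆ V)
    (hA : ∀ A ∈ 𝒜, A.card = s) (hB : ∀ B ∈ ℬ, B.card = s)
    (hint : ∀ A ∈ 𝒜, ∀ B ∈ ℬ, (A ∩ B).Nonempty) (hle : 𝒜.card ≤ ℬ.card) :
    𝒜.card ≤ (V.card - 1).choose (s - 1) := by
  classical
  let g : Finset α → Finset V := fun A => A.subtype (· ∈ V)
  have hcard : ∀ A : Finset α, A ⊆ V → (g A).card = A.card := by
    intro A hAV'
    simp only [g, card_subtype]
    congr 1
    exact filter_true_of_mem fun x hx => hAV' hx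
  have hinj : ∀ 𝒞 : Finset (Finset α), (∀ A ∈ 𝒞, A ⊆ V) → (𝒞.image g).card = 𝒞.card := by
    intro 𝒞 h𝒞
    apply card_image_of_injOn
    intro A hA' B hB' hAB
    ext x
    have h1 : ∀ C : Finset α, C ⊆ V → (x ∈ C ↔ ∃ h : x ∈ V, (⟨x, h⟩ : V) ∈ g C) := by
      intro C hC
      constructor
      · intro hx
        exact ⟨hC hx, by simpa [g] using hx⟩
      · rintro ⟨h, hx⟩
        simpa [g] using hx
    rw [h1 A (h𝒞 A hA'), h1 B (h𝒞 B hB'), hAB]
  have h := cross_min (α := V) (s := s) hs (by simpa using hn) (𝒜 := 𝒜.image g)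
    (ℬ := ℬ.image g)
    (by
      intro A' hA'
      obtain ⟨A, hA1, rfl⟩ := mem_image.1 hA'
      rw [hcard A (hAV A hA1)]
      exact hA A hA1)
    (by
      intro A' hA'
      obtain ⟨A, hA1, rfl⟩ := mem_image.1 hA'
      rw [hcard A (hBV A hA1)]
      exact hB A hA1)
    (by
      intro A' hA'' B' hB''
      obtain ⟨A, hA', rfl⟩ := mem_image.1 hA''
      obtain ⟨B, hB', rfl⟩ := mem_image.1 hB''
      obtain ⟨x, hx⟩ := hint A hA' B hB'
      rw [mem_inter] at hx
      exact ⟨⟨x, hAV A hA' hx.1⟩, by simp [g, hx.1, hx.2]⟩)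
    (by rw [hinj 𝒜 hAV, hinj ℬ hBV]; exact hle)
  rw [hinj 𝒜 hAV] at h
  simpa using h

/-- the members containing `p` and not `q`, with `p` deleted -/
private def crossDel (𝒪 : Finset (Finset α)) (p q : α) : Finset (Finset α) :=
  (𝒪.filter fun A => p ∈ A ∧ q ∉ A).image fun A => A.erase p

private theorem crossDel_card (𝒪 : Finset (Finset α)) (p q : α) :
    (crossDel 𝒪 p q).card = (𝒪.filter fun A => p ∈ A ∧ q ∉ A).card := by
  apply card_image_of_injOn
  intro A hA B hB hAB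
  simp only [coe_filter, Set.mem_ofPred_eq] at hA hB
  simp only at hAB
  rw [← insert_erase hA.2.1, ← insert_erase hB.2.1, hAB]

private theorem crossDel_sub {𝒪 : Finset (Finset α)} {p q : α} {B : Finset α}
    (hB : B ∈ crossDel 𝒪 p q) : B ⊆ (univ.erase p).erase q := by
  obtain ⟨A, hA, rfl⟩ := mem_image.1 hB
  rw [mem_filter] at hA
  intro x hx
  rw [mem_erase] at hx
  rw [mem_erase, mem_erase]
  refine ⟨?_, hx.1, mem_univ _⟩
  rintro rfl
  exact hA.2.2 hx.2

private theorem crossDel_size {s : ℕ} {𝒪 : Finset (Finset α)} (hO : ∀ A ∈ 𝒪, A.card = s + 1)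
    {p q : α} {B : Finset α} (hB : B ∈ crossDel 𝒪 p q) : B.card = s := by
  obtain ⟨A, hA, rfl⟩ := mem_image.1 hB
  rw [mem_filter] at hA
  rw [card_erase_of_mem hA.2.1, hO A hA.1]
  rfl

private theorem crossDel_inter {𝒪 : Finset (Finset α)}
    (hint : ∀ A ∈ 𝒪, ∀ B ∈ 𝒪, (A ∩ B).Nonempty) {p q : α} {A B : Finset α}
    (hA : A ∈ crossDel 𝒪 q p) (hB : B ∈ crossDel 𝒪 p q) : (A ∩ B).Nonempty := by
  obtain ⟨A₁, hA₁, rfl⟩ := mem_image.1 hA
  obtain ⟨B₁, hB₁, rfl⟩ := mem_image.1 hB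
  rw [mem_filter] at hA₁ hB₁
  obtain ⟨x, hx⟩ := hint A₁ hA₁.1 B₁ hB₁.1
  rw [mem_inter] at hx
  refine ⟨x, ?_⟩
  rw [mem_inter, mem_erase, mem_erase]
  refine ⟨⟨?_, hx.1⟩, ?_, hx.2⟩
  · rintro rfl
    exact hB₁.2.2 hx.2
  · rintro rfl
    exact hA₁.2.2 hx.1

private theorem cross_card_two {p q : α} (hpq : p ≠ q) :
    ((univ.erase p).erase q : Finset α).card = Fintype.card α - 2 := by
  rw [card_erase_of_mem (mem_erase.2 ⟨hpq.symm, mem_univ _⟩), card_erase_of_mem (mem_univ _),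
    card_univ]
  omega

private theorem cross_both {s : ℕ} {𝒪 : Finset (Finset α)} (hs : 1 ≤ s)
    (hO : ∀ A ∈ 𝒪, A.card = s + 1) {p q : α} (hpq : p ≠ q) :
    (𝒪.filter fun A => q ∈ A ∧ p ∈ A).card ≤ (Fintype.card α - 2).choose (s - 1) := by
  rw [← cross_card_two hpq, ← card_powersetCard]
  apply card_le_card_of_injOn (fun A => (A.erase p).erase q)
  · intro A hA
    simp only [coe_filter, Set.mem_ofPred_eq] at hA
    rw [mem_coe, mem_powersetCard]
    constructor
    · exact erase_subset_erase _ (erase_subset_erase _ (subset_univ _))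
    · rw [card_erase_of_mem (mem_erase.2 ⟨hpq.symm, hA.2.1⟩), card_erase_of_mem hA.2.2,
        hO A hA.1]
      omega
  · intro A hA B hB hAB
    simp only [coe_filter, Set.mem_ofPred_eq] at hA hB
    simp only at hAB
    have h1 : ∀ C : Finset α, q ∈ C ∧ p ∈ C → C = insert p (insert q ((C.erase p).erase q)) := by
      intro C hC
      rw [insert_erase (mem_erase.2 ⟨hpq.symm, hC.1⟩), insert_erase hC.2]
    rw [h1 A hA.2, h1 B hB.2, hAB]

theorem nonstar_bound {s : ℕ} (hs : 1 ≤ s) (hn : 2 * s + 2 ≤ Fintype.card α)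
    {𝒪 : Finset (Finset α)} (hO : ∀ A ∈ 𝒪, A.card = s + 1)
    (hint : ∀ A ∈ 𝒪, ∀ B ∈ 𝒪, (A ∩ B).Nonempty) (hns : ∀ z : α, ∃ A ∈ 𝒪, z ∉ A) :
    𝒪.card ≤ 2 * (s + 1) * (Fintype.card α - 2).choose (s - 1) := by
  have hne : (univ : Finset α).Nonempty := by
    rw [univ_nonempty_iff, ← Fintype.card_pos_iff]
    omega
  obtain ⟨p, -, hp⟩ := exists_max_image (univ : Finset α)
    (fun x => (𝒪.filter fun A => x ∈ A).card) hne
  obtain ⟨C, hC, hpC⟩ := hns p
  have hsplit : ∀ x y : α, (𝒪.filter fun A => x ∈ A).card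
      = (𝒪.filter fun A => x ∈ A ∧ y ∈ A).card + (𝒪.filter fun A => x ∈ A ∧ y ∉ A).card := by
    intro x y
    rw [← filter_filter, ← filter_filter, card_filter_add_card_filter_not]
  have hdeg : ∀ q ∈ C, (𝒪.filter fun A => q ∈ A).card
      ≤ 2 * (Fintype.card α - 2).choose (s - 1) := by
    intro q hq
    have hpq : p ≠ q := by
      rintro rfl
      exact hpC hq
    have h1 := cross_both hs hO hpq
    have h2 := hp q (mem_univ _)
    rw [hsplit q p, hsplit p q] at h2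
    have h3 : (𝒪.filter fun A => q ∈ A ∧ p ∈ A) = (𝒪.filter fun A => p ∈ A ∧ q ∈ A) := by
      apply filter_congr
      intro A _
      exact and_comm
    rw [h3] at h2
    have h4 : (crossDel 𝒪 q p).card ≤ (crossDel 𝒪 p q).card := by
      rw [crossDel_card, crossDel_card]
      omega
    have hc := cross_card_two hpq
    have h5 := cross_on (V := (univ.erase p).erase q) hs (by rw [hc]; omega)
      (𝒜 := crossDel 𝒪 q p) (ℬ := crossDel 𝒪 p q)
      (fun A hA => by
        have := crossDel_sub hA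
        rwa [erase_right_comm] at this)
      (fun A hA => crossDel_sub hA)
      (fun A hA => crossDel_size hO hA) (fun A hA => crossDel_size hO hA)
      (fun A hA B hB => crossDel_inter hint hA hB) h4
    rw [crossDel_card, hc] at h5
    have h6 : (Fintype.card α - 2 - 1).choose (s - 1) ≤ (Fintype.card α - 2).choose (s - 1) :=
      Nat.choose_le_choose _ (by omega)
    rw [hsplit q p]
    omega
  have hcover : 𝒪 ⊆ C.biUnion fun q => 𝒪.filter fun A => q ∈ A := by
    intro A hA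
    obtain ⟨x, hx⟩ := hint A hA C hC
    rw [mem_inter] at hx
    rw [mem_biUnion]
    exact ⟨x, hx.2, mem_filter.2 ⟨hA, hx.1⟩⟩
  calc 𝒪.card ≤ (C.biUnion fun q => 𝒪.filter fun A => q ∈ A).card := card_le_card hcover
    _ ≤ ∑ q ∈ C, (𝒪.filter fun A => q ∈ A).card := card_biUnion_le
    _ ≤ ∑ _q ∈ C, 2 * (Fintype.card α - 2).choose (s - 1) := sum_le_sum hdeg
    _ = 2 * (s + 1) * (Fintype.card α - 2).choose (s - 1) := by
      rw [sum_const, hO C hC, smul_eq_mul]
      ring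

end Pool.Agent.OddDiam
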