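import Mathlib

/-! # MP_f155e9_co, odd diameter: binomial inequalities -/

set_option autoImplicit false

namespace Pool.Agent.OddDiam

open Finset

private theorem num_step {n q k : ℕ} (h : q * (k + 1) + k ≤ n) :
    q * n.choose k ≤ n.choose (k + 1) := by
  have h1 := Nat.choose_succ_right_eq n k
  have h2 : q * (k + 1) ≤ n - k := by omega
  have h3 : q * n.choose k * (k + 1) ≤ n.choose (k + 1) * (k + 1) := by
    rw [h1]
    calc q * n.choose k * (k + 1) = n.choose k * (q * (k + 1)) := by ring
      _ ≤ n.choose k * (n - k) := Nat.mul_le_mul_left _ h2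
  exact Nat.le_of_mul_le_mul_right h3 (Nat.succ_pos k)

private theorem num_two {n q s : ℕ} (h : (q + 1) * s ≤ n) : ∀ t, t ≤ s →
    q * q * ∑ j ∈ Icc 1 ((t + 2) / 2), n.choose (t + 2 - 2 * j) ≤
      q * q * n.choose t + ∑ j ∈ Icc 1 ((t + 2) / 2), n.choose (t + 2 - 2 * j) := by
  have hstep : ∀ k, k + 1 ≤ s → q * n.choose k ≤ n.choose (k + 1) := by
    intro k hk
    apply num_step
    have : (q + 1) * (k + 1) ≤ (q + 1) * s := Nat.mul_le_mul_left _ hk
    nlinarith
  have hrec : ∀ t, ∑ j ∈ Icc 1 ((t + 2) / 2), n.choose (t + 2 - 2 * j) =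
      n.choose t + ∑ j ∈ Icc 1 (t / 2), n.choose (t - 2 * j) := by
    intro t
    have e : (t + 2) / 2 = t / 2 + 1 := by omega
    rw [e]
    have : Icc 1 (t / 2 + 1) = insert 1 ((Icc 1 (t / 2)).image (· + 1)) := by
      ext x
      simp only [mem_Icc, mem_insert, mem_image]
      constructor
      · intro hx
        rcases Nat.eq_or_lt_of_le hx.1 with h1 | h1
        · left; omega
        · right
          exact ⟨x - 1, by omega, by omega⟩
      · rintro (rfl | ⟨y, hy, rfl⟩)
        · omega
        · omega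
    rw [this, sum_insert, sum_image]
    · have : t + 2 - 2 * 1 = t := by omega
      rw [this]
      refine congrArg _ (sum_congr rfl fun j hj => ?_)
      have : t + 2 - 2 * (j + 1) = t - 2 * j := by omega
      rw [this]
    · intro x _ y _ hxy
      exact Nat.succ_injective hxy
    · simp only [mem_image, mem_Icc, not_exists, not_and]
      intro x hx
      omega
  intro t
  induction t using Nat.strong_induction_on with
  | _ t ih =>
    intro ht
    rcases Nat.lt_or_ge t 2 with h2 | h2
    · rw [hrec]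
      have : t / 2 = 0 := by omega
      rw [this]
      simp
    · obtain ⟨u, rfl⟩ := Nat.exists_eq_add_of_le' h2
      have hi := ih u (by omega) (by omega)
      rw [hrec (u + 2)]
      have h1 := hstep u (by omega)
      have h3 := hstep (u + 1) (by omega)
      have h4 : q * q * n.choose u ≤ n.choose (u + 2) := by
        calc q * q * n.choose u = q * (q * n.choose u) := by ring
          _ ≤ q * n.choose (u + 1) := Nat.mul_le_mul_left _ h1
          _ ≤ _ := h3
      rw [Nat.mul_add]
      omega

private theorem num_rec (n t : ℕ) : ∑ j ∈ Icc 1 ((t + 2) / 2), n.choose (t + 2 - 2 * j) =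
    n.choose t + ∑ j ∈ Icc 1 (t / 2), n.choose (t - 2 * j) := by
  have e : (t + 2) / 2 = t / 2 + 1 := by omega
  rw [e]
  have : Icc 1 (t / 2 + 1) = insert 1 ((Icc 1 (t / 2)).image (· + 1)) := by
    ext x
    simp only [mem_Icc, mem_insert, mem_image]
    constructor
    · intro hx
      rcases Nat.eq_or_lt_of_le hx.1 with h1 | h1
      · left; omega
      · right
        exact ⟨x - 1, by omega, by omega⟩
    · rintro (rfl | ⟨y, hy, rfl⟩)
      · omega
      · omega
  rw [this, sum_insert, sum_image]
  · have : t + 2 - 2 * 1 = t := by omega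
    rw [this]
    refine congrArg _ (sum_congr rfl fun j hj => ?_)
    have : t + 2 - 2 * (j + 1) = t - 2 * j := by omega
    rw [this]
  · intro x _ y _ hxy
    exact Nat.succ_injective hxy
  · simp only [mem_image, mem_Icc, not_exists, not_and]
    intro x hx
    omega

/-- the numerical inequality behind `21 s ≤ 4 n` -/
theorem num_middle_sharp {s n : ℕ} (hs : 1 ≤ s) (hn : 21 * s ≤ 4 * n) :
    4 * ∑ j ∈ Icc 1 (s / 2), n.choose (s - 2 * j) ≤ n.choose (s - 1) := by
  have hstep : ∀ k, k + 1 ≤ s → 17 * n.choose k ≤ 4 * n.choose (k + 1) := by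
    intro k hk
    have h1 := Nat.choose_succ_right_eq n k
    have h2 : 17 * (k + 1) ≤ 4 * (n - k) := by omega
    have h3 : 17 * n.choose k * (k + 1) ≤ 4 * n.choose (k + 1) * (k + 1) := by
      rw [mul_assoc 4, h1]
      calc 17 * n.choose k * (k + 1) = n.choose k * (17 * (k + 1)) := by ring
        _ ≤ n.choose k * (4 * (n - k)) := Nat.mul_le_mul_left _ h2
        _ = 4 * (n.choose k * (n - k)) := by ring
    exact Nat.le_of_mul_le_mul_right h3 (Nat.succ_pos k)
  have key : ∀ t, t + 1 ≤ s →
      273 * ∑ j ∈ Icc 1 ((t + 1) / 2), n.choose (t + 1 - 2 * j) ≤ 68 * n.choose t := by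
    intro t
    induction t using Nat.strong_induction_on with
    | _ t ih =>
      intro ht
      rcases Nat.lt_or_ge t 1 with h2 | h2
      · have : (t + 1) / 2 = 0 := by omega
        rw [this]
        simp
      · obtain ⟨u, rfl⟩ := Nat.exists_eq_add_of_le' h2
        rw [show u + 1 + 1 = u + 2 from rfl, num_rec n u]
        have h3 := hstep u (by omega)
        rcases Nat.lt_or_ge u 1 with h4 | h4
        · have : u / 2 = 0 := by omega
          rw [this]
          simp only [Finset.Icc_eq_empty_of_lt Nat.zero_lt_one, sum_empty]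
          omega
        · obtain ⟨v, rfl⟩ := Nat.exists_eq_add_of_le' h4
          have h5 := ih v (by omega) (by omega)
          have h6 := hstep v (by omega)
          omega
  obtain ⟨t, rfl⟩ := Nat.exists_eq_add_of_le' hs
  have h := key t le_rfl
  have e2 : t + 1 - 1 = t := by omega
  rw [e2]
  omega

theorem num_middle {s n : ℕ} (hs : 1 ≤ s) (hn : 7 * s ≤ n) :
    (if 2 ≤ s then n.choose (s - 2) else 0) + 4 * ∑ j ∈ Icc 1 (s / 2), n.choose (s - 2 * j) ≤
      n.choose (s - 1) := by
  rcases Nat.lt_or_ge s 2 with h2 | h2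
  · have : s / 2 = 0 := by omega
    rw [this, if_neg (by omega)]
    simp
  · obtain ⟨t, rfl⟩ := Nat.exists_eq_add_of_le' h2
    rw [if_pos h2]
    have h := num_two (n := n) (q := 6) (s := t + 2) (by omega) t (by omega)
    have h1 := num_step (n := n) (q := 6) (k := t) (by omega)
    have e1 : t + 2 - 2 = t := by omega
    have e2 : t + 2 - 1 = t + 1 := by omega
    rw [e1, e2]
    omega

private theorem num_geo {n q s : ℕ} (h : (q + 1) * s ≤ n) : ∀ t, t ≤ s →
    q * ∑ i ∈ range (t + 1), n.choose i ≤ q * n.choose t + ∑ i ∈ range (t + 1), n.choose i := by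
  intro t
  induction t with
  | zero => intro _; simp
  | succ t ih =>
    intro ht
    have h1 : q * n.choose t ≤ n.choose (t + 1) := by
      apply num_step
      have : (q + 1) * (t + 1) ≤ (q + 1) * s := Nat.mul_le_mul_left _ ht
      nlinarith
    have hi := ih (by omega)
    rw [sum_range_succ _ (t + 1), Nat.mul_add]
    omega

private theorem num_shift {m t : ℕ} : ∀ d, (m + d).choose (t + 1) ≤
    m.choose (t + 1) + d * (m + d - 1).choose t := by
  intro d
  induction d with
  | zero => simp
  | succ d ih =>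
    have e : m + (d + 1) - 1 = m + d := by omega
    rw [e, show m + (d + 1) = (m + d) + 1 by omega, Nat.choose_succ_succ]
    have h1 : (m + d - 1).choose t ≤ (m + d).choose t := Nat.choose_le_choose _ (by omega)
    have h2 : d * (m + d - 1).choose t ≤ d * (m + d).choose t := Nat.mul_le_mul_left _ h1
    rw [Nat.add_mul, Nat.succ_eq_add_one]
    omega

private theorem num_close {s n m t : ℕ} (hn : 40 * s ^ 2 ≤ n) (hm : n ≤ m + 2 * s)
    (ht : t ≤ s) : 19 * n.choose t ≤ 20 * m.choose t := by
  rcases Nat.eq_zero_or_pos t with rfl | htp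
  · simp
  obtain ⟨u, rfl⟩ := Nat.exists_eq_add_of_le' htp
  rcases Nat.lt_or_ge m n with hmn | hmn
  · obtain ⟨d, rfl⟩ := Nat.exists_eq_add_of_le hmn.le
    have h1 := num_shift (m := m) (t := u) d
    have hd : d ≤ 2 * s := by omega
    have hpos : 0 < m + d := by nlinarith
    obtain ⟨N, hN⟩ := Nat.exists_eq_add_of_le' hpos
    have h2 := Nat.add_one_mul_choose_eq N u
    have e : m + d - 1 = N := by omega
    rw [e] at h1
    rw [hN] at h1 hn ⊢
    have h3 : (N + 1) * (N + 1).choose (u + 1) ≤
        (N + 1) * m.choose (u + 1) + d * ((N + 1).choose (u + 1) * (u + 1)) := by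
      calc (N + 1) * (N + 1).choose (u + 1)
          ≤ (N + 1) * (m.choose (u + 1) + d * N.choose u) := Nat.mul_le_mul_left _ h1
        _ = (N + 1) * m.choose (u + 1) + d * ((N + 1) * N.choose u) := by ring
        _ = _ := by rw [h2]
    have h4 : 20 * (d * (u + 1)) ≤ N + 1 := by
      calc 20 * (d * (u + 1)) ≤ 20 * (2 * s * s) :=
            Nat.mul_le_mul_left _ (Nat.mul_le_mul hd ht)
        _ = 40 * s ^ 2 := by ring
        _ ≤ N + 1 := hn
    have h5 : 20 * (d * ((N + 1).choose (u + 1) * (u + 1))) ≤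
        (N + 1) * (N + 1).choose (u + 1) := by
      calc 20 * (d * ((N + 1).choose (u + 1) * (u + 1)))
          = 20 * (d * (u + 1)) * (N + 1).choose (u + 1) := by ring
        _ ≤ _ := Nat.mul_le_mul_right _ h4
    have h6 : (N + 1) * (19 * (N + 1).choose (u + 1)) ≤ (N + 1) * (20 * m.choose (u + 1)) := by
      nlinarith
    exact Nat.le_of_mul_le_mul_left h6 (Nat.succ_pos N)
  · have := Nat.choose_le_choose (u + 1) hmn
    simp only [Nat.succ_eq_add_one, Nat.zero_add] at *
    omega

theorem num_case1 {s n m : ℕ} (hs : 1 ≤ s) (hn : 40 * s ^ 2 ≤ n) (hm : n ≤ m + 2 * s) :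
    ∑ i ∈ range s, n.choose i ≤ 3 * m.choose (s - 1) := by
  obtain ⟨t, rfl⟩ := Nat.exists_eq_add_of_le' hs
  have h40 : 40 * (t + 1) ≤ n := by nlinarith
  have h1 := num_geo (n := n) (q := 39) (s := t + 1) (by omega) t (by omega)
  have h2 := num_close hn hm (t := t) (by omega)
  have e : t + 1 - 1 = t := by omega
  rw [e]
  omega

theorem num_case3 {s n m : ℕ} (hs : 1 ≤ s) (hn : 40 * s ^ 2 ≤ n) (hm : n ≤ m + 2 * s) :
    4 * (∑ i ∈ range s, n.choose i + 2 * (s + 1) * (n - 2).choose (s - 1)) ≤ m.choose s := by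
  obtain ⟨t, rfl⟩ := Nat.exists_eq_add_of_le' hs
  have h40 : 40 * (t + 1) ≤ n := by nlinarith
  have h1 := num_geo (n := n) (q := 39) (s := t + 1) (by omega) t (by omega)
  have h2 := num_close hn hm (t := t + 1) le_rfl
  have e : t + 1 - 1 = t := by omega
  rw [e]
  have h3 : (n - 2).choose t ≤ n.choose t := Nat.choose_le_choose _ (by omega)
  have h4 : 39 * (t + 1) * n.choose t ≤ n.choose (t + 1) := by
    apply num_step
    nlinarith
  have h5 : 2 * (t + 1 + 1) * (n - 2).choose t ≤ 2 * (t + 1 + 1) * n.choose t :=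
    Nat.mul_le_mul_left _ h3
  nlinarith [Nat.zero_le (t * n.choose t)]

theorem num_main {s n : ℕ} (hs : 1 ≤ s) (hn : 40 * s ^ 2 ≤ n) :
    10 * (n.choose (s - 1) + 2 * ∑ j ∈ Icc 1 (s / 2), n.choose (s - 2 * j)) ≤ n.choose s := by
  have h40 : 40 * s ≤ n := by nlinarith
  rcases Nat.lt_or_ge s 2 with h2 | h2
  · have : s / 2 = 0 := by omega
    have hs1 : s = 1 := by omega
    rw [this, hs1]
    simp
    omega
  · obtain ⟨t, rfl⟩ := Nat.exists_eq_add_of_le' h2
    have h := num_two (n := n) (q := 39) (s := t + 2) (by omega) t (by omega)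
    have h1 := num_step (n := n) (q := 39) (k := t) (by omega)
    have h3 := num_step (n := n) (q := 39) (k := t + 1) (by omega)
    have e2 : t + 2 - 1 = t + 1 := by omega
    have e3 : t + 1 + 1 = t + 2 := rfl
    rw [e3] at h3
    rw [e2]
    omega

end Pool.Agent.OddDiam
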