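import Pool.Agent.OddDiam.Case1
import Pool.Agent.OddDiam.Cross
import Pool.Agent.OddDiam.Num

/-! # MP_f155e9_co, odd diameter: the ball theorem -/

set_option autoImplicit false

namespace Pool.Agent.OddDiam

open Finset

variable {α : Type*} [Fintype α] [DecidableEq α]

/-- the centre is empty: sizes at most `s + 1`, the `(s+1)`-sets pairwise intersecting -/
theorem ball_empty {s : ℕ} (hn : 2 * s ≤ Fintype.card α) {G : Finset (Finset α)}
    (hG : IsAntichain (· ⊆ ·) (G : Set (Finset α))) (hrank : ∀ S ∈ G, S.card ≤ s + 1)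
    (hint : ∀ S ∈ G, ∀ T ∈ G, S.card = s + 1 → T.card = s + 1 → (S ∩ T).Nonempty) :
    G.card ≤ (Fintype.card α).choose s := by
  have h1 := lower_part hn hG
  set Q := G.filter (fun A => s < A.card) with hQ
  have hQ1 : ∀ A ∈ Q, A ∈ G ∧ A.card = s + 1 := by
    intro A hA
    obtain ⟨hA1, hA2⟩ := Finset.mem_filter.mp hA
    have := hrank A hA1
    exact ⟨hA1, by omega⟩
  have h2 : Q.card ≤ (Finset.shadow Q).card :=
    katona (t := s) (fun A hA => (hQ1 A hA).2)
      (fun A hA B hB => hint A (hQ1 A hA).1 B (hQ1 B hB).1 (hQ1 A hA).2 (hQ1 B hB).2)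
  have h3 : Finset.shadow Q ⊆ sh s Q := by
    intro T hT
    rw [Finset.mem_shadow_iff] at hT
    obtain ⟨A, hA, x, hx, rfl⟩ := hT
    refine Finset.mem_filter.mpr ⟨Finset.mem_powersetCard.mpr ⟨Finset.subset_univ _, ?_⟩,
      A, hA, Finset.erase_subset _ _⟩
    rw [Finset.card_erase_of_mem hx, (hQ1 A hA).2]
    rfl
  have h4 := Finset.card_le_card h3
  have h5 := Finset.card_filter_add_card_filter_not (s := G) (fun A => A.card ≤ s)
  have h6 : G.filter (fun A => ¬ A.card ≤ s) = Q := by
    rw [hQ]
    refine Finset.filter_congr fun A _ => ?_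
    omega
  rw [h6] at h5
  omega

theorem ball {s : ℕ} (hs : 1 ≤ s) (hn : 40 * s ^ 2 ≤ Fintype.card α) {Z : Finset α}
    (hZ : Z.card ≤ 2 * s) {G : Finset (Finset α)} (hG : TwAnti Z G)
    (hrank : ∀ S ∈ G, S.card ≤ s + 1)
    (hint : ∀ S ∈ G, ∀ T ∈ G, S.card = s + 1 → T.card = s + 1 → (S ∩ T).Nonempty) :
    G.card ≤ (Fintype.card α).choose s := by
  have hs2 : s ≤ s ^ 2 := by nlinarith
  rcases Finset.eq_empty_or_nonempty Z with rfl | ⟨x, hx⟩
  · refine ball_empty (by omega) ?_ hrank hint
    intro S hS T hT hne hsub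
    refine hne (hG S hS T hT (by simp) ?_)
    simpa using hsub
  by_cases hstar : ∃ z : α, ∀ S ∈ G, S.card = s + 1 → z ∈ S
  · obtain ⟨z, hz⟩ := hstar
    exact star_case hG (by omega) hrank z hz
  push Not at hstar
  have hm : (Zᶜ).card + Z.card = Fintype.card α := by
    rw [Finset.card_compl]
    have := Finset.card_le_univ Z
    omega
  by_cases hmiss : 4 * ((powersetCard s Zᶜ) \ G).card ≤ (Zᶜ).card.choose s
  · exact case_one hs hG (by omega) hrank hint x hx hmiss (num_case1 hs hn (by omega))
  push Not at hmiss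
  -- the three ranks
  set O := G.filter (fun S => S.card = s + 1) with hO
  set E := G.filter (fun S => S.card = s) with hE
  set L := G.filter (fun S => S.card < s) with hL
  have hcard : G.card = L.card + E.card + O.card := by
    have h1 := Finset.card_filter_add_card_filter_not (s := G) (fun A => A.card < s)
    have h2 := Finset.card_filter_add_card_filter_not
      (s := G.filter (fun A => ¬ A.card < s)) (fun A => A.card = s)
    rw [Finset.filter_filter, Finset.filter_filter] at h2
    have h3 : G.filter (fun A => ¬ A.card < s ∧ A.card = s) = E := by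
      rw [hE]
      refine Finset.filter_congr fun A _ => ?_
      omega
    have h4 : G.filter (fun A => ¬ A.card < s ∧ ¬ A.card = s) = O := by
      rw [hO]
      refine Finset.filter_congr fun A hA => ?_
      have := hrank A hA
      omega
    rw [h3, h4] at h2
    rw [← hL] at h1
    omega
  have hLb : L.card ≤ ∑ i ∈ range s, (Fintype.card α).choose i := by
    have h1 : L ⊆ (range s).biUnion (fun i => powersetCard i (univ : Finset α)) := by
      intro A hA
      have := (Finset.mem_filter.mp hA).2
      exact Finset.mem_biUnion.mpr ⟨A.card, Finset.mem_range.mpr this,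
        Finset.mem_powersetCard.mpr ⟨Finset.subset_univ _, rfl⟩⟩
    refine (Finset.card_le_card h1).trans (Finset.card_biUnion_le.trans ?_)
    refine Finset.sum_le_sum fun i _ => ?_
    rw [Finset.card_powersetCard, Finset.card_univ]
  have hOb : O.card ≤ 2 * (s + 1) * (Fintype.card α - 2).choose (s - 1) := by
    refine nonstar_bound hs (by omega) (fun A hA => (Finset.mem_filter.mp hA).2)
      (fun A hA B hB => hint A (Finset.mem_filter.mp hA).1 B (Finset.mem_filter.mp hB).1
        (Finset.mem_filter.mp hA).2 (Finset.mem_filter.mp hB).2) ?_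
    intro z
    obtain ⟨S, hS, hS1, hS2⟩ := hstar z
    exact ⟨S, Finset.mem_filter.mpr ⟨hS, hS1⟩, hS2⟩
  have hEb : E.card + ((powersetCard s Zᶜ) \ G).card ≤ (Fintype.card α).choose s := by
    have hdisj : Disjoint E ((powersetCard s Zᶜ) \ G) := by
      rw [Finset.disjoint_left]
      intro T hT hT2
      exact (Finset.mem_sdiff.mp hT2).2 (Finset.mem_filter.mp hT).1
    rw [← Finset.card_union_of_disjoint hdisj, ← Finset.card_univ, ← Finset.card_powersetCard]
    refine Finset.card_le_card ?_
    intro T hT
    rw [Finset.mem_powersetCard]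
    refine ⟨Finset.subset_univ _, ?_⟩
    rcases Finset.mem_union.mp hT with h | h
    · exact (Finset.mem_filter.mp h).2
    · exact (Finset.mem_powersetCard.mp (Finset.mem_sdiff.mp h).1).2
  have hnum := num_case3 (s := s) (n := Fintype.card α) (m := (Zᶜ).card) hs hn (by omega)
  omega

end Pool.Agent.OddDiam
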