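import Mathlib

/-! # MP_f155e9_co, odd diameter: Katona's shadow theorem for intersecting families -/

set_option autoImplicit false

namespace Pool.Agent.OddDiam

open Finset

variable {α : Type*} [Fintype α] [DecidableEq α]

/-- Sum of `g` over the members of `𝒜` containing `U`. -/
private def ksum (𝒜 : Finset (Finset α)) (g : Finset α → ℚ) (U : Finset α) : ℚ :=
  ∑ A ∈ 𝒜 with U ⊆ A, g A

omit [Fintype α] in
private theorem ksum_down {t : ℕ} {𝒜 : Finset (Finset α)} (hA : ∀ A ∈ 𝒜, A.card = t + 1)
    {g : Finset α → ℚ} (h0 : ∀ T : Finset α, T.card = t → ksum 𝒜 g T = 0) (S : Finset α)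
    (hS : ∀ A ∈ 𝒜, A ⊆ S) (U : Finset α) (hU : U.card ≤ t) : ksum 𝒜 g U = 0 := by
  have h1 : ∑ T ∈ S.powersetCard t with U ⊆ T, ksum 𝒜 g T = 0 :=
    sum_eq_zero fun T hT => h0 T (mem_powersetCard.1 (mem_filter.1 hT).1).2
  have h2 : ∑ T ∈ S.powersetCard t with U ⊆ T, ksum 𝒜 g T
      = ((t + 1 - U.card : ℕ) : ℚ) * ksum 𝒜 g U := by
    unfold ksum
    rw [mul_sum]
    rw [sum_comm' (t' := 𝒜.filter (U ⊆ ·))
      (s' := fun A => (A.powersetCard t).filter (U ⊆ ·))]
    · refine sum_congr rfl fun A hAm => ?_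
      obtain ⟨hAm, hUA⟩ := mem_filter.1 hAm
      rw [sum_const, nsmul_eq_mul]
      congr 2
      -- count the sets between U and A of size t
      have hc := hA A hAm
      have : (A.powersetCard t).filter (U ⊆ ·) = (A \ U).image (fun x => A.erase x) := by
        ext T
        simp only [mem_filter, mem_powersetCard, mem_image, mem_sdiff]
        constructor
        · rintro ⟨⟨hTA, hTc⟩, hUT⟩
          have hcard : (A \ T).card = 1 := by
            rw [card_sdiff_of_subset hTA]; omega
          obtain ⟨x, hx⟩ := card_eq_one.1 hcard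
          have hxm : x ∈ A \ T := by rw [hx]; exact mem_singleton_self x
          refine ⟨x, ⟨(mem_sdiff.1 hxm).1, fun hxU => (mem_sdiff.1 hxm).2 (hUT hxU)⟩, ?_⟩
          ext y
          rw [mem_erase]
          constructor
          · rintro ⟨hyx, hyA⟩
            by_contra hyT
            have : y ∈ A \ T := mem_sdiff.2 ⟨hyA, hyT⟩
            rw [hx, mem_singleton] at this
            exact hyx this
          · intro hyT
            refine ⟨fun h => ?_, hTA hyT⟩
            rw [h] at hyT
            exact (mem_sdiff.1 hxm).2 hyT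
        · rintro ⟨x, ⟨hxA, hxU⟩, rfl⟩
          refine ⟨⟨erase_subset _ _, by rw [card_erase_of_mem hxA]; omega⟩, ?_⟩
          exact subset_erase.2 ⟨hUA, hxU⟩
      rw [this, card_image_of_injOn, card_sdiff_of_subset hUA, hc]
      intro x hx y hy hxy
      have hx' := (mem_sdiff.1 (mem_coe.1 hx)).1
      by_contra hne
      have : x ∈ A.erase y := mem_erase.2 ⟨hne, hx'⟩
      simp only at hxy
      rw [← hxy] at this
      exact (notMem_erase x A) this
    · intro T A
      simp only [mem_filter, mem_powersetCard]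
      constructor
      · rintro ⟨⟨⟨hTS, hTc⟩, hUT⟩, hAm, hTA⟩
        exact ⟨⟨⟨hTA, hTc⟩, hUT⟩, hAm, hUT.trans hTA⟩
      · rintro ⟨⟨⟨hTA, hTc⟩, hUT⟩, hAm, _⟩
        exact ⟨⟨⟨hTA.trans (hS A hAm), hTc⟩, hUT⟩, hAm, hTA⟩
  rw [h2] at h1
  rcases mul_eq_zero.1 h1 with h | h
  · have : (t + 1 - U.card : ℕ) ≠ 0 := by omega
    exact absurd (by exact_mod_cast h) this
  · exact h

theorem katona {t : ℕ} {𝒜 : Finset (Finset α)} (hA : ∀ A ∈ 𝒜, A.card = t + 1)
    (hint : ∀ A ∈ 𝒜, ∀ B ∈ 𝒜, (A ∩ B).Nonempty) : 𝒜.card ≤ (Finset.shadow 𝒜).card := by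
  classical
  have li : LinearIndependent ℚ
      (fun A : 𝒜 => (fun T : Finset.shadow 𝒜 => if (T : Finset α) ⊆ A then (1 : ℚ) else 0)) := by
    rw [Fintype.linearIndependent_iff]
    intro g hg
    set G : Finset α → ℚ := fun A => if h : A ∈ 𝒜 then g ⟨A, h⟩ else 0 with hG
    have hGA : ∀ A : 𝒜, G A = g A := fun A => by simp [hG]
    have h0 : ∀ T : Finset α, T.card = t → ksum 𝒜 G T = 0 := by
      intro T hT
      by_cases hTs : T ∈ Finset.shadow 𝒜
      · have := congrFun hg ⟨T, hTs⟩
        simp only [Finset.sum_apply, Pi.smul_apply, smul_eq_mul, Pi.zero_apply, mul_ite, mul_one,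
          mul_zero] at this
        unfold ksum
        rw [sum_filter]
        rw [← Finset.sum_coe_sort 𝒜 (fun A => if T ⊆ A then G A else 0)]
        refine Eq.trans (sum_congr rfl fun A _ => ?_) this
        rw [hGA]
      · unfold ksum
        apply sum_eq_zero
        intro A hAm
        obtain ⟨hAm, hTA⟩ := mem_filter.1 hAm
        exfalso
        apply hTs
        rw [Finset.mem_shadow_iff_exists_mem_card_add_one]
        exact ⟨A, hAm, hTA, by rw [hA A hAm, hT]⟩
    have hz : ∀ U : Finset α, U.card ≤ t → ksum 𝒜 G U = 0 :=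
      fun U hU => ksum_down hA h0 univ (fun A _ => subset_univ A) U hU
    intro B
    rw [← hGA]
    have key : G B = ∑ A ∈ 𝒜, G A * ∑ T ∈ ((A : Finset α) \ B).powerset, (-1 : ℚ) ^ T.card := by
      rw [sum_eq_single (B : Finset α)]
      · simp
      · intro A hAm hne
        have hne' : (A \ (B : Finset α)) ≠ ∅ := by
          intro h
          rw [sdiff_eq_empty_iff_subset] at h
          exact hne (eq_of_subset_of_card_le h (by rw [hA A hAm, hA B B.2]))
        have := Finset.sum_powerset_neg_one_pow_card (x := A \ (B : Finset α))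
        rw [if_neg hne'] at this
        have h2 : (∑ T ∈ (A \ (B : Finset α)).powerset, (-1 : ℚ) ^ T.card) = 0 := by
          exact_mod_cast this
        rw [h2, mul_zero]
      · intro h
        exact absurd B.2 h
    rw [key]
    have swap : ∑ A ∈ 𝒜, G A * ∑ T ∈ ((A : Finset α) \ B).powerset, (-1 : ℚ) ^ T.card
        = ∑ T ∈ (univ \ (B : Finset α)).powerset with T.card ≤ t, (-1 : ℚ) ^ T.card * ksum 𝒜 G T := by
      unfold ksum
      simp_rw [mul_sum, mul_comm (G _)]
      refine sum_comm' fun A T => ?_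
      simp only [mem_filter, mem_powerset]
      constructor
      · rintro ⟨hAm, hT⟩
        have hTA : T ⊆ A := hT.trans sdiff_subset
        refine ⟨⟨hAm, hTA⟩, hT.trans (sdiff_subset_sdiff (subset_univ _) subset_rfl), ?_⟩
        have h1 := card_le_card hT
        have h2 := card_sdiff_add_card_inter A (B : Finset α)
        have h3 := (hint A hAm B B.2).card_pos
        have h4 := hA A hAm
        omega
      · rintro ⟨⟨hAm, hTA⟩, hTB, _⟩
        refine ⟨hAm, fun x hx => mem_sdiff.2 ⟨hTA hx, (mem_sdiff.1 (hTB hx)).2⟩⟩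
    rw [swap]
    apply sum_eq_zero
    intro T hT
    rw [hz T (mem_filter.1 hT).2, mul_zero]
  have := li.fintype_card_le_finrank
  simpa using this

end Pool.Agent.OddDiam
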