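import Pool.Agent.OddDiam.Traces
import Pool.Agent.OddDiam.Katona

/-! # MP_f155e9_co, odd diameter: the central case -/

set_option autoImplicit false

namespace Pool.Agent.OddDiam

open Finset

variable {α : Type*} [Fintype α] [DecidableEq α]

/-- the sets obtained by removing an element of `W` -/
private def slots (W : Finset α) (𝒮 : Finset (Finset α)) : Finset (Finset α) :=
  𝒮.biUnion fun S => (S ∩ W).image fun y => S.erase y

private theorem mem_slots {W : Finset α} {𝒮 : Finset (Finset α)} {U : Finset α} :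
    U ∈ slots W 𝒮 ↔ ∃ S ∈ 𝒮, ∃ y ∈ S, y ∈ W ∧ S.erase y = U := by
  unfold slots
  simp only [mem_biUnion, mem_image, mem_inter]
  constructor
  · rintro ⟨S, hS, y, ⟨h1, h2⟩, h3⟩
    exact ⟨S, hS, y, h1, h2, h3⟩
  · rintro ⟨S, hS, y, h1, h2, h3⟩
    exact ⟨S, hS, y, ⟨h1, h2⟩, h3⟩

private theorem slots_le {c : ℕ} {W : Finset α} {𝒮 : Finset (Finset α)}
    (hc : ∀ S ∈ 𝒮, S.card = c)
    (h : ∀ S ∈ 𝒮, ∀ T ∈ 𝒮, S \ W = T \ W → ((S ∩ W) ∩ (T ∩ W)).Nonempty) :
    𝒮.card ≤ (slots W 𝒮).card := by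
  rw [card_eq_sum_card_fiberwise (f := fun S => S \ W) (t := univ) (fun _ _ => mem_univ _),
    card_eq_sum_card_fiberwise (s := slots W 𝒮) (f := fun S => S \ W) (t := univ)
      (fun _ _ => mem_univ _)]
  refine sum_le_sum fun K _ => ?_
  set A := (𝒮.filter (fun S => S \ W = K)).image (fun S => S ∩ W) with hA
  have hAcard : A.card = (𝒮.filter (fun S => S \ W = K)).card := by
    rw [hA]
    apply card_image_of_injOn
    intro S hS T hT hST
    have hS' := (mem_filter.1 (mem_coe.1 hS)).2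
    have hT' := (mem_filter.1 (mem_coe.1 hT)).2
    have hST' : S ∩ W = T ∩ W := hST
    rw [← sdiff_union_inter S W, ← sdiff_union_inter T W, hS', hT', hST']
  have hmem : ∀ B ∈ A, ∃ S ∈ 𝒮, S \ W = K ∧ S ∩ W = B := by
    intro B hB
    obtain ⟨S, hS, rfl⟩ := mem_image.1 hB
    exact ⟨S, (mem_filter.1 hS).1, (mem_filter.1 hS).2, rfl⟩
  have hint : ∀ B ∈ A, ∀ B' ∈ A, (B ∩ B').Nonempty := by
    intro B hB B' hB'
    obtain ⟨S, hS, h1, rfl⟩ := hmem B hB
    obtain ⟨T, hT, h2, rfl⟩ := hmem B' hB'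
    exact h S hS T hT (h1.trans h2.symm)
  have hsize : ∀ B ∈ A, B.card = (c - K.card - 1) + 1 := by
    intro B hB
    obtain ⟨x, hx⟩ := hint B hB B hB
    have hpos : 0 < B.card := card_pos.2 ⟨x, (mem_inter.1 hx).1⟩
    obtain ⟨S, hS, h1, rfl⟩ := hmem B hB
    have h2 := card_sdiff_add_card_inter S W
    rw [h1, hc S hS] at h2
    omega
  have hk := katona hsize hint
  rw [← hAcard]
  refine hk.trans ?_
  apply card_le_card_of_injOn (fun B => K ∪ B)
  · intro B hB
    obtain ⟨B', hB', a, ha, rfl⟩ := mem_shadow_iff.1 (mem_coe.1 hB)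
    obtain ⟨S, hS, h1, rfl⟩ := hmem B' hB'
    have ha' := mem_inter.1 ha
    have e : K ∪ (S ∩ W).erase a = S.erase a := by
      rw [← h1]
      ext z
      simp only [mem_union, mem_sdiff, mem_erase, mem_inter]
      constructor
      · rintro (⟨h2, h3⟩ | ⟨h2, h3, _⟩)
        · exact ⟨fun h4 => h3 (h4 ▸ ha'.2), h2⟩
        · exact ⟨h2, h3⟩
      · rintro ⟨h2, h3⟩
        by_cases h4 : z ∈ W
        · exact Or.inr ⟨h2, h3, h4⟩
        · exact Or.inl ⟨h3, h4⟩
    rw [mem_coe, mem_filter]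
    refine ⟨?_, ?_⟩
    · change K ∪ (S ∩ W).erase a ∈ _
      rw [e]
      exact mem_slots.2 ⟨S, hS, a, ha'.1, ha'.2, rfl⟩
    · change (K ∪ (S ∩ W).erase a) \ W = K
      rw [e, ← h1]
      ext z
      simp only [mem_sdiff, mem_erase]
      constructor
      · rintro ⟨⟨_, h2⟩, h3⟩
        exact ⟨h2, h3⟩
      · rintro ⟨h2, h3⟩
        exact ⟨⟨fun h4 => h3 (h4 ▸ ha'.2), h2⟩, h3⟩
  · have hsub : ∀ B ∈ (shadow A : Finset (Finset α)), B ⊆ W ∧ Disjoint K B := by
      intro B hB
      obtain ⟨B', hB', a, ha, rfl⟩ := mem_shadow_iff.1 hB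
      obtain ⟨S, hS, h1, rfl⟩ := hmem B' hB'
      refine ⟨(erase_subset _ _).trans inter_subset_right, ?_⟩
      rw [← h1, disjoint_left]
      intro z hz hz'
      exact (mem_sdiff.1 hz).2 (mem_inter.1 (mem_of_mem_erase hz')).2
    intro B hB B' hB' he
    have he' : K ∪ B = K ∪ B' := he
    have h1 := hsub B (mem_coe.1 hB)
    have h2 := hsub B' (mem_coe.1 hB')
    have h3 : (K ∪ B) \ K = B := by
      rw [union_sdiff_cancel_left h1.2]
    have h4 : (K ∪ B') \ K = B' := by
      rw [union_sdiff_cancel_left h2.2]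
    rw [← h3, he', h4]

theorem case_one {s : ℕ} (hs1 : 1 ≤ s) {Z : Finset α} {G : Finset (Finset α)} (hG : TwAnti Z G)
    (hs : s ≤ (Zᶜ).card) (hrank : ∀ S ∈ G, S.card ≤ s + 1)
    (hint : ∀ S ∈ G, ∀ T ∈ G, S.card = s + 1 → T.card = s + 1 → (S ∩ T).Nonempty)
    (x : α) (hx : x ∈ Z)
    (hmiss : 4 * ((powersetCard s Zᶜ) \ G).card ≤ (Zᶜ).card.choose s)
    (hnum : ∑ i ∈ range s, (Fintype.card α).choose i ≤ 3 * (Zᶜ).card.choose (s - 1)) :
    G.card ≤ (Fintype.card α).choose s := by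
  classical
  set O := G.filter (fun S => S.card = s + 1) with hO
  set E := G.filter (fun S => S.card = s) with hE
  set Lw := G.filter (fun S => S.card < s) with hLw
  have hsplit : G.card ≤ E.card + O.card + Lw.card := by
    have h1 : G ⊆ E ∪ O ∪ Lw := by
      intro S hS
      have := hrank S hS
      simp only [hE, hO, hLw, mem_union, mem_filter]
      by_cases h2 : S.card = s
      · exact Or.inl (Or.inl ⟨hS, h2⟩)
      · by_cases h3 : S.card = s + 1
        · exact Or.inl (Or.inr ⟨hS, h3⟩)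
        · exact Or.inr ⟨hS, by omega⟩
    refine (card_le_card h1).trans ((card_union_le _ _).trans ?_)
    exact Nat.add_le_add_right (card_union_le _ _) _
  -- bad and good
  let IsBad : Finset α → Prop := fun S =>
    S ∩ Z ≠ {x} ∧ ∃ S' ∈ O, S' \ Z = S \ Z ∧ (S ∩ Z) ∩ (S' ∩ Z) = ∅
  set Bd := O.filter IsBad with hBd
  set Gd := O.filter (fun S => ¬ IsBad S) with hGd
  have hOc : O.card = Bd.card + Gd.card := (card_filter_add_card_filter_not _).symm
  have hOmem : ∀ S ∈ O, S ∈ G ∧ S.card = s + 1 := fun S hS => mem_filter.1 hS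
  have hBO : ∀ S ∈ Bd, S ∈ O ∧ IsBad S := fun S hS => mem_filter.1 hS
  have hGO : ∀ S ∈ Gd, S ∈ O ∧ ¬ IsBad S := fun S hS => mem_filter.1 hS
  have hY : Bd.card ≤ (slots Zᶜ Bd).card := by
    refine slots_le (c := s + 1) (fun S hS => (hOmem S (hBO S hS).1).2) fun S hS T hT hST => ?_
    obtain ⟨hSO, -, S', hS'O, hS'1, hS'2⟩ := hBO S hS
    have hTO := (hBO T hT).1
    obtain ⟨z, hz⟩ := hint S' (hOmem S' hS'O).1 T (hOmem T hTO).1 (hOmem S' hS'O).2
      (hOmem T hTO).2
    obtain ⟨hz1, hz2⟩ := mem_inter.1 hz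
    have hST' : S ∩ Z = T ∩ Z := by
      have : S \ Zᶜ = T \ Zᶜ := hST
      rwa [sdiff_compl, sdiff_compl] at this
    have hzZ : z ∉ Z := by
      intro hzZ
      have h1 : z ∈ (S ∩ Z) ∩ (S' ∩ Z) := by
        rw [hST']
        exact mem_inter.2 ⟨mem_inter.2 ⟨hz2, hzZ⟩, mem_inter.2 ⟨hz1, hzZ⟩⟩
      rw [hS'2] at h1
      exact notMem_empty z h1
    have hzS : z ∈ S := by
      have h1 : z ∈ S' \ Z := mem_sdiff.2 ⟨hz1, hzZ⟩
      rw [hS'1] at h1
      exact (mem_sdiff.1 h1).1
    exact ⟨z, mem_inter.2 ⟨mem_inter.2 ⟨hzS, mem_compl.2 hzZ⟩,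
      mem_inter.2 ⟨hz2, mem_compl.2 hzZ⟩⟩⟩
  have hZ : Gd.card ≤ (slots Z Gd).card := by
    refine slots_le (c := s + 1) (fun S hS => (hOmem S (hGO S hS).1).2) fun S hS T hT hST => ?_
    obtain ⟨hSO, hSb⟩ := hGO S hS
    obtain ⟨hTO, hTb⟩ := hGO T hT
    by_contra hne
    rw [not_nonempty_iff_eq_empty] at hne
    have h1 : S ∩ Z = {x} := by
      by_contra h1
      exact hSb ⟨h1, T, hTO, hST.symm, hne⟩
    have h2 : T ∩ Z = {x} := by
      by_contra h2
      exact hTb ⟨h2, S, hSO, hST, by rw [inter_comm]; exact hne⟩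
    rw [h1, h2, inter_self] at hne
    exact singleton_ne_empty x hne
  -- disjointness
  have hdEY : Disjoint E (slots Zᶜ Bd) := by
    rw [disjoint_left]
    intro U hU hU'
    obtain ⟨S, hS, y, hy, hyZ, rfl⟩ := mem_slots.1 hU'
    have hSG := (hOmem S (hBO S hS).1)
    have hUG := mem_filter.1 hU
    have h1 := hG _ hUG.1 S hSG.1 (fun z hz => by
      have hz' := mem_inter.1 hz
      refine mem_erase.2 ⟨fun h => ?_, hz'.1⟩
      rw [h] at hz'
      exact (mem_compl.1 hyZ) hz'.2) (fun z hz => mem_of_mem_erase (mem_sdiff.1 hz).1)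
    have h2 : y ∈ S.erase y := by rw [h1]; exact hy
    exact notMem_erase y S h2
  have hdEZ : Disjoint E (slots Z Gd) := by
    rw [disjoint_left]
    intro U hU hU'
    obtain ⟨S, hS, y, hy, hyZ, rfl⟩ := mem_slots.1 hU'
    have hSG := (hOmem S (hGO S hS).1)
    have hUG := mem_filter.1 hU
    have h1 := hG S hSG.1 _ hUG.1 (fun z hz => mem_of_mem_erase (mem_inter.1 hz).1) (fun z hz => by
      have hz' := mem_sdiff.1 hz
      refine mem_erase.2 ⟨fun h => ?_, hz'.1⟩
      rw [h] at hz'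
      exact hz'.2 hyZ)
    have h2 : y ∈ S.erase y := by rw [← h1]; exact hy
    exact notMem_erase y S h2
  have hdYZ : Disjoint (slots Zᶜ Bd) (slots Z Gd) := by
    rw [disjoint_left]
    intro U hU hU'
    obtain ⟨S, hS, y, hy, hyZ, hSU⟩ := mem_slots.1 hU
    obtain ⟨T, hT, w, hw, hwZ, hTU⟩ := mem_slots.1 hU'
    have hSG := (hOmem S (hBO S hS).1)
    have hTG := (hOmem T (hGO T hT).1)
    have h1 := hG T hTG.1 S hSG.1 (fun z hz => by
      have hz' := mem_inter.1 hz
      have h2 : z ∈ U := by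
        rw [← hSU]
        refine mem_erase.2 ⟨fun h => ?_, hz'.1⟩
        rw [h] at hz'
        exact (mem_compl.1 hyZ) hz'.2
      rw [← hTU] at h2
      exact mem_of_mem_erase h2) (fun z hz => by
      have hz' := mem_sdiff.1 hz
      have h2 : z ∈ U := by
        rw [← hTU]
        refine mem_erase.2 ⟨fun h => ?_, hz'.1⟩
        rw [h] at hz'
        exact hz'.2 hwZ
      rw [← hSU] at h2
      exact mem_of_mem_erase h2)
    have h3 : w ∈ U := by
      rw [← hSU]
      refine mem_erase.2 ⟨fun h => ?_, by rw [← h1]; exact hw⟩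
      rw [h] at hwZ
      exact (mem_compl.1 hyZ) hwZ
    rw [← hTU] at h3
    exact notMem_erase w T h3
  -- free slots
  set X := (powersetCard (s - 1) Zᶜ).image (fun R => insert x R) with hX
  have hXc : X.card = (Zᶜ).card.choose (s - 1) := by
    rw [hX, card_image_of_injOn, card_powersetCard]
    intro R hR R' hR' he
    have hR1 := mem_powersetCard.1 (mem_coe.1 hR)
    have hR2 := mem_powersetCard.1 (mem_coe.1 hR')
    have hx1 : x ∉ R := fun h => (mem_compl.1 (hR1.1 h)) hx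
    have hx2 : x ∉ R' := fun h => (mem_compl.1 (hR2.1 h)) hx
    have he' : insert x R = insert x R' := he
    rw [← erase_insert hx1, he', erase_insert hx2]
  have hXs : ∀ U ∈ X, U.card = s ∧ ∃ R ⊆ Zᶜ, R.card = s - 1 ∧ U = insert x R := by
    intro U hU
    obtain ⟨R, hR, rfl⟩ := mem_image.1 hU
    have hR1 := mem_powersetCard.1 hR
    have hx1 : x ∉ R := fun h => (mem_compl.1 (hR1.1 h)) hx
    refine ⟨?_, R, hR1.1, hR1.2, rfl⟩
    rw [card_insert_of_notMem hx1, hR1.2]
    omega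
  set V := E ∪ slots Zᶜ Bd ∪ slots Z Gd with hV
  have hVc : V.card = E.card + (slots Zᶜ Bd).card + (slots Z Gd).card := by
    rw [hV, card_union_of_disjoint (disjoint_union_left.2 ⟨hdEZ, hdYZ⟩),
      card_union_of_disjoint hdEY]
  have hVs : ∀ U ∈ V, U.card = s := by
    intro U hU
    rcases mem_union.1 hU with hU | hU
    · rcases mem_union.1 hU with hU | hU
      · exact (mem_filter.1 hU).2
      · obtain ⟨S, hS, y, hy, _, rfl⟩ := mem_slots.1 hU
        rw [card_erase_of_mem hy, (hOmem S (hBO S hS).1).2]; rfl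
    · obtain ⟨S, hS, y, hy, _, rfl⟩ := mem_slots.1 hU
      rw [card_erase_of_mem hy, (hOmem S (hGO S hS).1).2]; rfl
  have hXV : 4 * (X ∩ V).card ≤ (Zᶜ).card.choose (s - 1) := by
    refine le_trans (Nat.mul_le_mul_left 4 ?_) (few_traces (r := s - 1) (by omega) hG hs hmiss)
    apply card_le_card_of_injOn (fun U => U \ Z)
    · intro U hU
      obtain ⟨hUX, hUV⟩ := mem_inter.1 (mem_coe.1 hU)
      obtain ⟨_, R, hRZ, hRc, hUR⟩ := hXs U hUX
      have hUZ : U \ Z = R := by
        rw [hUR]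
        ext z
        simp only [mem_sdiff, mem_insert]
        constructor
        · rintro ⟨h1 | h1, h2⟩
          · rw [h1] at h2; exact absurd hx h2
          · exact h1
        · intro h1
          exact ⟨Or.inr h1, mem_compl.1 (hRZ h1)⟩
      have hUI : U ∩ Z = {x} := by
        rw [hUR]
        ext z
        simp only [mem_inter, mem_insert, mem_singleton]
        constructor
        · rintro ⟨h1 | h1, h2⟩
          · exact h1
          · exact absurd h2 (mem_compl.1 (hRZ h1))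
        · intro h1
          rw [h1]
          exact ⟨Or.inl rfl, hx⟩
      rw [mem_coe, mem_image]
      rcases mem_union.1 hUV with hUV | hUV
      · rcases mem_union.1 hUV with hUV | hUV
        · refine ⟨U, mem_filter.2 ⟨(mem_filter.1 hUV).1, ?_⟩, rfl⟩
          rw [hUZ, hRc]
        · exfalso
          obtain ⟨S, hS, y, hy, hyZ, hSU⟩ := mem_slots.1 hUV
          apply (hBO S hS).2.1
          rw [← hUI, ← hSU]
          ext z
          simp only [mem_inter, mem_erase]
          constructor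
          · rintro ⟨h1, h2⟩
            exact ⟨⟨fun h => (mem_compl.1 hyZ) (h ▸ h2), h1⟩, h2⟩
          · rintro ⟨⟨_, h1⟩, h2⟩
            exact ⟨h1, h2⟩
      · obtain ⟨S, hS, y, hy, hyZ, hSU⟩ := mem_slots.1 hUV
        have hSZ : S \ Z = U \ Z := by
          rw [← hSU]
          ext z
          simp only [mem_sdiff, mem_erase]
          constructor
          · rintro ⟨h1, h2⟩
            exact ⟨⟨fun h => h2 (h ▸ hyZ), h1⟩, h2⟩
          · rintro ⟨⟨_, h1⟩, h2⟩
            exact ⟨h1, h2⟩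
        refine ⟨S, mem_filter.2 ⟨(hOmem S (hGO S hS).1).1, ?_⟩, hSZ⟩
        rw [hSZ, hUZ, hRc]
    · intro U hU U' hU' he
      have he' : U \ Z = U' \ Z := he
      obtain ⟨hUX, _⟩ := mem_inter.1 (mem_coe.1 hU)
      obtain ⟨hUX', _⟩ := mem_inter.1 (mem_coe.1 hU')
      obtain ⟨_, R, hRZ, hRc, hUR⟩ := hXs U hUX
      obtain ⟨_, R', hRZ', hRc', hUR'⟩ := hXs U' hUX'
      have key : ∀ R : Finset α, R ⊆ Zᶜ → (insert x R) \ Z = R := by
        intro R hRZ
        ext z
        simp only [mem_sdiff, mem_insert]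
        constructor
        · rintro ⟨h1 | h1, h2⟩
          · rw [h1] at h2; exact absurd hx h2
          · exact h1
        · intro h1
          exact ⟨Or.inr h1, mem_compl.1 (hRZ h1)⟩
      rw [hUR, hUR', key R hRZ, key R' hRZ'] at he'
      rw [hUR, hUR', he']
  have htot : V.card + (X \ V).card ≤ (Fintype.card α).choose s := by
    rw [← card_union_of_disjoint disjoint_sdiff, ← card_univ, ← card_powersetCard]
    apply card_le_card
    intro U hU
    rw [mem_powersetCard]
    refine ⟨subset_univ _, ?_⟩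
    rcases mem_union.1 hU with hU | hU
    · exact hVs U hU
    · exact (hXs U (mem_sdiff.1 hU).1).1
  have hXsplit : (X \ V).card + (X ∩ V).card = X.card := card_sdiff_add_card_inter X V
  have hlow := low_bound hG hs hmiss
  rw [← hLw] at hlow
  omega

end Pool.Agent.OddDiam
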