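import Pool.Agent.OddDiam.General

/-! # MP_f155e9_co, odd diameter: the centre -/

set_option autoImplicit false

namespace Pool.Agent.OddDiam

open Finset

variable {α : Type*} [Fintype α] [DecidableEq α]

/-- `s`-sets meeting a given set `C` -/
private theorem centre_meet (s : ℕ) (hs : 1 ≤ s) (C : Finset α) :
    ((powersetCard s (univ : Finset α)).filter (fun T => ¬ Disjoint T C)).card
      ≤ C.card * (Fintype.card α - 1).choose (s - 1) := by
  have h1 : (powersetCard s (univ : Finset α)).filter (fun T => ¬ Disjoint T C)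
      ⊆ C.biUnion (fun x => (powersetCard (s - 1) ((univ : Finset α).erase x)).image
          (fun T => insert x T)) := by
    intro T hT
    rw [mem_filter, mem_powersetCard] at hT
    obtain ⟨⟨_, hTc⟩, hd⟩ := hT
    rw [not_disjoint_iff] at hd
    obtain ⟨x, hxT, hxC⟩ := hd
    rw [mem_biUnion]
    refine ⟨x, hxC, ?_⟩
    rw [mem_image]
    refine ⟨T.erase x, ?_, insert_erase hxT⟩
    rw [mem_powersetCard]
    refine ⟨erase_subset_erase _ (subset_univ _), ?_⟩
    rw [card_erase_of_mem hxT, hTc]
  refine (card_le_card h1).trans ?_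
  refine card_biUnion_le_card_mul _ _ _ ?_
  intro x _
  refine card_image_le.trans ?_
  rw [card_powersetCard, card_erase_of_mem (mem_univ x), card_univ]

private theorem centre_choose (n s : ℕ) (hs : 1 ≤ s) (hn : 1 ≤ n) :
    n * (n - 1).choose (s - 1) = s * n.choose s := by
  obtain ⟨m, rfl⟩ : ∃ m, n = m + 1 := ⟨n - 1, by omega⟩
  obtain ⟨r, rfl⟩ : ∃ r, s = r + 1 := ⟨s - 1, by omega⟩
  have := Nat.add_one_mul_choose_eq m r
  simp only [Nat.add_sub_cancel]
  linarith

/-- triple counting -/
private theorem centre_triple {X : Type*} (t : Finset X) (f : X → X → ℕ)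
    (h : ∀ a ∈ t, ∀ b ∈ t, ∀ c ∈ t, 1 ≤ f a b + f a c + f b c) :
    t.card * t.card ≤ 3 * ∑ a ∈ t, ∑ b ∈ t, f a b := by
  rcases t.eq_empty_or_nonempty with rfl | hne
  · simp
  have hpos : 0 < t.card := hne.card_pos
  have h1 : ∑ a ∈ t, ∑ b ∈ t, ∑ c ∈ t, (1 : ℕ)
      ≤ ∑ a ∈ t, ∑ b ∈ t, ∑ c ∈ t, (f a b + f a c + f b c) :=
    sum_le_sum fun a ha => sum_le_sum fun b hb => sum_le_sum fun c hc => h a ha b hb c hc
  have h2 : ∑ a ∈ t, ∑ b ∈ t, ∑ c ∈ t, (f a b + f a c + f b c)
      = t.card * (3 * ∑ a ∈ t, ∑ b ∈ t, f a b) := by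
    have e1 : ∑ a ∈ t, ∑ b ∈ t, ∑ c ∈ t, f a b = t.card * ∑ a ∈ t, ∑ b ∈ t, f a b := by
      simp only [sum_const, smul_eq_mul, mul_sum]
    have e2 : ∑ a ∈ t, ∑ b ∈ t, ∑ c ∈ t, f a c = t.card * ∑ a ∈ t, ∑ b ∈ t, f a b := by
      simp only [sum_const, smul_eq_mul, mul_sum]
    have e3 : ∑ a ∈ t, ∑ b ∈ t, ∑ c ∈ t, f b c = t.card * ∑ a ∈ t, ∑ b ∈ t, f a b := by
      simp only [sum_const, smul_eq_mul]
    simp only [sum_add_distrib]
    rw [e1, e2, e3]
    ring
  rw [h2] at h1
  simp only [sum_const, smul_eq_mul, mul_one] at h1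
  exact Nat.le_of_mul_le_mul_left h1 hpos

private theorem centre_dist {T T' A A' : Finset α} (h1 : T ⊆ A) (h2 : T' ⊆ A')
    (h3 : Disjoint T A') (h4 : Disjoint T' A) :
    (symmDiff A A').card = T.card + T'.card + (symmDiff (A \ T) (A' \ T')).card := by
  have e : symmDiff A A' = T ∪ (T' ∪ symmDiff (A \ T) (A' \ T')) := by
    ext x
    have a1 := @h1 x
    have a2 := @h2 x
    have a3 : x ∈ T → x ∉ A' := fun h => disjoint_left.1 h3 h
    have a4 : x ∈ T' → x ∉ A := fun h => disjoint_left.1 h4 h
    simp only [mem_symmDiff, mem_union, mem_sdiff]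
    tauto
  rw [e, card_union_of_disjoint, card_union_of_disjoint]
  · ring
  · rw [disjoint_left]
    intro x hx
    have a2 := @h2 x
    have a4 : x ∈ T' → x ∉ A := fun h => disjoint_left.1 h4 h
    simp only [mem_symmDiff, mem_sdiff]
    tauto
  · rw [disjoint_left]
    intro x hx
    have a1 := @h1 x
    have a2 := @h2 x
    have a3 : x ∈ T → x ∉ A' := fun h => disjoint_left.1 h3 h
    simp only [mem_symmDiff, mem_union, mem_sdiff]
    tauto

private theorem centre_parity (X Y W : Finset α) (h1 : (symmDiff X Y).card ≤ 1)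
    (h2 : (symmDiff X W).card ≤ 1) (h3 : (symmDiff Y W).card ≤ 1) :
    X = Y ∨ X = W ∨ Y = W := by
  by_contra hc
  push Not at hc
  obtain ⟨hXY, hXW, hYW⟩ := hc
  have key : ∀ U V : Finset α, (symmDiff U V).card ≤ 1 → U ≠ V → (U.card + V.card) % 2 = 1 := by
    intro U V h hne
    have hpos : 0 < (symmDiff U V).card := by
      rw [card_pos, nonempty_iff_ne_empty]
      intro h0
      exact hne (symmDiff_eq_bot.1 h0)
    have h1 : (symmDiff U V).card = 1 := le_antisymm h hpos
    have h2 : (symmDiff U V).card = (U \ V).card + (V \ U).card := by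
      rw [symmDiff_def, sup_eq_union, card_union_of_disjoint]
      exact disjoint_sdiff_sdiff
    have h3 := card_sdiff_add_card_inter U V
    have h4 := card_sdiff_add_card_inter V U
    rw [inter_comm V U] at h4
    omega
  have k1 := key X Y h1 hXY
  have k2 := key X W h2 hXW
  have k3 := key Y W h3 hYW
  omega

theorem centre {s : ℕ} (hs : 1 ≤ s) (hn : 40 * s ^ 2 ≤ Fintype.card α)
    {F : Finset (Finset α)} (hdiam : ∀ A ∈ F, ∀ B ∈ F, (symmDiff A B).card ≤ 2 * s + 1)
    (hsize : ∀ A ∈ F, A.card ≤ 3 * s)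
    (hbig : 9 * (Fintype.card α).choose s ≤ 10 * (sh s F).card) :
    ∃ Z : Finset α, Z.card ≤ 2 * s ∧ ∀ B ∈ F, (symmDiff B Z).card ≤ s + 1 := by
  classical
  set n := Fintype.card α with hn_def
  set N := n.choose s with hN
  set c := (n - 1).choose (s - 1) with hc
  have hs2 : s ≤ s ^ 2 := by nlinarith
  have hn1 : 1 ≤ n := by omega
  have hsn : s ≤ n := by omega
  have hNpos : 0 < N := Nat.choose_pos hsn
  have hcN : n * c = s * N := centre_choose n s hs hn1
  -- the counts
  have hcount : ∀ m : ℕ, m ≤ 5 * s → 8 * (m * c) ≤ N := by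
    intro m hm
    have h0 : 40 * s ^ 2 * c ≤ s * N := by
      calc 40 * s ^ 2 * c ≤ n * c := Nat.mul_le_mul_right _ hn
        _ = s * N := hcN
    have h1 : s * (40 * s * c) ≤ s * N := by
      calc s * (40 * s * c) = 40 * s ^ 2 * c := by ring
        _ ≤ s * N := h0
    have h2 : 40 * s * c ≤ N := Nat.le_of_mul_le_mul_left h1 (by omega)
    calc 8 * (m * c) ≤ 8 * (5 * s * c) := by
          refine Nat.mul_le_mul_left _ (Nat.mul_le_mul_right _ hm)
      _ = 40 * s * c := by ring
      _ ≤ N := h2
  have hcount3 : 40 * (3 * s * c) ≤ 3 * N := by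
    have := hcount (5 * s) le_rfl
    nlinarith
  -- choice
  have hex : ∀ T : Finset α, ∃ A : Finset α, T ∈ sh s F → A ∈ F ∧ T ⊆ A := by
    intro T
    by_cases h : T ∈ sh s F
    · obtain ⟨A, hA, hTA⟩ := (mem_filter.1 h).2
      exact ⟨A, fun _ => ⟨hA, hTA⟩⟩
    · exact ⟨∅, fun h' => absurd h' h⟩
  choose A hA using hex
  have hTcard : ∀ T ∈ sh s F, T.card = s := fun T hT =>
    (mem_powersetCard.1 (mem_filter.1 hT).1).2
  set t := sh s F with ht
  set o : Finset α → Finset α := fun T => A T \ T with ho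
  set bad : Finset α → Finset α → Prop := fun T T' => ¬ Disjoint T (A T') with hbad
  set f : Finset α → Finset α → ℕ := fun a b =>
    (if bad a b then 1 else 0) + (if bad b a then 1 else 0) + (if o a = o b then 1 else 0) with hf
  have htriple : ∀ a ∈ t, ∀ b ∈ t, ∀ d ∈ t, 1 ≤ f a b + f a d + f b d := by
    intro a ha b hb d hd
    by_contra hlt
    have h0 : f a b + f a d + f b d = 0 := by omega
    simp only [hf] at h0
    have hz : ∀ x ∈ t, ∀ y ∈ t, (if bad x y then 1 else 0) + (if bad y x then 1 else 0)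
        + (if o x = o y then 1 else 0) = 0 →
        o x ≠ o y ∧ (symmDiff (o x) (o y)).card ≤ 1 := by
      intro x hx y hy h
      have b1 : ¬ bad x y := by
        intro hb'
        rw [if_pos hb'] at h
        omega
      have b2 : ¬ bad y x := by
        intro hb'
        rw [if_pos hb'] at h
        omega
      have b3 : o x ≠ o y := by
        intro hb'
        rw [if_pos hb'] at h
        omega
      refine ⟨b3, ?_⟩
      simp only [hbad, not_not] at b1 b2
      have := centre_dist (hA x hx).2 (hA y hy).2 b1 b2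
      have hd := hdiam _ (hA x hx).1 _ (hA y hy).1
      rw [this, hTcard x hx, hTcard y hy] at hd
      have : (symmDiff (o x) (o y)).card = (symmDiff (A x \ x) (A y \ y)).card := rfl
      omega
    obtain ⟨n1, c1⟩ := hz a ha b hb (by omega)
    obtain ⟨n2, c2⟩ := hz a ha d hd (by omega)
    obtain ⟨n3, c3⟩ := hz b hb d hd (by omega)
    rcases centre_parity _ _ _ c1 c2 c3 with h | h | h
    · exact n1 h
    · exact n2 h
    · exact n3 h
  have hmain := centre_triple t f htriple
  -- the sum of `f`
  have hsum : ∑ a ∈ t, ∑ b ∈ t, f a b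
      = 2 * (∑ b ∈ t, (t.filter (fun a => bad a b)).card)
        + ∑ b ∈ t, (t.filter (fun a => o a = o b)).card := by
    have e1 : ∑ a ∈ t, ∑ b ∈ t, (if bad a b then (1 : ℕ) else 0)
        = ∑ b ∈ t, (t.filter (fun a => bad a b)).card := by
      rw [sum_comm]
      refine sum_congr rfl fun b _ => ?_
      rw [card_filter]
    have e2 : ∑ a ∈ t, ∑ b ∈ t, (if bad b a then (1 : ℕ) else 0)
        = ∑ b ∈ t, (t.filter (fun a => bad a b)).card := by
      refine sum_congr rfl fun b _ => ?_
      rw [card_filter]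
    have e3 : ∑ a ∈ t, ∑ b ∈ t, (if o a = o b then (1 : ℕ) else 0)
        = ∑ b ∈ t, (t.filter (fun a => o a = o b)).card := by
      rw [sum_comm]
      refine sum_congr rfl fun b _ => ?_
      rw [card_filter]
    simp only [hf, sum_add_distrib]
    rw [e1, e2, e3]
    ring
  have hbadle : ∀ b ∈ t, (t.filter (fun a => bad a b)).card ≤ 3 * s * c := by
    intro b hb
    have h1 : (t.filter (fun a => bad a b)).card
        ≤ ((powersetCard s (univ : Finset α)).filter (fun T => ¬ Disjoint T (A b))).card := by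
      refine card_le_card ?_
      intro T hT
      rw [mem_filter] at hT ⊢
      exact ⟨(mem_filter.1 hT.1).1, hT.2⟩
    refine h1.trans ((centre_meet s hs _).trans ?_)
    exact Nat.mul_le_mul_right _ (hsize _ (hA b hb).1)
  have hZ : ∃ T0 ∈ t, N < 8 * (t.filter (fun a => o a = o T0)).card := by
    by_contra hcon
    push Not at hcon
    have h1 : ∑ b ∈ t, (t.filter (fun a => bad a b)).card ≤ t.card * (3 * s * c) := by
      have := sum_le_card_nsmul t (fun b => (t.filter (fun a => bad a b)).card) (3 * s * c) hbadle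
      simpa using this
    have h2 : 8 * ∑ b ∈ t, (t.filter (fun a => o a = o b)).card ≤ t.card * N := by
      rw [mul_sum]
      have := sum_le_card_nsmul t (fun b => 8 * (t.filter (fun a => o a = o b)).card) N hcon
      simpa using this
    rw [hsum] at hmain
    have htpos : 0 < t.card := by omega
    -- `t² ≤ 3 (2 t (3sc) + t N / 8)`
    have h3 : t.card * (8 * t.card) ≤ t.card * (48 * (3 * s * c) + 3 * N) := by nlinarith
    have h4 : 8 * t.card ≤ 48 * (3 * s * c) + 3 * N := Nat.le_of_mul_le_mul_left h3 htpos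
    omega
  obtain ⟨T0, hT0, hbigZ⟩ := hZ
  refine ⟨o T0, ?_, ?_⟩
  · have h1 := (hA T0 hT0)
    have h2 := hsize _ h1.1
    have h3 : (o T0).card = (A T0).card - T0.card := card_sdiff_of_subset h1.2
    rw [h3, hTcard T0 hT0]
    omega
  · intro B hB
    have hZc : (o T0).card ≤ 2 * s := by
      have h1 := (hA T0 hT0)
      have h2 := hsize _ h1.1
      have h3 : (o T0).card = (A T0).card - T0.card := card_sdiff_of_subset h1.2
      rw [h3, hTcard T0 hT0]
      omega
    have hU : (B ∪ o T0).card ≤ 5 * s := by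
      have := card_union_le B (o T0)
      have := hsize B hB
      omega
    have hmeet := centre_meet s hs (B ∪ o T0)
    have h8 := hcount _ hU
    have hlt : ((powersetCard s (univ : Finset α)).filter
        (fun T => ¬ Disjoint T (B ∪ o T0))).card < (t.filter (fun a => o a = o T0)).card := by
      have : 8 * ((powersetCard s (univ : Finset α)).filter
        (fun T => ¬ Disjoint T (B ∪ o T0))).card ≤ N := by
        refine le_trans ?_ h8
        exact Nat.mul_le_mul_left _ hmeet
      omega
    have : ∃ T ∈ t.filter (fun a => o a = o T0), T ∉ (powersetCard s (univ : Finset α)).filter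
        (fun T => ¬ Disjoint T (B ∪ o T0)) := by
      by_contra hcon
      push Not at hcon
      exact absurd (card_le_card hcon) (by omega)
    obtain ⟨T, hT, hTn⟩ := this
    rw [mem_filter] at hT
    obtain ⟨hTt, hoT⟩ := hT
    have hdisj : Disjoint T (B ∪ o T0) := by
      by_contra hnd
      exact hTn (mem_filter.2 ⟨(mem_filter.1 hTt).1, hnd⟩)
    rw [disjoint_union_right] at hdisj
    obtain ⟨hdB, hdZ⟩ := hdisj
    have hAT := hA T hTt
    have hd := hdiam _ hB _ hAT.1
    have e : symmDiff B (A T) = T ∪ symmDiff B (o T0) := by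
      rw [← hoT]
      ext x
      have a1 := @hAT.2 x
      have a3 : x ∈ T → x ∉ B := fun h => disjoint_left.1 hdB h
      simp only [ho, mem_symmDiff, mem_union, mem_sdiff]
      tauto
    have hdis2 : Disjoint T (symmDiff B (o T0)) := by
      rw [disjoint_left]
      intro x hx
      have a3 : x ∈ T → x ∉ B := fun h => disjoint_left.1 hdB h
      have a4 : x ∈ T → x ∉ o T0 := fun h => disjoint_left.1 hdZ h
      simp only [mem_symmDiff]
      tauto
    rw [e, card_union_of_disjoint hdis2, hTcard T hTt] at hd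
    omega

end Pool.Agent.OddDiam
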