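import Pool.Agent.OddDiam.Main

/-! # MP_f155e9_co, odd diameter: final statements in terms of `n` and `k` -/

set_option autoImplicit false

namespace Pool.Agent.OddDiam

open Finset

theorem choose_eq {n k : ℕ} (hkn : k ≤ n) : n.choose ((n + k + 1) / 2) = n.choose ((n - k) / 2) := by
  rw [← Nat.choose_symm (show (n + k + 1) / 2 ≤ n by omega)]
  congr 1
  omega

theorem final_small (n k : ℕ) (hkn : k ≤ n) (hd : 10 * (n - k) ^ 2 ≤ n)
    (F : Finset (Finset (Fin n))) (hanti : IsAntichain (· ⊆ ·) (F : Set (Finset (Fin n))))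
    (hdiam : ∀ A ∈ F, ∀ B ∈ F, (symmDiff A B).card ≤ n - k) :
    F.card ≤ n.choose ((n + k + 1) / 2) := by
  rw [choose_eq hkn]
  rcases Nat.eq_zero_or_pos ((n - k) / 2) with h0 | h0
  · have h1 : n - k ≤ 1 := by omega
    rw [h0, Nat.choose_zero_right]
    refine Finset.card_le_one.mpr fun A hA B hB => ?_
    by_contra hne
    have h2 := symm_card A B
    have h3 := hdiam A hA B hB
    have h4 : 1 ≤ (A \ B).card := by
      rw [Nat.one_le_iff_ne_zero, Ne, Finset.card_eq_zero, Finset.sdiff_eq_empty_iff_subset]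
      exact fun hs => hanti hA hB hne hs
    have h5 : 1 ≤ (B \ A).card := by
      rw [Nat.one_le_iff_ne_zero, Ne, Finset.card_eq_zero, Finset.sdiff_eq_empty_iff_subset]
      exact fun hs => hanti hB hA (Ne.symm hne) hs
    omega
  · have h1 : 2 * ((n - k) / 2) ≤ n - k := by omega
    have h2 : (2 * ((n - k) / 2)) ^ 2 ≤ (n - k) ^ 2 := Nat.pow_le_pow_left h1 2
    have h3 := main (s := (n - k) / 2) h0 (by rw [Fintype.card_fin]; nlinarith) hanti
      (fun A hA B hB => (hdiam A hA B hB).trans (by omega))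
    rwa [Fintype.card_fin] at h3

theorem final_general (n k : ℕ) (hkn : k ≤ n)
    (F : Finset (Finset (Fin n))) (hanti : IsAntichain (· ⊆ ·) (F : Set (Finset (Fin n))))
    (hdiam : ∀ A ∈ F, ∀ B ∈ F, (symmDiff A B).card ≤ n - k) :
    F.card ≤ n.choose ((n + k + 1) / 2) +
      2 * ∑ j ∈ Icc 1 ((n - k) / 4), n.choose ((n - k) / 2 - 2 * j) := by
  rw [choose_eq hkn]
  have h1 := general (s := (n - k) / 2) (by rw [Fintype.card_fin]; omega) hanti
    (fun A hA B hB => (hdiam A hA B hB).trans (by omega))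
  rw [Fintype.card_fin, Nat.div_div_eq_div_mul] at h1
  exact h1

theorem final_middle (n k : ℕ) (_hk : 1 ≤ k) (hkn : k ≤ n) (hn : 21 * ((n - k) / 2) ≤ 4 * n)
    (F : Finset (Finset (Fin n))) (hanti : IsAntichain (· ⊆ ·) (F : Set (Finset (Fin n))))
    (hdiam : ∀ A ∈ F, ∀ B ∈ F, (symmDiff A B).card ≤ n - k)
    (hlo : ∀ A ∈ F, (n - k) / 2 < A.card) (hhi : ∀ A ∈ F, A.card + (n - k) / 2 < n) :
    F.card ≤ n.choose ((n + k + 1) / 2) := by
  rcases Nat.eq_zero_or_pos ((n - k) / 2) with h0 | h0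
  · rw [choose_eq hkn, h0, Nat.choose_zero_right]
    refine Finset.card_le_one.mpr fun A hA B hB => ?_
    by_contra hne
    have h2 := symm_card A B
    have h3 := hdiam A hA B hB
    have h4 : 1 ≤ (A \ B).card := by
      rw [Nat.one_le_iff_ne_zero, Ne, Finset.card_eq_zero, Finset.sdiff_eq_empty_iff_subset]
      exact fun hs => hanti hA hB hne hs
    have h5 : 1 ≤ (B \ A).card := by
      rw [Nat.one_le_iff_ne_zero, Ne, Finset.card_eq_zero, Finset.sdiff_eq_empty_iff_subset]
      exact fun hs => hanti hB hA (Ne.symm hne) hs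
    omega
  · rw [choose_eq hkn]
    have h3 := middle (s := (n - k) / 2) h0 hanti
      (fun A hA B hB => (hdiam A hA B hB).trans (by omega)) (fun A hA => hlo A hA)
      (fun A hA => by rw [Fintype.card_fin]; have := hhi A hA; omega)
      (by rw [Fintype.card_fin]; exact hn)
    rwa [Fintype.card_fin] at h3

end Pool.Agent.OddDiam
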