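import Pool.Agent.OddDiam.Identity
import Pool.Agent.OddDiam.LinAlg

/-! # MP_f155e9_co, odd diameter: large sets against their shadow -/

set_option autoImplicit false

namespace Pool.Agent.OddDiam

open Finset Quaternion

variable {α : Type*} [Fintype α] [DecidableEq α]

/-- the `s`-sets below members of `F` -/
def sh (s : ℕ) (F : Finset (Finset α)) : Finset (Finset α) :=
  (powersetCard s (univ : Finset α)).filter (fun T => ∃ A ∈ F, T ⊆ A)

private theorem re_sum {ι : Type*} (S : Finset ι) (q : ι → ℍ[ℝ]) :
    (∑ i ∈ S, q i).re = ∑ i ∈ S, (q i).re := by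
  classical
  induction S using Finset.induction_on with
  | empty => simp
  | insert a S ha ih => rw [Finset.sum_insert ha, Finset.sum_insert ha, Quaternion.re_add, ih]

private theorem imI_sum {ι : Type*} (S : Finset ι) (q : ι → ℍ[ℝ]) :
    (∑ i ∈ S, q i).imI = ∑ i ∈ S, (q i).imI := by
  classical
  induction S using Finset.induction_on with
  | empty => simp
  | insert a S ha ih => rw [Finset.sum_insert ha, Finset.sum_insert ha, Quaternion.imI_add, ih]

private theorem imJ_sum {ι : Type*} (S : Finset ι) (q : ι → ℍ[ℝ]) :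
    (∑ i ∈ S, q i).imJ = ∑ i ∈ S, (q i).imJ := by
  classical
  induction S using Finset.induction_on with
  | empty => simp
  | insert a S ha ih => rw [Finset.sum_insert ha, Finset.sum_insert ha, Quaternion.imJ_add, ih]

private theorem imK_sum {ι : Type*} (S : Finset ι) (q : ι → ℍ[ℝ]) :
    (∑ i ∈ S, q i).imK = ∑ i ∈ S, (q i).imK := by
  classical
  induction S using Finset.induction_on with
  | empty => simp
  | insert a S ha ih => rw [Finset.sum_insert ha, Finset.sum_insert ha, Quaternion.imK_add, ih]

theorem big_le {s : ℕ} {F : Finset (Finset α)}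
    (hanti : IsAntichain (· ⊆ ·) (F : Set (Finset α)))
    (hdiam : ∀ A ∈ F, ∀ B ∈ F, (symmDiff A B).card ≤ 2 * s + 1)
    (hsize : ∀ A ∈ F, s + 1 ≤ A.card) :
    F.card ≤ (sh s F).card + 2 * ∑ j ∈ Icc 1 (s / 2), (Fintype.card α).choose (s - 2 * j) := by
  by_contra hcon
  rw [not_le] at hcon
  set a : ℕ → ℝ := fun _ => 1 with ha
  set b : ℕ → ℝ := fun _ => 0 with hb
  have hu : Unit2 a b := fun m => by simp [ha, hb]
  let I : Finset (Finset α ⊕ ((Σ _ : ℕ, Finset α) × Bool)) :=
    (sh s F).disjSum (((Icc 1 (s / 2)).sigma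
      (fun j => powersetCard (s - 2 * j) (univ : Finset α))) ×ˢ (univ : Finset Bool))
  have hI : I.card < F.card := by
    refine lt_of_eq_of_lt ?_ hcon
    simp only [I, card_disjSum, card_product, card_sigma, card_powersetCard, Finset.card_univ,
      Fintype.card_bool]
    ring
  let M : Finset α ⊕ ((Σ _ : ℕ, Finset α) × Bool) → Finset α → ℝ := fun i A =>
    match i with
    | Sum.inl T => if T ⊆ A then 1 else 0
    | Sum.inr (⟨j, T⟩, ε) => if T ⊆ A then
        (if ε then (X a b (2 * j) (A.card - s - 1)).re
          else (X a b (2 * j) (A.card - s - 1)).imI) else 0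
  obtain ⟨f, ⟨A₀, hA₀, hf₀⟩, hf⟩ := exists_kernel F I M hI
  have hid := identity hanti hdiam hsize hu f
  have hpos : 0 < ∑ A ∈ F, f A ^ 2 :=
    Finset.sum_pos' (fun A _ => sq_nonneg _) ⟨A₀, hA₀, by positivity⟩
  rw [hid] at hpos
  refine absurd hpos (not_lt.2 (Finset.sum_nonpos fun k hk => ?_))
  have hk' : k ≤ s := Nat.lt_succ_iff.1 (mem_range.1 hk)
  rcases Nat.even_or_odd' k with ⟨j, rfl | rfl⟩
  · -- even
    apply le_of_eq
    apply mul_eq_zero_of_right
    refine Finset.sum_eq_zero fun T hT => ?_
    have hTc : T.card = s - 2 * j := (mem_powersetCard.1 hT).2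
    rcases Nat.eq_zero_or_pos j with rfl | hj
    · -- the shadow
      simp only [Nat.mul_zero, X_zero]
      by_cases hTs : T ∈ sh s F
      · have h1 := hf (Sum.inl T) (by
          simp only [I, inl_mem_disjSum]
          exact hTs)
        have h2 : ∑ A ∈ F with T ⊆ A, f A = 0 := by
          rw [← h1, Finset.sum_filter]
          refine Finset.sum_congr rfl fun A _ => ?_
          simp only [M]
          split_ifs <;> ring
        rw [← Finset.sum_smul, h2, zero_smul, map_zero]
      · have h1 : F.filter (fun A => T ⊆ A) = ∅ := by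
          rw [Finset.filter_eq_empty_iff]
          intro A hA hTA
          apply hTs
          rw [sh, mem_filter]
          exact ⟨by simpa using hT, A, hA, hTA⟩
        rw [h1, Finset.sum_empty, map_zero]
    · have hmem : ∀ ε : Bool, (Sum.inr (⟨j, T⟩, ε) :
          Finset α ⊕ ((Σ _ : ℕ, Finset α) × Bool)) ∈ I := by
        intro ε
        simp only [I, inr_mem_disjSum, mem_product, mem_sigma, mem_univ, and_true, mem_Icc]
        exact ⟨⟨hj, by omega⟩, hT⟩
      have h1 := hf _ (hmem true)
      have h2 := hf _ (hmem false)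
      rw [Quaternion.normSq_eq_zero]
      have hre : (∑ A ∈ F with T ⊆ A, f A • X a b (2 * j) (A.card - s - 1)).re = 0 := by
        rw [re_sum]
        refine Eq.trans ?_ h1
        rw [Finset.sum_filter]
        refine Finset.sum_congr rfl fun A _ => ?_
        simp only [M, if_true, Quaternion.re_smul, smul_eq_mul]
        split_ifs <;> ring
      have him : (∑ A ∈ F with T ⊆ A, f A • X a b (2 * j) (A.card - s - 1)).imI = 0 := by
        rw [imI_sum]
        refine Eq.trans ?_ h2
        rw [Finset.sum_filter]
        refine Finset.sum_congr rfl fun A _ => ?_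
        simp only [M, Bool.false_eq_true, if_false, Quaternion.imI_smul, smul_eq_mul]
        split_ifs <;> ring
      have hJ : (∑ A ∈ F with T ⊆ A, f A • X a b (2 * j) (A.card - s - 1)).imJ = 0 := by
        rw [imJ_sum]
        refine Finset.sum_eq_zero fun A _ => ?_
        rw [Quaternion.imJ_smul, (X_complex _ _).1, smul_zero]
      have hK : (∑ A ∈ F with T ⊆ A, f A • X a b (2 * j) (A.card - s - 1)).imK = 0 := by
        rw [imK_sum]
        refine Finset.sum_eq_zero fun A _ => ?_
        rw [Quaternion.imK_smul, (X_complex _ _).2, smul_zero]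
      exact Quaternion.ext _ _ hre him hJ hK
  · rw [pow_succ, pow_mul, neg_one_sq, one_pow, one_mul]
    have h1 : (0 : ℝ) ≤ ∑ T ∈ powersetCard (s - (2 * j + 1)) (univ : Finset α),
        normSq (∑ A ∈ F with T ⊆ A, f A • X a b (2 * j + 1) (A.card - s - 1)) :=
      Finset.sum_nonneg fun T _ => Quaternion.normSq_nonneg
    linarith

end Pool.Agent.OddDiam
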