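import Mathlib

/-! # MP_f155e9_co, odd diameter: quaternion features -/

set_option autoImplicit false

namespace Pool.Agent.OddDiam

open Finset Quaternion

/-- `α m` and `β m` are the coordinates of a unit vector in `span (i, j)` -/
def Unit2 (a b : ℕ → ℝ) : Prop := ∀ m, a m ^ 2 + b m ^ 2 = 1

/-- the unit vector `a m * i + b m * j` -/
def gam (a b : ℕ → ℝ) (m : ℕ) : ℍ[ℝ] := ⟨0, a m, b m, 0⟩

/-- `X k m = ∏_{l=1}^{m} (1 + √(k/l) γ_{l-1})`; the index `m` belongs to sets of size `s + 1 + m` -/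
noncomputable def X (a b : ℕ → ℝ) (k : ℕ) : ℕ → ℍ[ℝ]
  | 0 => 1
  | m + 1 => X a b k m * (1 + (√(k : ℝ) / √((m : ℝ) + 1)) • gam a b m)

theorem X_zero (a b : ℕ → ℝ) (m : ℕ) : X a b 0 m = 1 := by
  induction m with
  | zero => rfl
  | succ m ih =>
    rw [X, ih]
    simp

/-- with `a = 1`, `b = 0` the features are complex numbers -/
theorem X_complex (k m : ℕ) : (X (fun _ => 1) (fun _ => 0) k m).imJ = 0 ∧
    (X (fun _ => 1) (fun _ => 0) k m).imK = 0 := by
  induction m with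
  | zero => exact ⟨rfl, rfl⟩
  | succ m ih =>
    rw [X]
    constructor
    · simp [gam, ih.1, ih.2]
    · simp [gam, ih.1, ih.2]

private theorem quat_coef (k m : ℕ) :
    (√(k : ℝ) / √((m : ℝ) + 1)) ^ 2 = (k : ℝ) / ((m : ℝ) + 1) := by
  have hk : (0 : ℝ) ≤ (k : ℝ) := Nat.cast_nonneg k
  have hm : (0 : ℝ) ≤ (m : ℝ) + 1 := by positivity
  rw [div_pow, Real.sq_sqrt hk, Real.sq_sqrt hm]

private theorem quat_choose (k m : ℕ) :
    ((m + 1 + k).choose k : ℝ) = ((m + k).choose k : ℝ) * (1 + (k : ℝ) / ((m : ℝ) + 1)) := by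
  have hm : ((m : ℝ) + 1) ≠ 0 := by positivity
  have h1 : (m + k + 1) * (m + k).choose m = (m + k + 1).choose (m + 1) * (m + 1) :=
    Nat.add_one_mul_choose_eq (m + k) m
  have h2 : (m + k).choose m = (m + k).choose k := Nat.choose_symm_add
  have h3 : (m + k + 1).choose (m + 1) = (m + 1 + k).choose k := by
    have h4 : m + k + 1 = (m + 1) + k := by ring
    rw [h4]
    exact Nat.choose_symm_add
  rw [h2, h3] at h1
  have h5 : ((m : ℝ) + k + 1) * ((m + k).choose k : ℝ) =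
      ((m + 1 + k).choose k : ℝ) * ((m : ℝ) + 1) := by
    exact_mod_cast h1
  field_simp
  linear_combination -h5

private theorem quat_normSq {a b : ℕ → ℝ} (h : Unit2 a b) (k m : ℕ) :
    Quaternion.normSq (X a b k m) = ((m + k).choose k : ℝ) := by
  induction m with
  | zero =>
    rw [X, map_one, zero_add, Nat.choose_self, Nat.cast_one]
  | succ m ih =>
    rw [X, map_mul, ih, quat_choose]
    congr 1
    rw [Quaternion.normSq_def', ← quat_coef]
    have hu := h m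
    simp [gam]
    linear_combination (√(k : ℝ) / √((m : ℝ) + 1)) ^ 2 * hu

private theorem quat_deg_add {p q : Polynomial ℝ} {n : ℕ} (hp : p.natDegree ≤ n)
    (hq : q.natDegree ≤ n) : (p + q).natDegree ≤ n :=
  (Polynomial.natDegree_add_le p q).trans (max_le hp hq)

private theorem quat_deg_C {p : Polynomial ℝ} {n : ℕ} (c : ℝ) (hp : p.natDegree ≤ n) :
    (Polynomial.C c * p).natDegree ≤ n :=
  (Polynomial.natDegree_C_mul_le c p).trans hp

private theorem quat_deg_X {p : Polynomial ℝ} {n : ℕ} (hp : p.natDegree ≤ n) :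
    (Polynomial.X * p).natDegree ≤ n + 1 := by
  refine (Polynomial.natDegree_mul_le).trans ?_
  have h := Polynomial.natDegree_X_le (R := ℝ)
  omega

private theorem quat_step (a b : ℕ → ℝ) (m σ : ℕ) :
    ∃ P0 P3 Q1 Q2 : Polynomial ℝ, P0.natDegree ≤ σ / 2 ∧ P3.natDegree ≤ σ / 2 ∧
      (Polynomial.X * Q1).natDegree ≤ (σ + 1) / 2 ∧ (Polynomial.X * Q2).natDegree ≤ (σ + 1) / 2 ∧
      (σ = 0 → P0 = 1) ∧ ∀ k : ℕ, ∃ W : ℍ[ℝ], X a b k (m + σ) = X a b k m * W ∧
        W.re = P0.eval (k : ℝ) ∧ W.imI = √(k : ℝ) * Q1.eval (k : ℝ) ∧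
        W.imJ = √(k : ℝ) * Q2.eval (k : ℝ) ∧ W.imK = P3.eval (k : ℝ) := by
  induction σ with
  | zero =>
    refine ⟨1, 0, 0, 0, by simp, by simp, by simp, by simp, fun _ => rfl, fun k => ⟨1, ?_⟩⟩
    simp
  | succ σ ih =>
    obtain ⟨P0, P3, Q1, Q2, h0, h3, h1, h2, -, hW⟩ := ih
    set t : ℝ := 1 / √(((m + σ : ℕ) : ℝ) + 1) with ht
    set α := a (m + σ)
    set β := b (m + σ)
    have e1 : σ / 2 ≤ (σ + 1) / 2 := by omega
    have e2 : (σ + 1) / 2 ≤ (σ + 1 + 1) / 2 := by omega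
    have e3 : σ / 2 + 1 = (σ + 1 + 1) / 2 := by omega
    refine ⟨P0 + Polynomial.C (-(t * α)) * (Polynomial.X * Q1) +
        Polynomial.C (-(t * β)) * (Polynomial.X * Q2),
      P3 + Polynomial.C (t * β) * (Polynomial.X * Q1) +
        Polynomial.C (-(t * α)) * (Polynomial.X * Q2),
      Q1 + Polynomial.C (t * α) * P0 + Polynomial.C (-(t * β)) * P3,
      Q2 + Polynomial.C (t * β) * P0 + Polynomial.C (t * α) * P3, ?_, ?_, ?_, ?_, ?_, ?_⟩
    · exact quat_deg_add (quat_deg_add (h0.trans e1) (quat_deg_C _ h1)) (quat_deg_C _ h2)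
    · exact quat_deg_add (quat_deg_add (h3.trans e1) (quat_deg_C _ h1)) (quat_deg_C _ h2)
    · rw [mul_add, mul_add]
      refine quat_deg_add (quat_deg_add (h1.trans e2) ?_) ?_
      · rw [← e3]
        exact quat_deg_X (quat_deg_C _ h0)
      · rw [← e3]
        exact quat_deg_X (quat_deg_C _ h3)
    · rw [mul_add, mul_add]
      refine quat_deg_add (quat_deg_add (h2.trans e2) ?_) ?_
      · rw [← e3]
        exact quat_deg_X (quat_deg_C _ h0)
      · rw [← e3]
        exact quat_deg_X (quat_deg_C _ h3)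
    · intro h
      exact absurd h (Nat.succ_ne_zero σ)
    · intro k
      obtain ⟨W, hX, w0, w1, w2, w3⟩ := hW k
      have hk : √(k : ℝ) * √(k : ℝ) = (k : ℝ) := Real.mul_self_sqrt (Nat.cast_nonneg k)
      have hc : √(k : ℝ) / √(((m + σ : ℕ) : ℝ) + 1) = √(k : ℝ) * t := by
        rw [ht, mul_one_div]
      refine ⟨W * (1 + (√(k : ℝ) * t) • gam a b (m + σ)), ?_, ?_, ?_, ?_, ?_⟩
      · rw [← add_assoc, X, hX, hc, mul_assoc]
      · simp [gam, w0, w1, w2, w3]
        linear_combination (-(t * α * Q1.eval (k : ℝ)) - t * β * Q2.eval (k : ℝ)) * hk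
      · simp [gam, w0, w1, w2, w3]
        ring
      · simp [gam, w0, w1, w2, w3]
        ring
      · simp [gam, w0, w1, w2, w3]
        linear_combination (t * β * Q1.eval (k : ℝ) - t * α * Q2.eval (k : ℝ)) * hk

/-- the Gram matrix of the features -/
theorem gram {a b : ℕ → ℝ} (h : Unit2 a b) {m m' : ℕ} (hm : m ≤ m') :
    ∃ P : Polynomial ℝ, P.natDegree ≤ (m' - m) / 2 ∧ (m = m' → P = 1) ∧
      ∀ k : ℕ, (star (X a b k m) * X a b k m').re = ((m + k).choose k : ℝ) * P.eval (k : ℝ) := by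
  obtain ⟨P0, P3, Q1, Q2, h0, -, -, -, h1, hW⟩ := quat_step a b m (m' - m)
  refine ⟨P0, h0, fun hmm => h1 (by omega), fun k => ?_⟩
  obtain ⟨W, hX, hre, -, -, -⟩ := hW k
  rw [Nat.add_sub_cancel' hm] at hX
  rw [hX, ← mul_assoc, Quaternion.star_mul_self, Quaternion.coe_mul_eq_smul, Quaternion.re_smul,
    smul_eq_mul, hre, quat_normSq h]

end Pool.Agent.OddDiam
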