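import Pool.Agent.OddDiam.Pattern
import Pool.Agent.OddDiam.Quat

/-! # MP_f155e9_co, odd diameter: the identity -/

set_option autoImplicit false

namespace Pool.Agent.OddDiam

open Finset Quaternion

variable {α : Type*} [Fintype α] [DecidableEq α]

/-- the real part as an additive map -/
def reHom : ℍ[ℝ] →+ ℝ where
  toFun q := q.re
  map_zero' := rfl
  map_add' _ _ := rfl

theorem normSq_eq_re (q : ℍ[ℝ]) : normSq q = (star q * q).re := by
  rw [Quaternion.star_mul_self]
  simp

theorem normSq_sum {ι : Type*} (S : Finset ι) (f : ι → ℝ) (x : ι → ℍ[ℝ]) :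
    normSq (∑ A ∈ S, f A • x A) = ∑ A ∈ S, ∑ B ∈ S, f A * f B * (star (x A) * x B).re := by
  rw [normSq_eq_re, star_sum, Finset.sum_mul_sum]
  have h1 : ∀ q : ℍ[ℝ], q.re = reHom q := fun q => rfl
  rw [h1, map_sum]
  refine Finset.sum_congr rfl fun A _ => ?_
  rw [map_sum]
  refine Finset.sum_congr rfl fun B _ => ?_
  rw [← h1, Quaternion.star_smul, smul_mul_smul_comm]
  simp

theorem re_star_comm (p q : ℍ[ℝ]) : (star p * q).re = (star q * p).re := by
  simp only [Quaternion.re_mul, Quaternion.re_star, Quaternion.imI_star, Quaternion.imJ_star,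
    Quaternion.imK_star]
  ring

/-- the kernel -/
noncomputable def ker (s : ℕ) (a b : ℕ → ℝ) (A B : Finset α) : ℝ :=
  ∑ k ∈ range (s + 1), (-1 : ℝ) ^ k * (star (X a b k (A.card - s - 1)) *
    X a b k (B.card - s - 1)).re * ((A ∩ B).card.choose (s - k) : ℝ)

theorem ker_comm (s : ℕ) (a b : ℕ → ℝ) (A B : Finset α) : ker s a b A B = ker s a b B A := by
  unfold ker
  refine Finset.sum_congr rfl fun k _ => ?_
  rw [re_star_comm, Finset.inter_comm]

theorem ker_self {s : ℕ} {a b : ℕ → ℝ} (h : Unit2 a b) {A : Finset α} (hA : s + 1 ≤ A.card) :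
    ker s a b A A = 1 := by
  unfold ker
  obtain ⟨P, _, hP1, hP⟩ := gram h (le_refl (A.card - s - 1))
  refine Eq.trans (Finset.sum_congr rfl fun k _ => ?_) (pattern_diag s (A.card - s - 1))
  rw [hP, hP1 rfl, Finset.inter_self]
  have : A.card - s - 1 + 1 + s = A.card := by omega
  rw [this]
  simp

theorem ker_ne {s : ℕ} {a b : ℕ → ℝ} (h : Unit2 a b) {A B : Finset α} (hA : s + 1 ≤ A.card)
    (hB : s + 1 ≤ B.card) (hAB : A.card ≤ B.card) (hnot : ¬ A ⊆ B)
    (hd : (symmDiff A B).card ≤ 2 * s + 1) : ker s a b A B = 0 := by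
  unfold ker
  obtain ⟨P, hPd, _, hP⟩ := gram h (show A.card - s - 1 ≤ B.card - s - 1 by omega)
  have h1 : (symmDiff A B).card = (A \ B).card + (B \ A).card := by
    rw [symmDiff_def, sup_eq_union, card_union_of_disjoint disjoint_sdiff_sdiff]
  have h2 : (A \ B).card + (A ∩ B).card = A.card := Finset.card_sdiff_add_card_inter A B
  have h3 : (B \ A).card + (B ∩ A).card = B.card := Finset.card_sdiff_add_card_inter B A
  have h4 : (B ∩ A).card = (A ∩ B).card := by rw [Finset.inter_comm]
  have h5 : 1 ≤ (A \ B).card := by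
    rw [Nat.one_le_iff_ne_zero, Ne, Finset.card_eq_zero, Finset.sdiff_eq_empty_iff_subset]
    exact hnot
  have h6 := pattern (s := s) (m := A.card - s - 1) (j := (A \ B).card)
    (r := (B.card - s - 1 - (A.card - s - 1)) / 2) P hPd h5 (by omega)
  refine Eq.trans (Finset.sum_congr rfl fun k _ => ?_) h6
  rw [hP]
  have : A.card - s - 1 + 1 + s - (A \ B).card = (A ∩ B).card := by omega
  rw [this]
  ring

theorem ker_eq {s : ℕ} {F : Finset (Finset α)}
    (hanti : IsAntichain (· ⊆ ·) (F : Set (Finset α)))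
    (hdiam : ∀ A ∈ F, ∀ B ∈ F, (symmDiff A B).card ≤ 2 * s + 1)
    (hsize : ∀ A ∈ F, s + 1 ≤ A.card) {a b : ℕ → ℝ} (h : Unit2 a b)
    {A B : Finset α} (hA : A ∈ F) (hB : B ∈ F) :
    ker s a b A B = if A = B then 1 else 0 := by
  split_ifs with hAB
  · subst hAB
    exact ker_self h (hsize A hA)
  · rcases le_total A.card B.card with hc | hc
    · exact ker_ne h (hsize A hA) (hsize B hB) hc (fun hs => hanti hA hB hAB hs) (hdiam A hA B hB)
    · rw [ker_comm]
      exact ker_ne h (hsize B hB) (hsize A hA) hc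
        (fun hs => hanti hB hA (Ne.symm hAB) hs) (hdiam B hB A hA)

theorem card_common (k : ℕ) (A B : Finset α) :
    ((powersetCard k (univ : Finset α)).filter (fun T => T ⊆ A ∧ T ⊆ B)).card =
      (A ∩ B).card.choose k := by
  rw [← card_powersetCard]
  congr 1
  ext T
  simp only [mem_filter, mem_powersetCard, subset_univ, true_and, subset_inter_iff]
  tauto

theorem identity {s : ℕ} {F : Finset (Finset α)}
    (hanti : IsAntichain (· ⊆ ·) (F : Set (Finset α)))
    (hdiam : ∀ A ∈ F, ∀ B ∈ F, (symmDiff A B).card ≤ 2 * s + 1)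
    (hsize : ∀ A ∈ F, s + 1 ≤ A.card) {a b : ℕ → ℝ} (h : Unit2 a b) (f : Finset α → ℝ) :
    ∑ A ∈ F, f A ^ 2 = ∑ k ∈ range (s + 1), (-1 : ℝ) ^ k *
      ∑ T ∈ powersetCard (s - k) (univ : Finset α),
        normSq (∑ A ∈ F with T ⊆ A, f A • X a b k (A.card - s - 1)) := by
  have h1 : ∑ A ∈ F, f A ^ 2 = ∑ A ∈ F, ∑ B ∈ F, f A * f B * ker s a b A B := by
    refine Finset.sum_congr rfl fun A hA => ?_
    rw [Finset.sum_eq_single_of_mem A hA]
    · rw [ker_eq hanti hdiam hsize h hA hA, if_pos rfl]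
      ring
    · intro B hB hne
      rw [ker_eq hanti hdiam hsize h hA hB, if_neg (Ne.symm hne), mul_zero]
  rw [h1]
  have h2 : ∀ k ∈ range (s + 1), (-1 : ℝ) ^ k *
      ∑ T ∈ powersetCard (s - k) (univ : Finset α),
        normSq (∑ A ∈ F with T ⊆ A, f A • X a b k (A.card - s - 1)) =
      ∑ A ∈ F, ∑ B ∈ F, f A * f B * ((-1 : ℝ) ^ k * (star (X a b k (A.card - s - 1)) *
        X a b k (B.card - s - 1)).re * ((A ∩ B).card.choose (s - k) : ℝ)) := by
    intro k _
    have h3 : ∀ T ∈ powersetCard (s - k) (univ : Finset α),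
        normSq (∑ A ∈ F with T ⊆ A, f A • X a b k (A.card - s - 1)) =
        ∑ A ∈ F, ∑ B ∈ F, if T ⊆ A ∧ T ⊆ B then f A * f B * (star (X a b k (A.card - s - 1)) *
          X a b k (B.card - s - 1)).re else 0 := by
      intro T _
      rw [normSq_sum, Finset.sum_filter]
      refine Finset.sum_congr rfl fun A _ => ?_
      split_ifs with hTA
      · rw [Finset.sum_filter]
        refine Finset.sum_congr rfl fun B _ => ?_
        simp [hTA]
      · simp [hTA]
    rw [Finset.sum_congr rfl h3, Finset.sum_comm, Finset.mul_sum]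
    refine Finset.sum_congr rfl fun A _ => ?_
    rw [Finset.sum_comm, Finset.mul_sum]
    refine Finset.sum_congr rfl fun B _ => ?_
    rw [← Finset.sum_filter, Finset.sum_const, nsmul_eq_mul, card_common]
    ring
  rw [Finset.sum_congr rfl h2, Finset.sum_comm (s := range (s + 1))]
  refine Finset.sum_congr rfl fun A _ => ?_
  rw [Finset.sum_comm (s := range (s + 1))]
  refine Finset.sum_congr rfl fun B _ => ?_
  unfold ker
  rw [Finset.mul_sum]

end Pool.Agent.OddDiam
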