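import Pool.Agent.OddDiam.MiddleCount
import Pool.Agent.OddDiam.Num

/-! # MP_f155e9_co, odd diameter: sizes in `[s + 1, n - s - 1]`, `4 n ≥ 21 s` -/

set_option autoImplicit false

namespace Pool.Agent.OddDiam

open Finset

variable {α : Type*} [Fintype α] [DecidableEq α]

theorem middle {s : ℕ} (hs : 1 ≤ s) {F : Finset (Finset α)}
    (hanti : IsAntichain (· ⊆ ·) (F : Set (Finset α)))
    (hdiam : ∀ A ∈ F, ∀ B ∈ F, (symmDiff A B).card ≤ 2 * s + 1)
    (hlo : ∀ A ∈ F, s + 1 ≤ A.card) (hhi : ∀ A ∈ F, A.card + s + 1 ≤ Fintype.card α)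
    (hn : 21 * s ≤ 4 * Fintype.card α) : F.card ≤ (Fintype.card α).choose s := by
  have h1 := middle_count_sharp hs hanti hdiam hlo hhi (by omega)
  have h2 := num_middle_sharp hs hn
  omega

end Pool.Agent.OddDiam
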