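import Pool.Agent.OddDiam.Ball
import Pool.Agent.OddDiam.Centre
import Pool.Agent.OddDiam.Middle

/-! # MP_f155e9_co, odd diameter: Q1 for `n ≥ 40 s²` -/

set_option autoImplicit false

namespace Pool.Agent.OddDiam

open Finset

variable {α : Type*} [Fintype α] [DecidableEq α]

theorem symm_card (A B : Finset α) : (symmDiff A B).card = (A \ B).card + (B \ A).card := by
  rw [symmDiff_def, sup_eq_union, card_union_of_disjoint disjoint_sdiff_sdiff]

theorem symm_card' (A B : Finset α) :
    (symmDiff A B).card + 2 * (A ∩ B).card = A.card + B.card := by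
  have h1 := symm_card A B
  have h2 : (A \ B).card + (A ∩ B).card = A.card := Finset.card_sdiff_add_card_inter A B
  have h3 : (B \ A).card + (B ∩ A).card = B.card := Finset.card_sdiff_add_card_inter B A
  have h4 : (B ∩ A).card = (A ∩ B).card := by rw [Finset.inter_comm]
  omega

/-- the case of a centre -/
theorem of_centre {s : ℕ} (hs : 1 ≤ s) (hn : 40 * s ^ 2 ≤ Fintype.card α)
    {F : Finset (Finset α)} (hF : IsAntichain (· ⊆ ·) (F : Set (Finset α)))
    (hdiam : ∀ A ∈ F, ∀ B ∈ F, (symmDiff A B).card ≤ 2 * s + 1) {Z : Finset α}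
    (hZ : Z.card ≤ 2 * s) (hc : ∀ B ∈ F, (symmDiff B Z).card ≤ s + 1) :
    F.card ≤ (Fintype.card α).choose s := by
  have hinj : Function.Injective (fun A : Finset α => symmDiff A Z) := by
    intro A B hAB
    have : symmDiff (symmDiff A Z) Z = symmDiff (symmDiff B Z) Z := by
      simp only at hAB
      rw [hAB]
    rwa [symmDiff_symmDiff_cancel_right, symmDiff_symmDiff_cancel_right] at this
  rw [← Finset.card_image_of_injective F hinj]
  refine ball hs hn hZ (twAnti_image Z hF) ?_ ?_
  · intro S hS
    obtain ⟨A, hA, rfl⟩ := Finset.mem_image.mp hS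
    exact hc A hA
  · intro S hS T hT hS1 hT1
    obtain ⟨A, hA, rfl⟩ := Finset.mem_image.mp hS
    obtain ⟨B, hB, rfl⟩ := Finset.mem_image.mp hT
    rw [Finset.nonempty_iff_ne_empty]
    intro h0
    have h1 := symm_card' (symmDiff A Z) (symmDiff B Z)
    have h2 : symmDiff (symmDiff A Z) (symmDiff B Z) = symmDiff A B := by
      rw [symmDiff_symmDiff_symmDiff_comm, symmDiff_self]
      simp
    rw [h0, h2] at h1
    have h3 := hdiam A hA B hB
    simp only [card_empty] at h1
    omega

theorem main_low {s : ℕ} (hs : 1 ≤ s) (hn : 40 * s ^ 2 ≤ Fintype.card α) {F : Finset (Finset α)}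
    (hF : IsAntichain (· ⊆ ·) (F : Set (Finset α)))
    (hdiam : ∀ A ∈ F, ∀ B ∈ F, (symmDiff A B).card ≤ 2 * s + 1)
    {A₀ : Finset α} (hA₀ : A₀ ∈ F) (hA₀s : A₀.card ≤ s) :
    F.card ≤ (Fintype.card α).choose s := by
  have hn2 : 2 * s ≤ Fintype.card α := by nlinarith
  have hsize : ∀ A ∈ F, A.card ≤ 3 * s := by
    intro A hA
    by_cases hAA : A = A₀
    · subst hAA; omega
    · have h1 := symm_card A A₀
      have h2 : (A \ A₀).card + (A ∩ A₀).card = A.card := Finset.card_sdiff_add_card_inter A A₀
      have h3 : (A₀ \ A).card + (A₀ ∩ A).card = A₀.card := Finset.card_sdiff_add_card_inter A₀ A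
      have h4 : (A₀ ∩ A).card = (A ∩ A₀).card := by rw [Finset.inter_comm]
      have h5 := hdiam A hA A₀ hA₀
      have h6 : 1 ≤ (A₀ \ A).card := by
        rw [Nat.one_le_iff_ne_zero, Ne, Finset.card_eq_zero, Finset.sdiff_eq_empty_iff_subset]
        exact fun hsub => hF hA₀ hA (Ne.symm hAA) hsub
      omega
  by_contra hlt
  push Not at hlt
  -- the three parts of `F`
  set Q := F.filter (fun A => s < A.card) with hQ
  set E := F.filter (fun A => A.card = s) with hE
  set L := F.filter (fun A => A.card < s) with hL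
  have hcard : F.card = L.card + E.card + Q.card := by
    have h1 := Finset.card_filter_add_card_filter_not (s := F) (fun A => A.card < s)
    have h2 := Finset.card_filter_add_card_filter_not
      (s := F.filter (fun A => ¬ A.card < s)) (fun A => A.card = s)
    rw [Finset.filter_filter, Finset.filter_filter] at h2
    have h3 : F.filter (fun A => ¬ A.card < s ∧ A.card = s) = E := by
      rw [hE]
      refine Finset.filter_congr fun A _ => ?_
      omega
    have h4 : F.filter (fun A => ¬ A.card < s ∧ ¬ A.card = s) = Q := by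
      rw [hQ]
      refine Finset.filter_congr fun A _ => ?_
      omega
    rw [h3, h4] at h2
    rw [← hL] at h1
    omega
  have hLb : L.card ≤ (Fintype.card α).choose (s - 1) := by
    refine lym_le (by omega) (hF.subset (Finset.coe_subset.mpr (Finset.filter_subset _ _))) ?_
    intro A hA
    have := (Finset.mem_filter.mp hA).2
    omega
  have hQb := big_le (s := s) (F := Q)
    (hF.subset (Finset.coe_subset.mpr (Finset.filter_subset _ _)))
    (fun A hA B hB => hdiam A (Finset.mem_filter.mp hA).1 B (Finset.mem_filter.mp hB).1)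
    (fun A hA => (Finset.mem_filter.mp hA).2)
  have hsh : E.card + (sh s Q).card ≤ (sh s F).card := by
    have hdisj : Disjoint E (sh s Q) := by
      rw [Finset.disjoint_left]
      intro T hT hT2
      obtain ⟨_, A, hA, hTA⟩ := Finset.mem_filter.mp hT2
      have h1 := Finset.mem_filter.mp hT
      have h2 := Finset.mem_filter.mp hA
      refine hF h1.1 h2.1 ?_ hTA
      rintro rfl
      omega
    rw [← Finset.card_union_of_disjoint hdisj]
    refine Finset.card_le_card ?_
    intro T hT
    rcases Finset.mem_union.mp hT with h | h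
    · have h1 := Finset.mem_filter.mp h
      exact Finset.mem_filter.mpr ⟨Finset.mem_powersetCard.mpr ⟨Finset.subset_univ _, h1.2⟩,
        T, h1.1, Finset.Subset.refl _⟩
    · obtain ⟨h1, A, hA, hTA⟩ := Finset.mem_filter.mp h
      exact Finset.mem_filter.mpr ⟨h1, A, (Finset.mem_filter.mp hA).1, hTA⟩
  have hnum := num_main hs hn
  obtain ⟨Z, hZ, hc⟩ := centre hs hn hdiam hsize (by omega)
  have := of_centre hs hn hF hdiam hZ hc
  omega

theorem main {s : ℕ} (hs : 1 ≤ s) (hn : 40 * s ^ 2 ≤ Fintype.card α) {F : Finset (Finset α)}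
    (hF : IsAntichain (· ⊆ ·) (F : Set (Finset α)))
    (hdiam : ∀ A ∈ F, ∀ B ∈ F, (symmDiff A B).card ≤ 2 * s + 1) :
    F.card ≤ (Fintype.card α).choose s := by
  by_cases h1 : ∃ A ∈ F, A.card ≤ s
  · obtain ⟨A₀, hA₀, hA₀s⟩ := h1
    exact main_low hs hn hF hdiam hA₀ hA₀s
  by_cases h2 : ∃ A ∈ F, Fintype.card α ≤ A.card + s
  · obtain ⟨A₀, hA₀, hA₀s⟩ := h2
    have hinj : Function.Injective (fun A : Finset α => Aᶜ) := compl_injective
    rw [← Finset.card_image_of_injective F hinj]
    refine main_low hs hn (A₀ := A₀ᶜ) ?_ ?_ (Finset.mem_image_of_mem _ hA₀) ?_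
    · intro S hS T hT hne hsub
      simp only [Finset.coe_image, Set.mem_image, Finset.mem_coe] at hS hT
      obtain ⟨A, hA, rfl⟩ := hS
      obtain ⟨B, hB, rfl⟩ := hT
      refine hF hB hA (fun h => hne (by rw [h])) ?_
      exact Finset.compl_subset_compl.mp hsub
    · intro S hS T hT
      obtain ⟨A, hA, rfl⟩ := Finset.mem_image.mp hS
      obtain ⟨B, hB, rfl⟩ := Finset.mem_image.mp hT
      rw [compl_symmDiff_compl]
      exact hdiam A hA B hB
    · rw [Finset.card_compl]
      omega
  · push Not at h1 h2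
    refine middle hs hF hdiam (fun A hA => h1 A hA) (fun A hA => ?_) (by nlinarith)
    have := h2 A hA
    omega

end Pool.Agent.OddDiam
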