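import Pool.Agent.OddDiam.Quat

/-! # MP_f155e9_co, odd diameter: steering the features -/

set_option autoImplicit false

namespace Pool.Agent.OddDiam

open Finset Quaternion

private def g2 (x y : ℝ) : ℍ[ℝ] := ⟨0, x, y, 0⟩

private theorem g2_re (x y : ℝ) : (g2 x y).re = 0 := rfl
private theorem g2_imI (x y : ℝ) : (g2 x y).imI = x := rfl
private theorem g2_imJ (x y : ℝ) : (g2 x y).imJ = y := rfl
private theorem g2_imK (x y : ℝ) : (g2 x y).imK = 0 := rfl

private theorem steer_congr {a b a' b' : ℕ → ℝ} {k : ℕ} {m : ℕ}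
    (ha : ∀ l < m, a l = a' l) (hb : ∀ l < m, b l = b' l) : X a b k m = X a' b' k m := by
  induction m with
  | zero => rfl
  | succ m ih =>
    rw [X, X, ih (fun l hl => ha l (by omega)) (fun l hl => hb l (by omega))]
    unfold gam
    rw [ha m (by omega), hb m (by omega)]

private theorem steer_factor {L x y : ℝ} (hL : 0 < L) (h : x ^ 2 + y ^ 2 = 1) :
    normSq (1 + (√((1 : ℕ) : ℝ) / √L) • g2 x y) = (L + 1) / L := by
  have hs : √L ^ 2 = L := Real.sq_sqrt hL.le
  have hs0 : √L ≠ 0 := (Real.sqrt_pos.2 hL).ne'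
  rw [Quaternion.normSq_def']
  simp only [Quaternion.re_add, Quaternion.imI_add, Quaternion.imJ_add, Quaternion.imK_add,
    Quaternion.re_one, Quaternion.imI_one, Quaternion.imJ_one, Quaternion.imK_one,
    Quaternion.re_smul, Quaternion.imI_smul, Quaternion.imJ_smul, Quaternion.imK_smul,
    smul_eq_mul, Nat.cast_one, Real.sqrt_one, g2_re, g2_imI, g2_imJ, g2_imK]
  have h1 : (1 + 1 / √L * 0) ^ 2 + (0 + 1 / √L * x) ^ 2 + (0 + 1 / √L * y) ^ 2 +
      (0 + 1 / √L * 0) ^ 2 = 1 + (x ^ 2 + y ^ 2) / √L ^ 2 := by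
    field_simp
    ring
  rw [h1, h, hs]
  field_simp

private theorem steer_norm {a b : ℕ → ℝ} (h : Unit2 a b) (m : ℕ) :
    normSq (X a b 1 m) = (m : ℝ) + 1 := by
  induction m with
  | zero => simp [X]
  | succ m ih =>
    rw [X, map_mul, ih, show gam a b m = g2 (a m) (b m) from rfl]
    have hm : (0 : ℝ) < (m : ℝ) + 1 := by positivity
    rw [steer_factor hm (h m)]
    push_cast
    field_simp

/-- one step -/
private theorem steer_step {ω L : ℝ} (hL : 1 ≤ L) (hω : L + 4 ≤ ω) {V : ℍ[ℝ]}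
    (hn : normSq V = L * ω) (hre : V.re = L + 1) (hk : V.imK ^ 2 ≤ ω - 5) :
    ∃ x y : ℝ, x ^ 2 + y ^ 2 = 1 ∧
      (V * (1 + (√((1 : ℕ) : ℝ) / √L) • g2 x y)).re = L + 2 ∧
      (V * (1 + (√((1 : ℕ) : ℝ) / √L) • g2 x y)).imK ^ 2 ≤ ω - 5 := by
  have hL0 : 0 < L := by linarith
  have hs : √L ^ 2 = L := Real.sq_sqrt hL0.le
  have hspos : 0 < √L := Real.sqrt_pos.2 hL0
  rw [Quaternion.normSq_def', hre] at hn
  set v1 := V.imI with hv1
  set v2 := V.imJ with hv2
  set v3 := V.imK with hv3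
  -- the size of the step
  set Q : ℝ := (v1 ^ 2 + v2 ^ 2 - L) / L with hQ
  have hρ : v1 ^ 2 + v2 ^ 2 = L * ω - (L + 1) ^ 2 - v3 ^ 2 := by linarith
  have hQ1 : L * Q = v1 ^ 2 + v2 ^ 2 - L := by
    rw [hQ]
    field_simp
  have hQ0 : 0 ≤ Q := by
    have h1 : 0 ≤ L * Q := by
      rw [hQ1, hρ]
      nlinarith [mul_nonneg (sub_nonneg.2 hL) (sub_nonneg.2 hω)]
    exact nonneg_of_mul_nonneg_right h1 hL0
  have hQ2 : Q ≤ ω - 5 := by
    have h1 : L * Q ≤ L * (ω - 5) := by
      rw [hQ1, hρ]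
      nlinarith [sq_nonneg (L - 1), sq_nonneg v3]
    exact le_of_mul_le_mul_left h1 hL0
  obtain ⟨J, hJ, hJv⟩ : ∃ J : ℝ, J ^ 2 = Q ∧ v3 * J ≤ 0 := by
    rcases le_total 0 v3 with h | h
    · refine ⟨-√Q, ?_, ?_⟩
      · rw [neg_sq, Real.sq_sqrt hQ0]
      · have := mul_nonneg h (Real.sqrt_nonneg Q)
        linarith
    · refine ⟨√Q, Real.sq_sqrt hQ0, ?_⟩
      have := mul_nonneg (neg_nonneg.2 h) (Real.sqrt_nonneg Q)
      linarith
  set R : ℝ := v1 ^ 2 + v2 ^ 2 with hR
  have hRpos : 0 < R := by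
    have : 0 ≤ L * Q := mul_nonneg hL0.le hQ0
    linarith
  have hRJ : R = L + L * J ^ 2 := by
    rw [hJ]
    linarith
  refine ⟨(v1 * (-√L) - v2 * (J * √L)) / R, (v2 * (-√L) + v1 * (J * √L)) / R, ?_, ?_, ?_⟩
  · have h1 : ((v1 * (-√L) - v2 * (J * √L)) / R) ^ 2 + ((v2 * (-√L) + v1 * (J * √L)) / R) ^ 2 =
        ((v1 ^ 2 + v2 ^ 2) * (√L ^ 2 + √L ^ 2 * J ^ 2)) / R ^ 2 := by
      field_simp
      ring
    rw [h1, hs, ← hR, ← hRJ]
    field_simp
  · simp only [Quaternion.re_mul, Quaternion.re_add, Quaternion.imI_add, Quaternion.imJ_add,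
      Quaternion.imK_add, Quaternion.re_one, Quaternion.imI_one, Quaternion.imJ_one,
      Quaternion.imK_one, Quaternion.re_smul, Quaternion.imI_smul, Quaternion.imJ_smul,
      Quaternion.imK_smul, smul_eq_mul, Nat.cast_one, Real.sqrt_one, g2_re, g2_imI, g2_imJ, g2_imK]
    rw [hre, ← hv1, ← hv2, ← hv3]
    have h1 : v1 * ((v1 * (-√L) - v2 * (J * √L)) / R) + v2 * ((v2 * (-√L) + v1 * (J * √L)) / R) =
        -√L * (v1 ^ 2 + v2 ^ 2) / R := by
      field_simp
      ring
    have h2 : -√L * (v1 ^ 2 + v2 ^ 2) / R = -√L := by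
      rw [← hR]
      field_simp
    have h3 : (L + 1) * (1 + 1 / √L * 0) - v1 * (0 + 1 / √L * ((v1 * (-√L) - v2 * (J * √L)) / R)) -
        v2 * (0 + 1 / √L * ((v2 * (-√L) + v1 * (J * √L)) / R)) - v3 * (0 + 1 / √L * 0) =
        (L + 1) - 1 / √L * (v1 * ((v1 * (-√L) - v2 * (J * √L)) / R) +
          v2 * ((v2 * (-√L) + v1 * (J * √L)) / R)) := by ring
    rw [h3, h1, h2]
    field_simp
    ring
  · have h0 : (V * (1 + (√((1 : ℕ) : ℝ) / √L) • g2 ((v1 * (-√L) - v2 * (J * √L)) / R)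
        ((v2 * (-√L) + v1 * (J * √L)) / R))).imK = v3 + J := by
      simp only [Quaternion.imK_mul, Quaternion.re_add, Quaternion.imI_add, Quaternion.imJ_add,
        Quaternion.imK_add, Quaternion.re_one, Quaternion.imI_one, Quaternion.imJ_one,
        Quaternion.imK_one, Quaternion.re_smul, Quaternion.imI_smul, Quaternion.imJ_smul,
        Quaternion.imK_smul, smul_eq_mul, Nat.cast_one, Real.sqrt_one, g2_re, g2_imI, g2_imJ, g2_imK]
      rw [hre, ← hv1, ← hv2, ← hv3]
      have h1 : v1 * ((v2 * (-√L) + v1 * (J * √L)) / R) - v2 * ((v1 * (-√L) - v2 * (J * √L)) / R) =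
          J * √L * (v1 ^ 2 + v2 ^ 2) / R := by
        field_simp
        ring
      have h2 : J * √L * (v1 ^ 2 + v2 ^ 2) / R = J * √L := by
        rw [← hR]
        field_simp
      have h3 : (L + 1) * (0 + 1 / √L * 0) + v1 * (0 + 1 / √L * ((v2 * (-√L) + v1 * (J * √L)) / R)) -
          v2 * (0 + 1 / √L * ((v1 * (-√L) - v2 * (J * √L)) / R)) + v3 * (1 + 1 / √L * 0) =
          v3 + 1 / √L * (v1 * ((v2 * (-√L) + v1 * (J * √L)) / R) -
            v2 * ((v1 * (-√L) - v2 * (J * √L)) / R)) := by ring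
      rw [h3, h1, h2]
      field_simp
    rw [h0]
    have h1 : (v3 + J) ^ 2 ≤ max (v3 ^ 2) (J ^ 2) := by
      rcases le_total (v3 ^ 2) (J ^ 2) with h | h
      · rw [max_eq_right h]
        -- `v3 ^ 2 + 2 v3 J ≤ 0`
        have h2 : v3 ^ 2 ≤ - (v3 * J) := by
          have h3 : |v3| ≤ |J| := sq_le_sq.1 h
          have h4 : |v3| * |v3| ≤ |v3| * |J| := mul_le_mul_of_nonneg_left h3 (abs_nonneg _)
          rw [abs_mul_abs_self, ← abs_mul, abs_of_nonpos hJv] at h4
          linarith [sq v3]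
        nlinarith
      · rw [max_eq_left h]
        have h2 : J ^ 2 ≤ - (v3 * J) := by
          have h3 : |J| ≤ |v3| := sq_le_sq.1 h
          have h4 : |J| * |J| ≤ |v3| * |J| := mul_le_mul_of_nonneg_right h3 (abs_nonneg _)
          rw [abs_mul_abs_self, ← abs_mul, abs_of_nonpos hJv] at h4
          linarith [sq J]
        nlinarith
    refine h1.trans (max_le hk ?_)
    rw [hJ]
    exact hQ2

private noncomputable def w0 (t : ℝ) : ℍ[ℝ] := ⟨2, t, 0, 0⟩

private theorem steer_aux (ω : ℝ) (h5 : 5 ≤ ω) (w : ℍ[ℝ]) (hw : normSq w = ω) (hwr : w.re = 2)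
    (hwk : w.imK = 0) (N : ℕ) (hN : (N : ℝ) + 4 ≤ ω) :
    ∃ a b : ℕ → ℝ, Unit2 a b ∧ (∀ m ≤ N, (star w * X a b 1 m).re = (m : ℝ) + 2) ∧
      (star w * X a b 1 N).imK ^ 2 ≤ ω - 5 := by
  induction N with
  | zero =>
    refine ⟨fun _ => 1, fun _ => 0, fun m => by norm_num, ?_, ?_⟩
    · intro m hm
      have : m = 0 := by omega
      subst this
      simp [X, hwr]
    · simp only [X, mul_one, Quaternion.imK_star, hwk]
      linarith
  | succ N ih =>
    push_cast at hN
    obtain ⟨a, b, hab, h1, h2⟩ := ih (by linarith)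
    have hn : normSq (star w * X a b 1 N) = ((N : ℝ) + 1) * ω := by
      rw [map_mul, Quaternion.normSq_star, hw, steer_norm hab]
      ring
    have hre : (star w * X a b 1 N).re = ((N : ℝ) + 1) + 1 := by
      rw [h1 N le_rfl]
      ring
    obtain ⟨x, y, hxy, h3, h4⟩ := steer_step (ω := ω) (L := (N : ℝ) + 1)
      (by linarith [Nat.cast_nonneg (α := ℝ) N]) (by linarith) hn hre h2
    have hX : ∀ m ≤ N, X (Function.update a N x) (Function.update b N y) 1 m = X a b 1 m := by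
      intro m hm
      apply steer_congr
      · intro l hl
        exact Function.update_of_ne (by omega) _ _
      · intro l hl
        exact Function.update_of_ne (by omega) _ _
    have hX1 : star w * X (Function.update a N x) (Function.update b N y) 1 (N + 1) =
        (star w * X a b 1 N) *
          (1 + (√((1 : ℕ) : ℝ) / √((N : ℝ) + 1)) • g2 x y) := by
      rw [X, hX N le_rfl, mul_assoc, show gam (Function.update a N x) (Function.update b N y) N =
        g2 (Function.update a N x N) (Function.update b N y N) from rfl,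
        Function.update_self, Function.update_self]
    refine ⟨Function.update a N x, Function.update b N y, ?_, ?_, ?_⟩
    · intro m
      by_cases hm : m = N
      · subst hm
        rw [Function.update_self, Function.update_self]
        exact hxy
      · rw [Function.update_of_ne hm, Function.update_of_ne hm]
        exact hab m
    · intro m hm
      rcases Nat.lt_or_ge m (N + 1) with h | h
      · rw [hX m (by omega)]
        exact h1 m (by omega)
      · have : m = N + 1 := by omega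
        subst this
        rw [hX1, h3]
        push_cast
        ring
    · rw [hX1]
      exact h4

theorem steer (ω : ℝ) (M : ℕ) (hM : 1 ≤ M) (hω : (M : ℝ) + 3 ≤ ω) :
    ∃ a b : ℕ → ℝ, Unit2 a b ∧ ∃ w : ℍ[ℝ], normSq w = ω ∧
      ∀ m < M, (star w * X a b 1 m).re = (m : ℝ) + 2 := by
  have hM' : (1 : ℝ) ≤ (M : ℝ) := by exact_mod_cast hM
  have hw : normSq (w0 √(ω - 4)) = ω := by
    rw [Quaternion.normSq_def']
    change (2 : ℝ) ^ 2 + √(ω - 4) ^ 2 + 0 ^ 2 + 0 ^ 2 = ω
    rw [Real.sq_sqrt (by linarith)]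
    ring
  rcases Nat.lt_or_ge M 2 with h | h
  · refine ⟨fun _ => 1, fun _ => 0, fun m => by norm_num, w0 √(ω - 4), hw, ?_⟩
    intro m hm
    have : m = 0 := by omega
    subst this
    rw [X, mul_one, Quaternion.re_star]
    change (2 : ℝ) = _
    norm_num
  · have h2 : (2 : ℝ) ≤ (M : ℝ) := by exact_mod_cast h
    have hc : ((M - 1 : ℕ) : ℝ) = (M : ℝ) - 1 := by
      rw [Nat.cast_sub hM, Nat.cast_one]
    obtain ⟨a, b, hab, h1, -⟩ := steer_aux ω (by linarith) (w0 √(ω - 4)) hw rfl rfl (M - 1)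
      (by rw [hc]; linarith)
    exact ⟨a, b, hab, w0 √(ω - 4), hw, fun m hm => h1 m (by omega)⟩

end Pool.Agent.OddDiam
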