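import Pool.Agent.OddDiam.Identity
import Pool.Agent.OddDiam.LinAlg
import Pool.Agent.OddDiam.Steer

/-! # MP_f155e9_co, odd diameter: the dimension count for sizes in `[s + 1, n - s - 1]` -/

set_option autoImplicit false

namespace Pool.Agent.OddDiam

open Finset Quaternion

variable {α : Type*} [Fintype α] [DecidableEq α]

/-- number of `t`-sets between `P` and `Q` -/
private lemma mc_between {P Q : Finset α} (h : P ⊆ Q) {t : ℕ} (ht : P.card ≤ t) :
    ((powersetCard t (univ : Finset α)).filter (fun T => P ⊆ T ∧ T ⊆ Q)).card =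
      (Q.card - P.card).choose (t - P.card) := by
  rw [← card_sdiff_of_subset h, ← card_powersetCard]
  refine card_bij' (fun T _ => T \ P) (fun T _ => T ∪ P) ?_ ?_ ?_ ?_
  · intro T hT
    simp only [mem_filter, mem_powersetCard, subset_univ, true_and] at hT ⊢
    refine ⟨sdiff_subset_sdiff hT.2.2 (Subset.refl P), ?_⟩
    rw [card_sdiff_of_subset hT.2.1, hT.1]
  · intro T hT
    simp only [mem_filter, mem_powersetCard, subset_univ, true_and] at hT ⊢
    refine ⟨?_, subset_union_right, union_subset (hT.1.trans sdiff_subset) h⟩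
    rw [card_union_of_disjoint, hT.2]
    · omega
    · exact (sdiff_disjoint (s := P) (t := Q)).mono_left hT.1
  · intro T hT
    simp only [mem_filter, mem_powersetCard, subset_univ, true_and] at hT
    exact sdiff_union_of_subset hT.2.1
  · intro T hT
    simp only [mem_powersetCard] at hT
    rw [union_sdiff_right]
    exact sdiff_eq_self_of_disjoint
      ((sdiff_disjoint (s := P) (t := Q)).mono_left hT.1)

private lemma mc_swap {ι κ : Type*} (P : Finset ι) (Q : Finset κ) (r : ι → κ → Prop)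
    [∀ x y, Decidable (r x y)] (φ : ι → ℝ) (ψ : κ → ℝ) :
    ∑ x ∈ P, φ x * ∑ y ∈ Q with r x y, ψ y = ∑ y ∈ Q, (∑ x ∈ P with r x y, φ x) * ψ y := by
  simp only [sum_filter, mul_sum, sum_mul]
  rw [sum_comm]
  refine sum_congr rfl fun y _ => sum_congr rfl fun x _ => ?_
  split_ifs <;> simp

/-- sum over `U ⊆ T` of sums over `T` -/
private lemma mc_swap1 {ι κ : Type*} (P : Finset ι) (Q : Finset κ) (r : ι → κ → Prop)
    [∀ x y, Decidable (r x y)] (p : ι → Prop) [DecidablePred p] (ψ : κ → ℝ) :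
    ∑ x ∈ P with p x, ∑ y ∈ Q with r x y, ψ y =
      ∑ y ∈ Q, ((P.filter (fun x => p x ∧ r x y)).card : ℝ) * ψ y := by
  have h := mc_swap (P.filter p) Q r (fun _ => 1) ψ
  simp only [one_mul, sum_const, nsmul_eq_mul, mul_one, filter_filter] at h
  exact h

/-- the sets of size `s - 2` -/
private def mcW (α : Type*) [Fintype α] [DecidableEq α] (s : ℕ) : Finset (Finset α) :=
  (univ : Finset (Finset α)).filter fun W => W.card + 2 = s

private lemma mcW_card (s : ℕ) : (mcW α s).card =
    if 2 ≤ s then (Fintype.card α).choose (s - 2) else 0 := by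
  split_ifs with h
  · have : mcW α s = powersetCard (s - 2) univ := by
      ext W
      simp only [mcW, mem_filter, mem_univ, true_and, mem_powersetCard, subset_univ]
      omega
    rw [this, card_powersetCard, card_univ]
  · rw [card_eq_zero, mcW, filter_eq_empty_iff]
    intro W _
    omega

private lemma mc_W_count {s : ℕ} {Y : Finset α} (U : Finset α) (hU : U.card = s - 1) (hs : 1 ≤ s)
    (hY : Y ⊆ U) :
    ((mcW α s).filter (fun W => W ⊆ Y)).card =
      if Y.card = s - 1 then s - 1 else if Y.card + 2 = s then 1 else 0 := by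
  rcases Nat.lt_or_ge s 2 with h2 | h2
  · have hs1 : s = 1 := by omega
    subst hs1
    have h0 : (mcW α 1).card = 0 := by rw [mcW_card]; simp
    rw [card_eq_zero] at h0
    rw [h0]
    have hY0 := card_le_card hY
    have : Y.card = 0 := by omega
    simp [this]
  · have h1 : (mcW α s).filter (fun W => W ⊆ Y) =
        (powersetCard (s - 2) (univ : Finset α)).filter (fun T => ∅ ⊆ T ∧ T ⊆ Y) := by
      ext W
      simp only [mcW, mem_filter, mem_univ, true_and, mem_powersetCard, subset_univ, empty_subset]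
      constructor
      · rintro ⟨h, h'⟩; exact ⟨by omega, h'⟩
      · rintro ⟨h, h'⟩; exact ⟨by omega, h'⟩
    rw [h1, mc_between (empty_subset Y) (by simp)]
    simp only [card_empty, Nat.sub_zero]
    have hY0 := card_le_card hY
    split_ifs with h3 h4
    · rw [h3]
      have : s - 1 = (s - 2) + 1 := by omega
      rw [this, Nat.choose_succ_self_right]
    · have : Y.card = s - 2 := by omega
      rw [this, Nat.choose_self]
    · exact Nat.choose_eq_zero_of_lt (by omega)

private lemma mc_T_count {s : ℕ} (X : Finset α) (hX : s ≤ X.card + 1) (hs : 1 ≤ s) :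
    ((powersetCard s (univ : Finset α)).filter (fun T => X ⊆ T)).card =
      if X.card = s - 1 then Fintype.card α - (s - 1) else if X.card = s then 1 else 0 := by
  by_cases h : X.card ≤ s
  · have h1 : (powersetCard s (univ : Finset α)).filter (fun T => X ⊆ T) =
        (powersetCard s (univ : Finset α)).filter (fun T => X ⊆ T ∧ T ⊆ univ) := by
      refine filter_congr fun T _ => ?_
      simp
    rw [h1, mc_between (subset_univ X) h, card_univ]
    split_ifs with h3 h4
    · rw [h3]
      have : s - (s - 1) = 1 := by omega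
      rw [this, Nat.choose_one_right]
    · rw [h4, Nat.sub_self, Nat.choose_zero_right]
    · omega
  · rw [if_neg (by omega), if_neg (by omega), card_eq_zero, filter_eq_empty_iff]
    intro T hT hXT
    rw [mem_powersetCard] at hT
    exact h (hT.2 ▸ card_le_card hXT)

/-- the operator identity -/
private lemma mc_op {s : ℕ} (hs : 1 ≤ s) (hn : 2 * s + 2 ≤ Fintype.card α) (g : Finset α → ℝ)
    {U : Finset α} (hU : U.card = s - 1) :
    ∑ T ∈ powersetCard s (univ : Finset α) with U ⊆ T,
      ∑ U' ∈ powersetCard (s - 1) (univ : Finset α) with U' ⊆ T, g U' =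
    ((Fintype.card α : ℝ) - 2 * s + 2) * g U + ∑ W ∈ mcW α s with W ⊆ U,
      ∑ U' ∈ powersetCard (s - 1) (univ : Finset α) with W ⊆ U', g U' := by
  rw [mc_swap1, mc_swap1]
  have hUm : U ∈ powersetCard (s - 1) (univ : Finset α) := by
    rw [mem_powersetCard]; exact ⟨subset_univ _, hU⟩
  have h1 : ((Fintype.card α : ℝ) - 2 * s + 2) * g U =
      ∑ U' ∈ powersetCard (s - 1) (univ : Finset α),
        (if U' = U then ((Fintype.card α : ℝ) - 2 * s + 2) else 0) * g U' := by
    simp only [ite_mul, zero_mul]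
    rw [sum_ite_eq' _ U, if_pos hUm]
  rw [h1, ← sum_add_distrib]
  refine sum_congr rfl fun U' hU' => ?_
  rw [mem_powersetCard] at hU'
  rw [← add_mul]
  congr 1
  have e1 : (powersetCard s (univ : Finset α)).filter (fun x => U ⊆ x ∧ U' ⊆ x) =
      (powersetCard s (univ : Finset α)).filter (fun x => U ∪ U' ⊆ x) :=
    filter_congr fun T _ => union_subset_iff.symm
  have e2 : (mcW α s).filter (fun x => x ⊆ U ∧ x ⊆ U') =
      (mcW α s).filter (fun x => x ⊆ U ∩ U') :=
    filter_congr fun T _ => subset_inter_iff.symm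
  have hcard := card_union_add_card_inter U U'
  have hle : U.card ≤ (U ∪ U').card := card_le_card subset_union_left
  rw [e1, e2, mc_T_count (U ∪ U') (by omega) hs, mc_W_count U hU hs inter_subset_left]
  by_cases hUU : U' = U
  · rw [hUU, if_pos rfl, union_self, inter_self, if_pos hU, if_pos hU]
    rw [Nat.cast_sub (by omega), Nat.cast_sub hs]
    push_cast
    ring
  · rw [if_neg hUU]
    have hne : (U ∩ U').card ≠ s - 1 := by
      intro h
      have h2 : U ∩ U' = U := eq_of_subset_of_card_le inter_subset_left (by omega)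
      have h3 : U ∩ U' = U' := eq_of_subset_of_card_le inter_subset_right (by omega)
      exact hUU (h3.symm.trans h2)
    have hle2 : (U ∩ U').card ≤ U.card := card_le_card inter_subset_left
    rw [if_neg hne, if_neg (by omega)]
    by_cases h4 : (U ∪ U').card = s
    · rw [if_pos h4, if_pos (by omega)]; simp
    · rw [if_neg h4, if_neg (by omega)]; simp

private lemma mc_re_sum {ι : Type*} (F : Finset ι) (w : ℍ[ℝ]) (c : ι → ℝ) (q : ι → ℍ[ℝ]) :
    (star w * ∑ A ∈ F, c A • q A).re = ∑ A ∈ F, c A * (star w * q A).re := by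
  rw [mul_sum]
  have h := map_sum (QuaternionAlgebra.reₗ (R := ℝ) (-1) 0 (-1)) (fun A => star w * c A • q A) F
  refine h.trans (sum_congr rfl fun A _ => ?_)
  change (star w * c A • q A).re = _
  rw [mul_smul_comm, re_smul, smul_eq_mul]

private lemma mc_sq_le (w v : ℍ[ℝ]) : (star w * v).re ^ 2 ≤ normSq w * normSq v := by
  have h : normSq (star w * v) = normSq w * normSq v := by
    rw [map_mul, normSq_star]
  rw [← h, normSq_def']
  nlinarith [sq_nonneg (star w * v).imI, sq_nonneg (star w * v).imJ, sq_nonneg (star w * v).imK]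

private lemma mc_core {s : ℕ} (hs : 1 ≤ s) {F : Finset (Finset α)}
    (hanti : IsAntichain (· ⊆ ·) (F : Set (Finset α)))
    (hdiam : ∀ A ∈ F, ∀ B ∈ F, (symmDiff A B).card ≤ 2 * s + 1)
    (hlo : ∀ A ∈ F, s + 1 ≤ A.card) (hhi : ∀ A ∈ F, A.card + s + 1 ≤ Fintype.card α)
    (hn : 2 * s + 2 ≤ Fintype.card α) {a b : ℕ → ℝ} (hab : Unit2 a b) (w : ℍ[ℝ])
    (hw : normSq w = (Fintype.card α : ℝ) - 2 * s + 2)
    (hst : ∀ m < Fintype.card α - 2 * s - 1, (star w * X a b 1 m).re = (m : ℝ) + 2)
    (f g : Finset α → ℝ)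
    (E1 : ∀ T ∈ powersetCard s (univ : Finset α), ∑ A ∈ F with T ⊆ A, f A =
      ∑ U ∈ powersetCard (s - 1) (univ : Finset α) with U ⊆ T, g U)
    (E3 : ∀ j ∈ Icc 1 (s / 2), ∀ T ∈ powersetCard (s - 2 * j) (univ : Finset α),
      ∑ A ∈ F with T ⊆ A, f A • X a b (2 * j) (A.card - s - 1) = 0) :
    (∀ A ∈ F, f A = 0) ∧ ∀ U ∈ powersetCard (s - 1) (univ : Finset α), g U = 0 := by
  set ω : ℝ := (Fintype.card α : ℝ) - 2 * s + 2 with hω
  have hω0 : 0 < ω := by
    have : ((2 * s + 2 : ℕ) : ℝ) ≤ Fintype.card α := by exact_mod_cast hn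
    push_cast at this
    rw [hω]; linarith
  set h : Finset α → ℝ := fun T => ∑ A ∈ F with T ⊆ A, f A with hh
  set G : Finset α → ℝ := fun U => ∑ T ∈ powersetCard s (univ : Finset α) with U ⊆ T, h T with hGd
  set dg : Finset α → ℝ := fun W =>
    ∑ U ∈ powersetCard (s - 1) (univ : Finset α) with W ⊆ U, g U with hdg
  set V : Finset α → ℍ[ℝ] := fun U =>
    ∑ A ∈ F with U ⊆ A, f A • X a b 1 (A.card - s - 1) with hV
  have hG : ∀ U ∈ powersetCard (s - 1) (univ : Finset α),
      G U = ω * g U + ∑ W ∈ mcW α s with W ⊆ U, dg W := by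
    intro U hU
    rw [mem_powersetCard] at hU
    rw [hω, ← mc_op hs hn g hU.2]
    refine sum_congr rfl fun T hT => E1 T (mem_filter.1 hT).1
  have hsum1 : ∑ T ∈ powersetCard s (univ : Finset α), h T ^ 2 =
      ∑ U ∈ powersetCard (s - 1) (univ : Finset α), G U * g U := by
    rw [hGd, ← mc_swap (powersetCard s (univ : Finset α)) (powersetCard (s - 1) (univ : Finset α))
      (fun T U => U ⊆ T) h g]
    refine sum_congr rfl fun T hT => ?_
    rw [sq, ← E1 T hT]
  have hsum2 : ω * ∑ U ∈ powersetCard (s - 1) (univ : Finset α), G U * g U ≤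
      ∑ U ∈ powersetCard (s - 1) (univ : Finset α), G U ^ 2 := by
    have e := mc_swap (powersetCard (s - 1) (univ : Finset α)) (mcW α s) (fun U W => W ⊆ U) g dg
    have e1 : ∑ U ∈ powersetCard (s - 1) (univ : Finset α), G U ^ 2 =
        ω * ∑ U ∈ powersetCard (s - 1) (univ : Finset α), G U * g U +
        ω * ∑ U ∈ powersetCard (s - 1) (univ : Finset α),
          g U * ∑ W ∈ mcW α s with W ⊆ U, dg W +
        ∑ U ∈ powersetCard (s - 1) (univ : Finset α),
          (∑ W ∈ mcW α s with W ⊆ U, dg W) ^ 2 := by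
      rw [mul_sum, mul_sum, ← sum_add_distrib, ← sum_add_distrib]
      refine sum_congr rfl fun U hU => ?_
      linear_combination (G U + ∑ W ∈ mcW α s with W ⊆ U, dg W) * hG U hU
    have e2 : ∑ U ∈ powersetCard (s - 1) (univ : Finset α),
        g U * ∑ W ∈ mcW α s with W ⊆ U, dg W = ∑ W ∈ mcW α s, dg W ^ 2 := by
      rw [e]
      exact sum_congr rfl fun W _ => by rw [sq]
    have e3 : 0 ≤ ω * ∑ W ∈ mcW α s, dg W ^ 2 :=
      mul_nonneg hω0.le (sum_nonneg fun W _ => sq_nonneg _)
    have e4 : 0 ≤ ∑ U ∈ powersetCard (s - 1) (univ : Finset α),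
        (∑ W ∈ mcW α s with W ⊆ U, dg W) ^ 2 := sum_nonneg fun U _ => sq_nonneg _
    rw [e1, e2]
    linarith
  have hsum3 : ∑ U ∈ powersetCard (s - 1) (univ : Finset α), G U * g U =
      ω * ∑ U ∈ powersetCard (s - 1) (univ : Finset α), g U ^ 2 + ∑ W ∈ mcW α s, dg W ^ 2 := by
    have e := mc_swap (powersetCard (s - 1) (univ : Finset α)) (mcW α s) (fun U W => W ⊆ U) g dg
    calc ∑ U ∈ powersetCard (s - 1) (univ : Finset α), G U * g U =
        ∑ U ∈ powersetCard (s - 1) (univ : Finset α),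
          (ω * g U ^ 2 + g U * ∑ W ∈ mcW α s with W ⊆ U, dg W) := by
          refine sum_congr rfl fun U hU => ?_
          rw [hG U hU]
          ring
      _ = _ := by
        rw [sum_add_distrib, e, mul_sum]
        congr 1
        refine sum_congr rfl fun W _ => ?_
        rw [sq]
  have hGV : ∀ U ∈ powersetCard (s - 1) (univ : Finset α), G U = (star w * V U).re := by
    intro U hU
    rw [mem_powersetCard] at hU
    rw [hGd, hV, mc_re_sum]
    simp only [hh]
    rw [mc_swap1 (powersetCard s (univ : Finset α)) F (fun T A => T ⊆ A) (fun T => U ⊆ T) f,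
      sum_filter]
    refine sum_congr rfl fun A hA => ?_
    by_cases hUA : U ⊆ A
    · rw [if_pos hUA, mc_between hUA (by omega), hst _ (by have := hhi A hA; have := hlo A hA; omega)]
      have e1 : s - U.card = 1 := by omega
      have h1 := hlo A hA
      rw [e1, Nat.choose_one_right, hU.2]
      have e2 : A.card - (s - 1) = (A.card - s - 1) + 2 := by omega
      rw [e2]
      push_cast
      ring
    · rw [if_neg hUA]
      have : (powersetCard s (univ : Finset α)).filter (fun T => U ⊆ T ∧ T ⊆ A) = ∅ := by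
        rw [filter_eq_empty_iff]
        rintro T _ ⟨h1, h2⟩
        exact hUA (h1.trans h2)
      rw [this]
      simp
  have hGle : ∑ U ∈ powersetCard (s - 1) (univ : Finset α), G U ^ 2 ≤
      ω * ∑ U ∈ powersetCard (s - 1) (univ : Finset α), normSq (V U) := by
    rw [mul_sum]
    refine sum_le_sum fun U hU => ?_
    rw [hGV U hU, ← hw]
    exact mc_sq_le w (V U)
  have hTV : ∑ T ∈ powersetCard s (univ : Finset α), h T ^ 2 ≤
      ∑ U ∈ powersetCard (s - 1) (univ : Finset α), normSq (V U) := by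
    rw [hsum1]
    exact le_of_mul_le_mul_left (hsum2.trans hGle) hω0
  have hid := identity hanti hdiam hlo hab f
  have hle : ∑ A ∈ F, f A ^ 2 ≤ ∑ T ∈ powersetCard s (univ : Finset α), h T ^ 2 -
      ∑ U ∈ powersetCard (s - 1) (univ : Finset α), normSq (V U) := by
    rw [hid]
    have e : s + 1 = (s - 1) + 1 + 1 := by omega
    rw [e, sum_range_succ', sum_range_succ']
    have h0 : (-1 : ℝ) ^ 0 * ∑ T ∈ powersetCard (s - 0) (univ : Finset α),
        normSq (∑ A ∈ F with T ⊆ A, f A • X a b 0 (A.card - s - 1)) =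
        ∑ T ∈ powersetCard s (univ : Finset α), h T ^ 2 := by
      rw [pow_zero, one_mul, Nat.sub_zero]
      refine sum_congr rfl fun T _ => ?_
      simp only [X_zero]
      rw [← sum_smul, normSq_smul, map_one, mul_one]
    have h1 : (-1 : ℝ) ^ (0 + 1) * ∑ T ∈ powersetCard (s - (0 + 1)) (univ : Finset α),
        normSq (∑ A ∈ F with T ⊆ A, f A • X a b (0 + 1) (A.card - s - 1)) =
        - ∑ U ∈ powersetCard (s - 1) (univ : Finset α), normSq (V U) := by
      rw [zero_add, pow_one, neg_one_mul]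
    have h2 : ∑ k ∈ range (s - 1), (-1 : ℝ) ^ (k + 1 + 1) *
        ∑ T ∈ powersetCard (s - (k + 1 + 1)) (univ : Finset α),
        normSq (∑ A ∈ F with T ⊆ A, f A • X a b (k + 1 + 1) (A.card - s - 1)) ≤ 0 := by
      refine sum_nonpos fun k hk => ?_
      rw [mem_range] at hk
      rcases Nat.even_or_odd' (k + 1 + 1) with ⟨j, hj | hj⟩
      · have hz : ∑ T ∈ powersetCard (s - (k + 1 + 1)) (univ : Finset α),
            normSq (∑ A ∈ F with T ⊆ A, f A • X a b (k + 1 + 1) (A.card - s - 1)) = 0 := by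
          refine sum_eq_zero fun T hT => ?_
          rw [hj] at hT ⊢
          rw [E3 j (mem_Icc.2 ⟨by omega, by omega⟩) T hT, map_zero]
        rw [hz, mul_zero]
      · rw [Odd.neg_one_pow ⟨j, hj⟩, neg_one_mul]
        exact neg_nonpos.2 (sum_nonneg fun T _ => normSq_nonneg)
    rw [h0, h1]
    linarith
  have hf2 : ∑ A ∈ F, f A ^ 2 = 0 :=
    le_antisymm (by linarith) (sum_nonneg fun A _ => sq_nonneg _)
  have hf : ∀ A ∈ F, f A = 0 := by
    intro A hA
    have := (sum_eq_zero_iff_of_nonneg fun A _ => sq_nonneg (f A)).1 hf2 A hA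
    exact pow_eq_zero_iff (two_ne_zero) |>.1 this
  refine ⟨hf, ?_⟩
  have hh0 : ∀ T, h T = 0 := fun T => sum_eq_zero fun A hA => hf A (mem_filter.1 hA).1
  have hg2 : ω * ∑ U ∈ powersetCard (s - 1) (univ : Finset α), g U ^ 2 = 0 := by
    have e1 : ∑ T ∈ powersetCard s (univ : Finset α), h T ^ 2 = 0 :=
      sum_eq_zero fun T _ => by rw [hh0]; ring
    rw [hsum1, hsum3] at e1
    have e2 : 0 ≤ ω * ∑ U ∈ powersetCard (s - 1) (univ : Finset α), g U ^ 2 :=
      mul_nonneg hω0.le (sum_nonneg fun U _ => sq_nonneg _)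
    have e3 : 0 ≤ ∑ W ∈ mcW α s, dg W ^ 2 := sum_nonneg fun U _ => sq_nonneg _
    linarith
  intro U hU
  have hg3 := (mul_eq_zero.1 hg2).resolve_left hω0.ne'
  have := (sum_eq_zero_iff_of_nonneg fun U _ => sq_nonneg (g U)).1 hg3 U hU
  exact pow_eq_zero_iff (two_ne_zero) |>.1 this

private def mcC (q : ℍ[ℝ]) : Fin 4 → ℝ := ![q.re, q.imI, q.imJ, q.imK]

private lemma mcC_sum {ι : Type*} (F : Finset ι) (c : ι → ℝ) (q : ι → ℍ[ℝ]) (i : Fin 4) :
    mcC (∑ A ∈ F, c A • q A) i = ∑ A ∈ F, mcC (q A) i * c A := by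
  fin_cases i
  · refine (map_sum (QuaternionAlgebra.reₗ (R := ℝ) (-1) 0 (-1)) (fun A => c A • q A) F).trans
      (sum_congr rfl fun A _ => ?_)
    exact mul_comm _ _
  · refine (map_sum (QuaternionAlgebra.imIₗ (R := ℝ) (-1) 0 (-1)) (fun A => c A • q A) F).trans
      (sum_congr rfl fun A _ => ?_)
    exact mul_comm _ _
  · refine (map_sum (QuaternionAlgebra.imJₗ (R := ℝ) (-1) 0 (-1)) (fun A => c A • q A) F).trans
      (sum_congr rfl fun A _ => ?_)
    exact mul_comm _ _
  · refine (map_sum (QuaternionAlgebra.imKₗ (R := ℝ) (-1) 0 (-1)) (fun A => c A • q A) F).trans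
      (sum_congr rfl fun A _ => ?_)
    exact mul_comm _ _

private lemma mcC_zero {q : ℍ[ℝ]} (h : ∀ i, mcC q i = 0) : q = 0 :=
  Quaternion.ext q 0 (h 0) (h 1) (h 2) (h 3)

/-- the coefficients of the linear equations -/
private noncomputable def mcM (s : ℕ) (a b : ℕ → ℝ) :
    (Finset α ⊕ ((Σ _ : ℕ, Finset α) × Fin 4)) → (Finset α ⊕ Finset α) → ℝ
  | Sum.inl T, Sum.inl A => if T ⊆ A then 1 else 0
  | Sum.inl T, Sum.inr U => if U ⊆ T then -1 else 0
  | Sum.inr p, Sum.inl A =>
    if p.1.2 ⊆ A then mcC (X a b (2 * p.1.1) (A.card - s - 1)) p.2 else 0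
  | Sum.inr _, Sum.inr _ => 0

/-- the dimension count, sharp form -/
theorem middle_count_sharp {s : ℕ} (hs : 1 ≤ s) {F : Finset (Finset α)}
    (hanti : IsAntichain (· ⊆ ·) (F : Set (Finset α)))
    (hdiam : ∀ A ∈ F, ∀ B ∈ F, (symmDiff A B).card ≤ 2 * s + 1)
    (hlo : ∀ A ∈ F, s + 1 ≤ A.card) (hhi : ∀ A ∈ F, A.card + s + 1 ≤ Fintype.card α)
    (hn : 2 * s + 2 ≤ Fintype.card α) :
    F.card + (Fintype.card α).choose (s - 1) ≤ (Fintype.card α).choose s +
      4 * ∑ j ∈ Icc 1 (s / 2), (Fintype.card α).choose (s - 2 * j) := by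
  by_contra hcon
  rw [not_le] at hcon
  obtain ⟨a, b, hab, w, hw, hst⟩ := steer ((Fintype.card α : ℝ) - 2 * s + 2)
    (Fintype.card α - 2 * s - 1) (by omega) (by
      rw [Nat.cast_sub (by omega), Nat.cast_sub (by omega)]
      push_cast
      linarith)
  let I : Finset (Finset α ⊕ ((Σ _ : ℕ, Finset α) × Fin 4)) :=
    (powersetCard s (univ : Finset α)).disjSum
      (((Icc 1 (s / 2)).sigma fun j => powersetCard (s - 2 * j) (univ : Finset α)) ×ˢ
        (univ : Finset (Fin 4)))
  have hI : I.card < (F.disjSum (powersetCard (s - 1) (univ : Finset α))).card := by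
    simp only [I, card_disjSum, card_product, card_sigma, card_powersetCard, card_univ,
      Fintype.card_fin]
    omega
  obtain ⟨v, ⟨x0, hx0, hv0⟩, hv⟩ := exists_kernel _ I (mcM s a b) hI
  have hv' : ∀ i ∈ I, ∑ A ∈ F, mcM s a b i (Sum.inl A) * v (Sum.inl A) +
      ∑ U ∈ powersetCard (s - 1) (univ : Finset α), mcM s a b i (Sum.inr U) * v (Sum.inr U) =
      0 := by
    intro i hi
    rw [← hv i hi, sum_disjSum]
  have E1 : ∀ T ∈ powersetCard s (univ : Finset α), ∑ A ∈ F with T ⊆ A, v (Sum.inl A) =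
      ∑ U ∈ powersetCard (s - 1) (univ : Finset α) with U ⊆ T, v (Sum.inr U) := by
    intro T hT
    have h := hv' (Sum.inl T) (by simp only [I, inl_mem_disjSum]; exact hT)
    simp only [mcM, ite_mul, one_mul, zero_mul, neg_mul, ← sum_filter, sum_neg_distrib] at h
    linarith
  have E3 : ∀ j ∈ Icc 1 (s / 2), ∀ T ∈ powersetCard (s - 2 * j) (univ : Finset α),
      ∑ A ∈ F with T ⊆ A, v (Sum.inl A) • X a b (2 * j) (A.card - s - 1) = 0 := by
    intro j hj T hT
    refine mcC_zero fun i => ?_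
    have h := hv' (Sum.inr (⟨j, T⟩, i)) (by
      simp only [I, inr_mem_disjSum, mem_product, mem_sigma, mem_univ, and_true]
      exact ⟨hj, hT⟩)
    simp only [mcM, zero_mul, sum_const_zero, add_zero, ite_mul, ← sum_filter] at h
    rw [mcC_sum]
    exact h
  obtain ⟨h1, h2⟩ := mc_core hs hanti hdiam hlo hhi hn hab w hw hst (fun A => v (Sum.inl A))
    (fun U => v (Sum.inr U)) E1 E3
  rw [mem_disjSum] at hx0
  rcases hx0 with ⟨A, hA, rfl⟩ | ⟨U, hU, rfl⟩
  · exact hv0 (h1 A hA)
  · exact hv0 (h2 U hU)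

/-- the dimension count -/
theorem middle_count {s : ℕ} (hs : 1 ≤ s) {F : Finset (Finset α)}
    (hanti : IsAntichain (· ⊆ ·) (F : Set (Finset α)))
    (hdiam : ∀ A ∈ F, ∀ B ∈ F, (symmDiff A B).card ≤ 2 * s + 1)
    (hlo : ∀ A ∈ F, s + 1 ≤ A.card) (hhi : ∀ A ∈ F, A.card + s + 1 ≤ Fintype.card α)
    (hn : 2 * s + 2 ≤ Fintype.card α) :
    F.card + (Fintype.card α).choose (s - 1) ≤ (Fintype.card α).choose s +
      (if 2 ≤ s then (Fintype.card α).choose (s - 2) else 0) +
      4 * ∑ j ∈ Icc 1 (s / 2), (Fintype.card α).choose (s - 2 * j) := by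
  have h := middle_count_sharp hs hanti hdiam hlo hhi hn
  omega

end Pool.Agent.OddDiam
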