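import Mathlib

/-! # MP_f155e9_co, odd diameter: the zero pattern -/

set_option autoImplicit false

namespace Pool.Agent.OddDiam

open Finset

private lemma pattern_vand (M : ℕ) : ∀ t y : ℕ,
    ∑ l ∈ range (t + 1), (-1 : ℝ) ^ l * ((M + l).choose l : ℝ) *
      ((y + M + 1).choose (t - l) : ℝ) = (y.choose t : ℝ) := by
  induction M with
  | zero =>
    intro t
    induction t with
    | zero =>
      intro y
      simp
    | succ t iht =>
      intro y
      rw [sum_range_succ']
      have h1 : ∑ l ∈ range (t + 1), (-1 : ℝ) ^ (l + 1) * ((0 + (l + 1)).choose (l + 1) : ℝ) *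
          ((y + 0 + 1).choose (t + 1 - (l + 1)) : ℝ) = -(y.choose t : ℝ) := by
        rw [← iht y, ← sum_neg_distrib]
        refine sum_congr rfl fun l _ => ?_
        rw [Nat.zero_add, Nat.choose_self, Nat.zero_add, Nat.choose_self, Nat.add_sub_add_right,
          pow_succ]
        ring
      rw [h1]
      have h2 : ((y + 1).choose (t + 1) : ℝ) = (y.choose t : ℝ) + (y.choose (t + 1) : ℝ) := by
        exact_mod_cast Nat.choose_succ_succ y t
      simp only [pow_zero, Nat.add_zero, Nat.choose_zero_right, Nat.cast_one, mul_one, one_mul,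
        Nat.sub_zero]
      rw [h2]
      ring
  | succ M ih =>
    intro t
    induction t with
    | zero =>
      intro y
      simp
    | succ t iht =>
      intro y
      have h0 := ih (t + 1) (y + 1)
      rw [sum_range_succ'] at h0 ⊢
      have h1 : ∑ l ∈ range (t + 1), (-1 : ℝ) ^ (l + 1) * ((M + 1 + (l + 1)).choose (l + 1) : ℝ) *
          ((y + (M + 1) + 1).choose (t + 1 - (l + 1)) : ℝ) =
          ∑ l ∈ range (t + 1), (-1 : ℝ) ^ (l + 1) * ((M + (l + 1)).choose (l + 1) : ℝ) *
            ((y + 1 + M + 1).choose (t + 1 - (l + 1)) : ℝ) - (y.choose t : ℝ) := by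
        rw [← iht y, ← sum_sub_distrib]
        refine sum_congr rfl fun l _ => ?_
        have h2 : ((M + 1 + (l + 1)).choose (l + 1) : ℝ) =
            ((M + 1 + l).choose l : ℝ) + ((M + (l + 1)).choose (l + 1) : ℝ) := by
          have := Nat.choose_succ_succ (M + 1 + l) l
          have h3 : M + (l + 1) = M + 1 + l := by omega
          rw [h3]
          exact_mod_cast this
        rw [h2, Nat.add_sub_add_right, pow_succ]
        have h4 : y + 1 + M + 1 = y + (M + 1) + 1 := by omega
        rw [h4]
        ring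
      rw [h1]
      have h2 : ((y + 1).choose (t + 1) : ℝ) = (y.choose t : ℝ) + (y.choose (t + 1) : ℝ) := by
        exact_mod_cast Nat.choose_succ_succ y t
      rw [h2] at h0
      have h4 : y + 1 + M + 1 = y + (M + 1) + 1 := by omega
      rw [h4] at h0 ⊢
      simp only [pow_zero, Nat.add_zero, Nat.choose_zero_right, Nat.cast_one, mul_one, one_mul,
        Nat.sub_zero] at h0 ⊢
      linarith

private lemma pattern_choose {s m j i : ℕ} (hj : 1 ≤ j) (hji : j + i ≤ s) :
    ∑ k ∈ range (s + 1), (-1 : ℝ) ^ k * ((m + k).choose k : ℝ) * (k.choose i : ℝ) *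
      ((m + 1 + s - j).choose (s - k) : ℝ) = 0 := by
  have hs : s + 1 = i + (s - i + 1) := by omega
  rw [hs, sum_range_add]
  have h1 : ∑ k ∈ range i, (-1 : ℝ) ^ k * ((m + k).choose k : ℝ) * (k.choose i : ℝ) *
      ((m + 1 + s - j).choose (s - k) : ℝ) = 0 := by
    refine sum_eq_zero fun k hk => ?_
    rw [Nat.choose_eq_zero_of_lt (mem_range.1 hk)]
    simp
  rw [h1, zero_add]
  have h2 := pattern_vand (m + i) (s - i) (s - j - i)
  have h3 : (s - j - i).choose (s - i) = 0 := Nat.choose_eq_zero_of_lt (by omega)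
  rw [h3, Nat.cast_zero] at h2
  have h4 : ∑ l ∈ range (s - i + 1), (-1 : ℝ) ^ (i + l) * ((m + (i + l)).choose (i + l) : ℝ) *
      ((i + l).choose i : ℝ) * ((m + 1 + s - j).choose (s - (i + l)) : ℝ) =
      (-1 : ℝ) ^ i * ((m + i).choose i : ℝ) *
        ∑ l ∈ range (s - i + 1), (-1 : ℝ) ^ l * ((m + i + l).choose l : ℝ) *
          ((s - j - i + (m + i) + 1).choose (s - i - l) : ℝ) := by
    rw [mul_sum]
    refine sum_congr rfl fun l hl => ?_
    have h5 : m + 1 + s - j = s - j - i + (m + i) + 1 := by omega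
    have h6 : s - (i + l) = s - i - l := by omega
    rw [h5, h6, pow_add]
    have h7 : ((m + (i + l)).choose (i + l) : ℝ) * ((i + l).choose i : ℝ) =
        ((m + i).choose i : ℝ) * ((m + i + l).choose l : ℝ) := by
      have h8 := Nat.choose_mul (n := m + (i + l)) (k := i + l) (s := i) (by omega)
      have h9 : m + (i + l) - i = m + l := by omega
      have h10 : i + l - i = l := by omega
      rw [h9, h10] at h8
      have h11 : (m + (i + l)).choose i * (m + l).choose l =
          (m + i).choose i * (m + i + l).choose l := by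
        have e1 := Nat.choose_mul (n := m + i + l) (k := m + i) (s := i) (by omega)
        have e2 : (m + i + l).choose (m + i) = (m + i + l).choose l :=
          Nat.choose_symm_of_eq_add (by omega)
        have e3 : m + i + l - i = m + l := by omega
        have e4 : m + i - i = m := by omega
        have e5 : (m + l).choose m = (m + l).choose l := Nat.choose_symm_of_eq_add (by omega)
        rw [e2, e3, e4, e5] at e1
        have e6 : m + (i + l) = m + i + l := by omega
        rw [e6, ← e1, mul_comm]
      rw [h11] at h8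
      exact_mod_cast h8
    linear_combination (-1 : ℝ) ^ i * (-1 : ℝ) ^ l *
      ((s - j - i + (m + i) + 1).choose (s - i - l) : ℝ) * h7
  rw [h4, h2, mul_zero]

theorem pattern {s m j r : ℕ} (P : Polynomial ℝ) (hP : P.natDegree ≤ r) (hj : 1 ≤ j)
    (hjr : j + r ≤ s) :
    ∑ k ∈ range (s + 1), (-1 : ℝ) ^ k * ((m + k).choose k : ℝ) * P.eval (k : ℝ) *
      ((m + 1 + s - j).choose (s - k) : ℝ) = 0 := by
  have hbase : ∀ i ≤ r, ∑ k ∈ range (s + 1), (-1 : ℝ) ^ k * ((m + k).choose k : ℝ) *
      (descPochhammer ℝ i).eval (k : ℝ) * ((m + 1 + s - j).choose (s - k) : ℝ) = 0 := by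
    intro i hi
    have h1 := pattern_choose (m := m) hj (show j + i ≤ s by omega)
    have h2 : ∑ k ∈ range (s + 1), (-1 : ℝ) ^ k * ((m + k).choose k : ℝ) *
        (descPochhammer ℝ i).eval (k : ℝ) * ((m + 1 + s - j).choose (s - k) : ℝ) =
        (i.factorial : ℝ) * ∑ k ∈ range (s + 1), (-1 : ℝ) ^ k * ((m + k).choose k : ℝ) *
          (k.choose i : ℝ) * ((m + 1 + s - j).choose (s - k) : ℝ) := by
      rw [mul_sum]
      refine sum_congr rfl fun k _ => ?_
      rw [descPochhammer_eval_eq_descFactorial, Nat.descFactorial_eq_factorial_mul_choose,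
        Nat.cast_mul]
      ring
    rw [h2, h1, mul_zero]
  induction r generalizing P with
  | zero =>
    have h1 : P = Polynomial.C (P.coeff 0) := Polynomial.eq_C_of_natDegree_le_zero hP
    have h2 := hbase 0 le_rfl
    rw [h1]
    simp only [Polynomial.eval_C]
    simp only [descPochhammer_zero, Polynomial.eval_one, mul_one] at h2
    have h3 : ∑ k ∈ range (s + 1), (-1 : ℝ) ^ k * ((m + k).choose k : ℝ) * P.coeff 0 *
        ((m + 1 + s - j).choose (s - k) : ℝ) =
        P.coeff 0 * ∑ k ∈ range (s + 1), (-1 : ℝ) ^ k * ((m + k).choose k : ℝ) *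
          ((m + 1 + s - j).choose (s - k) : ℝ) := by
      rw [mul_sum]
      exact sum_congr rfl fun k _ => by ring
    rw [h3, h2, mul_zero]
  | succ r ih =>
    set Q : Polynomial ℝ := P - Polynomial.C (P.coeff (r + 1)) * descPochhammer ℝ (r + 1) with hQ
    have hQd : Q.natDegree ≤ r := by
      rw [Polynomial.natDegree_le_iff_coeff_eq_zero]
      intro N hN
      rw [hQ, Polynomial.coeff_sub, Polynomial.coeff_C_mul]
      rcases Nat.lt_or_ge (r + 1) N with h | h
      · rw [Polynomial.coeff_eq_zero_of_natDegree_lt (by omega),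
          Polynomial.coeff_eq_zero_of_natDegree_lt (p := descPochhammer ℝ (r + 1))
            (by rw [descPochhammer_natDegree]; exact h), mul_zero, sub_zero]
      · have hN' : N = r + 1 := by omega
        subst hN'
        have h1 : (descPochhammer ℝ (r + 1)).coeff (r + 1) = 1 := by
          have h2 := monic_descPochhammer ℝ (r + 1)
          have h3 := h2.coeff_natDegree
          rwa [descPochhammer_natDegree] at h3
        rw [h1, mul_one, sub_self]
    have h1 := ih Q hQd (by omega) fun i hi => hbase i (by omega)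
    have h2 := hbase (r + 1) le_rfl
    have h3 : ∑ k ∈ range (s + 1), (-1 : ℝ) ^ k * ((m + k).choose k : ℝ) * P.eval (k : ℝ) *
        ((m + 1 + s - j).choose (s - k) : ℝ) =
        ∑ k ∈ range (s + 1), (-1 : ℝ) ^ k * ((m + k).choose k : ℝ) * Q.eval (k : ℝ) *
          ((m + 1 + s - j).choose (s - k) : ℝ) +
        P.coeff (r + 1) * ∑ k ∈ range (s + 1), (-1 : ℝ) ^ k * ((m + k).choose k : ℝ) *
          (descPochhammer ℝ (r + 1)).eval (k : ℝ) * ((m + 1 + s - j).choose (s - k) : ℝ) := by
      rw [mul_sum, ← sum_add_distrib]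
      refine sum_congr rfl fun k _ => ?_
      rw [hQ, Polynomial.eval_sub, Polynomial.eval_mul, Polynomial.eval_C]
      ring
    rw [h3, h1, h2, mul_zero, add_zero]

theorem pattern_diag (s m : ℕ) :
    ∑ k ∈ range (s + 1), (-1 : ℝ) ^ k * ((m + k).choose k : ℝ) *
      ((m + 1 + s).choose (s - k) : ℝ) = 1 := by
  have h := pattern_vand m s s
  rw [Nat.choose_self, Nat.cast_one] at h
  refine Eq.trans (sum_congr rfl fun k _ => ?_) h
  have h1 : m + 1 + s = s + m + 1 := by omega
  rw [h1]

end Pool.Agent.OddDiam
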