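import Pool.Agent.OddDiam.Lym

/-! # MP_f155e9_co, odd diameter: twisted antichains, the star case -/

set_option autoImplicit false

namespace Pool.Agent.OddDiam

open Finset

variable {α : Type*} [Fintype α] [DecidableEq α]

/-- `G = {A △ Z : A ∈ F}` for an antichain `F`: `S △ Z ⊆ T △ Z` iff `T ∩ Z ⊆ S` and `S \ Z ⊆ T` -/
def TwAnti (Z : Finset α) (G : Finset (Finset α)) : Prop :=
  ∀ S ∈ G, ∀ T ∈ G, T ∩ Z ⊆ S → S \ Z ⊆ T → S = T

omit [Fintype α] in
theorem twAnti_image (Z : Finset α) {F : Finset (Finset α)}
    (hF : IsAntichain (· ⊆ ·) (F : Set (Finset α))) :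
    TwAnti Z (F.image (fun A => symmDiff A Z)) := by
  intro S hS T hT h1 h2
  obtain ⟨A, hA, rfl⟩ := Finset.mem_image.1 hS
  obtain ⟨B, hB, rfl⟩ := Finset.mem_image.1 hT
  have hAB : A ⊆ B := by
    intro x hx
    by_contra hxB
    by_cases hxZ : x ∈ Z
    · have h3 : x ∈ symmDiff B Z ∩ Z := by
        simp [Finset.mem_symmDiff, hxZ, hxB]
      have h4 := h1 h3
      simp [Finset.mem_symmDiff, hx, hxZ] at h4
    · have h3 : x ∈ symmDiff A Z \ Z := by
        simp [hxZ, hx]
      have h4 := h2 h3
      simp [Finset.mem_symmDiff, hxB, hxZ] at h4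
  have := hF.eq (by exact_mod_cast hA) (by exact_mod_cast hB) hAB
  rw [this]

private theorem star_pascal (y t : ℕ) :
    y.choose t + (if t = 0 then 0 else y.choose (t - 1)) = (y + 1).choose t := by
  cases t with
  | zero => simp
  | succ t => simp [Nat.choose_succ_succ, add_comm]

private theorem star_vandermonde (a b s : ℕ) :
    ∑ m ∈ range (a + 1), a.choose m * (if m ≤ s then b.choose (s - m) else 0) =
      (a + b).choose s := by
  rw [Nat.add_choose_eq, Finset.Nat.sum_antidiagonal_eq_sum_range_succ_mk]
  have h1 : ∑ m ∈ range (a + 1), a.choose m * (if m ≤ s then b.choose (s - m) else 0) =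
      ∑ m ∈ range (a + s + 1), a.choose m * (if m ≤ s then b.choose (s - m) else 0) := by
    refine Finset.sum_subset (Finset.range_subset_range.2 (by omega)) ?_
    intro m _ hm
    rw [Finset.mem_range, not_lt] at hm
    rw [Nat.choose_eq_zero_of_lt (by omega), zero_mul]
  have h2 : ∑ m ∈ range (s + 1), a.choose m * b.choose (s - m) =
      ∑ m ∈ range (a + s + 1), a.choose m * (if m ≤ s then b.choose (s - m) else 0) := by
    have h3 : ∑ m ∈ range (s + 1), a.choose m * b.choose (s - m) =
        ∑ m ∈ range (s + 1), a.choose m * (if m ≤ s then b.choose (s - m) else 0) := by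
      refine Finset.sum_congr rfl ?_
      intro m hm
      rw [Finset.mem_range] at hm
      rw [if_pos (by omega)]
    rw [h3]
    refine Finset.sum_subset (Finset.range_subset_range.2 (by omega)) ?_
    intro m _ hm
    rw [Finset.mem_range, not_lt] at hm
    rw [if_neg (by omega), mul_zero]
  rw [h1]
  exact h2.symm

/-- all members of rank `s + 1` contain `z` -/
theorem star_case {s : ℕ} {Z : Finset α} {G : Finset (Finset α)} (hG : TwAnti Z G)
    (hn : Z.card + 2 * s + 1 ≤ Fintype.card α) (hrank : ∀ S ∈ G, S.card ≤ s + 1) (z : α)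
    (hz : ∀ S ∈ G, S.card = s + 1 → z ∈ S) : G.card ≤ (Fintype.card α).choose s := by
  classical
  set Z1 : Finset α := Z.erase z with hZ1
  set Y1 : Finset α := univ \ insert z Z with hY1
  have hzZ1 : z ∉ Z1 := by simp [hZ1]
  have hzY1 : z ∉ Y1 := by simp [hY1]
  have hZZ1 : Z1 ⊆ Z := Finset.erase_subset _ _
  have hYZ : ∀ x ∈ Y1, x ∉ Z := by
    intro x hx hxZ
    simp only [hY1, Finset.mem_sdiff, Finset.mem_insert, not_or] at hx
    exact hx.2.2 hxZ
  have hYZ1 : Disjoint Z1 Y1 := by
    rw [Finset.disjoint_left]
    intro x hx hx'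
    exact hYZ x hx' (hZZ1 hx)
  have hcover : ∀ x : α, x = z ∨ x ∈ Z1 ∨ x ∈ Y1 := by
    intro x
    by_cases h1 : x = z
    · exact Or.inl h1
    · by_cases h2 : x ∈ Z
      · exact Or.inr (Or.inl (Finset.mem_erase.2 ⟨h1, h2⟩))
      · refine Or.inr (Or.inr ?_)
        simp [hY1, h1, h2]
  -- cardinalities
  have hcard : Z1.card + Y1.card + 1 = Fintype.card α := by
    have h1 : (univ : Finset α) = insert z (Z1 ∪ Y1) := by
      ext x
      have := hcover x
      simp only [Finset.mem_univ, Finset.mem_insert, Finset.mem_union, true_iff]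
      exact this
    have h2 : z ∉ Z1 ∪ Y1 := by
      simp [hzZ1, hzY1]
    rw [← Finset.card_univ, h1, Finset.card_insert_of_notMem h2,
      Finset.card_union_of_disjoint hYZ1]
  have hY1card : 2 * s ≤ Y1.card := by
    have h1 : (insert z Z).card ≤ Z.card + 1 := Finset.card_insert_le _ _
    have h2 : Y1.card = Fintype.card α - (insert z Z).card := by
      rw [hY1, Finset.card_sdiff_of_subset (Finset.subset_univ _), Finset.card_univ]
    omega
  -- the families
  set FP : Finset α → Finset (Finset α) :=
    fun P => Y1.powerset.filter (fun R => P ∪ R ∈ G) with hFP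
  set HP : Finset α → Finset (Finset α) :=
    fun P => Y1.powerset.filter (fun R => insert z (P ∪ R) ∈ G) with hHP
  have mFP : ∀ P R, R ∈ FP P ↔ R ⊆ Y1 ∧ P ∪ R ∈ G := by
    intro P R
    simp [hFP]
  have mHP : ∀ P R, R ∈ HP P ↔ R ⊆ Y1 ∧ insert z (P ∪ R) ∈ G := by
    intro P R
    simp [hHP]
  -- decomposition
  have hdec : G.card ≤ ∑ P ∈ Z1.powerset, ((FP P).card + (HP P).card) := by
    have h1 : G.card = (G.filter (fun S => z ∉ S)).card + (G.filter (fun S => z ∈ S)).card := by
      rw [add_comm]
      exact (Finset.card_filter_add_card_filter_not (s := G) (fun S => z ∈ S)).symm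
    have hmap : ∀ S : Finset α, S ∩ Z1 ∈ Z1.powerset := fun S =>
      Finset.mem_powerset.2 Finset.inter_subset_right
    have h2 : (G.filter (fun S => z ∉ S)).card ≤ ∑ P ∈ Z1.powerset, (FP P).card := by
      rw [Finset.card_eq_sum_card_fiberwise (f := fun S => S ∩ Z1) (t := Z1.powerset)
        (fun S _ => hmap S)]
      refine Finset.sum_le_sum ?_
      intro P hP
      refine Finset.card_le_card_of_injOn (fun S => S ∩ Y1) ?_ ?_
      · intro S hS
        simp only [Finset.coe_filter, Finset.mem_filter, Set.mem_ofPred_eq] at hS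
        obtain ⟨⟨hSG, hzS⟩, hSP⟩ := hS
        rw [Finset.mem_coe, mFP]
        refine ⟨Finset.inter_subset_right, ?_⟩
        have : P ∪ S ∩ Y1 = S := by
          rw [← hSP]
          ext x
          simp only [Finset.mem_union, Finset.mem_inter]
          constructor
          · rintro (h | h)
            · exact h.1
            · exact h.1
          · intro hx
            rcases hcover x with h | h | h
            · exact absurd (h ▸ hx) hzS
            · exact Or.inl ⟨hx, h⟩
            · exact Or.inr ⟨hx, h⟩
        rw [this]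
        exact hSG
      · intro S hS T hT hST
        simp only [Finset.coe_filter, Finset.mem_filter, Set.mem_ofPred_eq] at hS hT
        obtain ⟨⟨_, hzS⟩, hSP⟩ := hS
        obtain ⟨⟨_, hzT⟩, hTP⟩ := hT
        simp only at hST
        ext x
        rcases hcover x with h | h | h
        · rw [h]
          exact ⟨fun h' => absurd h' hzS, fun h' => absurd h' hzT⟩
        · have h1 : x ∈ S ∩ Z1 ↔ x ∈ T ∩ Z1 := by rw [hSP, hTP]
          simpa [h] using h1
        · have h1 : x ∈ S ∩ Y1 ↔ x ∈ T ∩ Y1 := by rw [hST]
          simpa [h] using h1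
    have h3 : (G.filter (fun S => z ∈ S)).card ≤ ∑ P ∈ Z1.powerset, (HP P).card := by
      rw [Finset.card_eq_sum_card_fiberwise (f := fun S => S ∩ Z1) (t := Z1.powerset)
        (fun S _ => hmap S)]
      refine Finset.sum_le_sum ?_
      intro P hP
      refine Finset.card_le_card_of_injOn (fun S => S ∩ Y1) ?_ ?_
      · intro S hS
        simp only [Finset.coe_filter, Finset.mem_filter, Set.mem_ofPred_eq] at hS
        obtain ⟨⟨hSG, hzS⟩, hSP⟩ := hS
        rw [Finset.mem_coe, mHP]
        refine ⟨Finset.inter_subset_right, ?_⟩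
        have : insert z (P ∪ S ∩ Y1) = S := by
          rw [← hSP]
          ext x
          simp only [Finset.mem_insert, Finset.mem_union, Finset.mem_inter]
          constructor
          · rintro (h | h | h)
            · exact h ▸ hzS
            · exact h.1
            · exact h.1
          · intro hx
            rcases hcover x with h | h | h
            · exact Or.inl h
            · exact Or.inr (Or.inl ⟨hx, h⟩)
            · exact Or.inr (Or.inr ⟨hx, h⟩)
        rw [this]
        exact hSG
      · intro S hS T hT hST
        simp only [Finset.coe_filter, Finset.mem_filter, Set.mem_ofPred_eq] at hS hT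
        obtain ⟨⟨_, hzS⟩, hSP⟩ := hS
        obtain ⟨⟨_, hzT⟩, hTP⟩ := hT
        simp only at hST
        ext x
        rcases hcover x with h | h | h
        · rw [h]
          exact ⟨fun _ => hzT, fun _ => hzS⟩
        · have h1 : x ∈ S ∩ Z1 ↔ x ∈ T ∩ Z1 := by rw [hSP, hTP]
          simpa [h] using h1
        · have h1 : x ∈ S ∩ Y1 ↔ x ∈ T ∩ Y1 := by rw [hST]
          simpa [h] using h1
    rw [Finset.sum_add_distrib, h1]
    exact Nat.add_le_add h2 h3
  -- bound for each `P`
  have hP : ∀ P ∈ Z1.powerset, (FP P).card + (HP P).card ≤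
      if P.card ≤ s then (Y1.card + 1).choose (s - P.card) else 0 := by
    intro P hPZ
    rw [Finset.mem_powerset] at hPZ
    have hzP : z ∉ P := fun h => hzZ1 (hPZ h)
    have hdisj : ∀ R, R ⊆ Y1 → Disjoint P R := fun R hR =>
      Finset.disjoint_of_subset_left hPZ (Finset.disjoint_of_subset_right hR hYZ1)
    have hzR : ∀ R, R ⊆ Y1 → z ∉ P ∪ R := by
      intro R hR h
      rcases Finset.mem_union.1 h with h | h
      · exact hzP h
      · exact hzY1 (hR h)
    have cF : ∀ R ∈ FP P, P.card + R.card ≤ s := by
      intro R hR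
      rw [mFP] at hR
      have h1 := hrank _ hR.2
      have h2 : (P ∪ R).card = P.card + R.card := Finset.card_union_of_disjoint (hdisj R hR.1)
      have h3 : (P ∪ R).card ≠ s + 1 := fun h => hzR R hR.1 (hz _ hR.2 h)
      omega
    have cH : ∀ R ∈ HP P, P.card + R.card ≤ s := by
      intro R hR
      rw [mHP] at hR
      have h1 := hrank _ hR.2
      have h2 : (P ∪ R).card = P.card + R.card := Finset.card_union_of_disjoint (hdisj R hR.1)
      rw [Finset.card_insert_of_notMem (hzR R hR.1)] at h1
      omega
    by_cases hPs : P.card ≤ s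
    swap
    · rw [if_neg hPs]
      have h1 : FP P = ∅ := by
        rw [Finset.eq_empty_iff_forall_notMem]
        intro R hR
        have := cF R hR
        omega
      have h2 : HP P = ∅ := by
        rw [Finset.eq_empty_iff_forall_notMem]
        intro R hR
        have := cH R hR
        omega
      simp [h1, h2]
    rw [if_pos hPs, ← star_pascal]
    -- antichains
    have inj : ∀ R R', R ⊆ Y1 → R' ⊆ Y1 → P ∪ R = P ∪ R' → R = R' := by
      intro R R' hR hR' h
      ext x
      constructor
      · intro hx
        have h1 : x ∈ P ∪ R' := h ▸ Finset.mem_union_right _ hx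
        rcases Finset.mem_union.1 h1 with h2 | h2
        · exact absurd hx (Finset.disjoint_left.1 (hdisj R hR) h2)
        · exact h2
      · intro hx
        have h1 : x ∈ P ∪ R := h.symm ▸ Finset.mem_union_right _ hx
        rcases Finset.mem_union.1 h1 with h2 | h2
        · exact absurd hx (Finset.disjoint_left.1 (hdisj R' hR') h2)
        · exact h2
    have aF : IsAntichain (· ⊆ ·) (FP P : Set (Finset α)) := by
      intro R hR R' hR' hne hsub
      rw [Finset.mem_coe, mFP] at hR hR'
      apply hne
      apply inj R R' hR.1 hR'.1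
      apply hG _ hR.2 _ hR'.2
      · intro x hx
        rw [Finset.mem_inter, Finset.mem_union] at hx
        rcases hx.1 with h | h
        · exact Finset.mem_union_left _ h
        · exact absurd hx.2 (hYZ x (hR'.1 h))
      · intro x hx
        rw [Finset.mem_sdiff, Finset.mem_union] at hx
        rcases hx.1 with h | h
        · exact absurd (hZZ1 (hPZ h)) hx.2
        · exact Finset.mem_union_right _ (hsub h)
    have aH : IsAntichain (· ⊆ ·) (HP P : Set (Finset α)) := by
      intro R hR R' hR' hne hsub
      rw [Finset.mem_coe, mHP] at hR hR'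
      apply hne
      apply inj R R' hR.1 hR'.1
      have h1 : insert z (P ∪ R) = insert z (P ∪ R') := by
        apply hG _ hR.2 _ hR'.2
        · intro x hx
          rw [Finset.mem_inter, Finset.mem_insert, Finset.mem_union] at hx
          rcases hx.1 with h | h | h
          · exact Finset.mem_insert.2 (Or.inl h)
          · exact Finset.mem_insert_of_mem (Finset.mem_union_left _ h)
          · exact absurd hx.2 (hYZ x (hR'.1 h))
        · intro x hx
          rw [Finset.mem_sdiff, Finset.mem_insert, Finset.mem_union] at hx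
          rcases hx.1 with h | h | h
          · exact Finset.mem_insert.2 (Or.inl h)
          · exact absurd (hZZ1 (hPZ h)) hx.2
          · exact Finset.mem_insert_of_mem (Finset.mem_union_right _ (hsub h))
      have h2 := congrArg (fun S => S.erase z) h1
      simp only [Finset.erase_insert (hzR R hR.1), Finset.erase_insert (hzR R' hR'.1)] at h2
      exact h2
    have kF : ∀ R ∈ FP P, R.card ≤ s - P.card := fun R hR => by
      have := cF R hR
      omega
    have kH : ∀ R ∈ HP P, R.card ≤ s - P.card := fun R hR => by
      have := cH R hR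
      omega
    have yF : ∀ R ∈ FP P, R ⊆ Y1 := fun R hR => ((mFP P R).1 hR).1
    have yH : ∀ R ∈ HP P, R ⊆ Y1 := fun R hR => ((mHP P R).1 hR).1
    have ht : 2 * (s - P.card) ≤ Y1.card := by omega
    by_cases hzZ : z ∈ Z
    · rw [add_comm]
      refine two_anti ht aH aF kH kF yH yF ?_
      intro R hR R' hR' hsub
      rw [mHP] at hR
      rw [mFP] at hR'
      have h1 : insert z (P ∪ R) = P ∪ R' := by
        apply hG _ hR.2 _ hR'.2
        · intro x hx
          rw [Finset.mem_inter, Finset.mem_union] at hx
          rcases hx.1 with h | h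
          · exact Finset.mem_insert_of_mem (Finset.mem_union_left _ h)
          · exact absurd hx.2 (hYZ x (hR'.1 h))
        · intro x hx
          rw [Finset.mem_sdiff, Finset.mem_insert, Finset.mem_union] at hx
          rcases hx.1 with h | h | h
          · exact absurd (h ▸ hzZ) hx.2
          · exact absurd (hZZ1 (hPZ h)) hx.2
          · exact Finset.mem_union_right _ (hsub h)
      exact hzR R' hR'.1 (h1 ▸ Finset.mem_insert_self _ _)
    · refine two_anti ht aF aH kF kH yF yH ?_
      intro R hR R' hR' hsub
      rw [mFP] at hR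
      rw [mHP] at hR'
      have h1 : P ∪ R = insert z (P ∪ R') := by
        apply hG _ hR.2 _ hR'.2
        · intro x hx
          rw [Finset.mem_inter, Finset.mem_insert, Finset.mem_union] at hx
          rcases hx.1 with h | h | h
          · exact absurd (h ▸ hx.2) hzZ
          · exact Finset.mem_union_left _ h
          · exact absurd hx.2 (hYZ x (hR'.1 h))
        · intro x hx
          rw [Finset.mem_sdiff, Finset.mem_union] at hx
          rcases hx.1 with h | h
          · exact absurd (hZZ1 (hPZ h)) hx.2
          · exact Finset.mem_insert_of_mem (Finset.mem_union_right _ (hsub h))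
      exact hzR R hR.1 (h1.symm ▸ Finset.mem_insert_self _ _)
  calc G.card ≤ ∑ P ∈ Z1.powerset, ((FP P).card + (HP P).card) := hdec
    _ ≤ ∑ P ∈ Z1.powerset, (if P.card ≤ s then (Y1.card + 1).choose (s - P.card) else 0) :=
        Finset.sum_le_sum hP
    _ = ∑ m ∈ range (Z1.card + 1), Z1.card.choose m •
          (if m ≤ s then (Y1.card + 1).choose (s - m) else 0) :=
        Finset.sum_powerset_apply_card
          (fun m => if m ≤ s then (Y1.card + 1).choose (s - m) else 0)
    _ = (Z1.card + (Y1.card + 1)).choose s := by
        simp only [smul_eq_mul]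
        exact star_vandermonde _ _ _
    _ = (Fintype.card α).choose s := by
        rw [← hcard, add_assoc]

end Pool.Agent.OddDiam
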