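import Pool.Agent.OddDiam.Star

/-! # MP_f155e9_co, odd diameter: members of small rank are few -/

set_option autoImplicit false

namespace Pool.Agent.OddDiam

open Finset

variable {α : Type*} [Fintype α] [DecidableEq α]

/-- few traces on a given level of the complement of `Z` -/
theorem few_traces {s r : ℕ} (hr : r < s) {Z : Finset α} {G : Finset (Finset α)}
    (hG : TwAnti Z G) (hs : s ≤ (Zᶜ).card)
    (hmiss : 4 * ((powersetCard s Zᶜ) \ G).card ≤ (Zᶜ).card.choose s) :
    4 * ((G.filter (fun S => (S \ Z).card = r)).image (fun S => S \ Z)).card ≤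
      (Zᶜ).card.choose r := by
  set m := (Zᶜ).card with hm
  set Rr := (G.filter (fun S => (S \ Z).card = r)).image (fun S => S \ Z) with hRr
  set M := (powersetCard s Zᶜ) \ G with hM
  have hRmem : ∀ R ∈ Rr, R ⊆ Zᶜ ∧ R.card = r ∧ ∃ S ∈ G, S \ Z = R := by
    intro R hR
    rw [hRr, mem_image] at hR
    obtain ⟨S, hS, rfl⟩ := hR
    rw [mem_filter] at hS
    refine ⟨fun x hx => ?_, hS.2, S, hS.1, rfl⟩
    rw [mem_compl]
    exact (mem_sdiff.1 hx).2
  have h1 : Rr.card * (m - r).choose (s - r) ≤ M.card * s.choose r := by
    refine card_mul_le_card_mul (fun R T => R ⊆ T) ?_ ?_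
    · intro R hR
      obtain ⟨hRZ, hRc, S, hS, hSR⟩ := hRmem R hR
      have h2 : (powersetCard (s - r) (Zᶜ \ R)).card = (m - r).choose (s - r) := by
        rw [card_powersetCard, card_sdiff_of_subset hRZ, hRc]
      rw [← h2]
      refine card_le_card_of_injOn (fun W => R ∪ W) ?_ ?_
      · intro W hW
        have hW' := mem_powersetCard.1 (mem_coe.1 hW)
        have hdisj : Disjoint R W := by
          rw [Finset.disjoint_left]
          intro x hx hx'
          exact (mem_sdiff.1 (hW'.1 hx')).2 hx
        have hsub : R ∪ W ⊆ Zᶜ := union_subset hRZ (hW'.1.trans sdiff_subset)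
        have hcard : (R ∪ W).card = s := by
          rw [card_union_of_disjoint hdisj, hRc, hW'.2]
          omega
        simp only [coe_filter, Set.mem_ofPred_eq, bipartiteAbove]
        refine ⟨?_, subset_union_left⟩
        rw [hM, mem_sdiff, mem_powersetCard]
        refine ⟨⟨hsub, hcard⟩, fun hTG => ?_⟩
        have h3 : (R ∪ W) ∩ Z = ∅ := by
          ext x
          simp only [mem_inter, notMem_empty, iff_false, not_and]
          intro hx hxZ
          exact (mem_compl.1 (hsub hx)) hxZ
        have h4 := hG S hS (R ∪ W) hTG (by rw [h3]; exact empty_subset _)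
          (by rw [hSR]; exact subset_union_left)
        have h5 : (R ∪ W) \ Z = R ∪ W := by
          rw [Finset.sdiff_eq_self_iff_disjoint, Finset.disjoint_left]
          intro x hx hxZ
          exact (mem_compl.1 (hsub hx)) hxZ
        rw [h4, h5] at hSR
        rw [← hSR, hcard] at hRc
        omega
      · intro W hW W' hW' h
        have hW1 := mem_powersetCard.1 (mem_coe.1 hW)
        have hW2 := mem_powersetCard.1 (mem_coe.1 hW')
        have key : ∀ V : Finset α, V ⊆ Zᶜ \ R → (R ∪ V) \ R = V := by
          intro V hV
          ext x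
          simp only [mem_sdiff, mem_union]
          constructor
          · rintro ⟨h1 | h1, h2⟩
            · exact absurd h1 h2
            · exact h1
          · intro hx
            exact ⟨Or.inr hx, (mem_sdiff.1 (hV hx)).2⟩
        rw [← key W hW1.1, ← key W' hW2.1]
        exact congrArg (fun V => V \ R) h
    · intro T hT
      rw [hM, mem_sdiff, mem_powersetCard] at hT
      rw [← hT.1.2, ← card_powersetCard]
      refine card_le_card ?_
      intro R hR
      simp only [bipartiteBelow, mem_filter] at hR
      rw [mem_powersetCard]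
      exact ⟨hR.2, (hRmem R hR.1).2.1⟩
  have h2 : m.choose s * s.choose r = m.choose r * (m - r).choose (s - r) :=
    Nat.choose_mul hr.le
  have hpos : 0 < (m - r).choose (s - r) := Nat.choose_pos (by omega)
  refine Nat.le_of_mul_le_mul_right ?_ hpos
  calc 4 * Rr.card * (m - r).choose (s - r) = 4 * (Rr.card * (m - r).choose (s - r)) := by ring
    _ ≤ 4 * (M.card * s.choose r) := Nat.mul_le_mul_left 4 h1
    _ = (4 * M.card) * s.choose r := by ring
    _ ≤ m.choose s * s.choose r := Nat.mul_le_mul_right _ hmiss
    _ = m.choose r * (m - r).choose (s - r) := h2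

/-- members of rank less than `s` -/
theorem low_bound {s : ℕ} {Z : Finset α} {G : Finset (Finset α)}
    (hG : TwAnti Z G) (hs : s ≤ (Zᶜ).card)
    (hmiss : 4 * ((powersetCard s Zᶜ) \ G).card ≤ (Zᶜ).card.choose s) :
    4 * (G.filter (fun S => S.card < s)).card ≤ ∑ i ∈ range s, (Fintype.card α).choose i := by
  set low := G.filter (fun S => S.card < s) with hlow
  have h1 : low.card = ∑ r ∈ range s, (low.filter (fun S => (S \ Z).card = r)).card := by
    refine card_eq_sum_card_fiberwise (f := fun S => (S \ Z).card) ?_
    intro S hS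
    have hS' := (mem_filter.1 (mem_coe.1 hS)).2
    rw [mem_coe, mem_range]
    exact lt_of_le_of_lt (card_le_card sdiff_subset) hS'
  have h2 : ∀ r ∈ range s, 4 * (low.filter (fun S => (S \ Z).card = r)).card ≤
      ∑ j ∈ range (s - r), (Zᶜ).card.choose r * Z.card.choose j := by
    intro r hr
    have hr' := mem_range.1 hr
    set Rr := (G.filter (fun S => (S \ Z).card = r)).image (fun S => S \ Z) with hRr
    set B := (range (s - r)).biUnion (fun j => powersetCard j Z) with hB
    have h3 : (low.filter (fun S => (S \ Z).card = r)).card ≤ (Rr ×ˢ B).card := by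
      refine card_le_card_of_injOn (fun S => (S \ Z, S ∩ Z)) ?_ ?_
      · intro S hS
        have hS1 := mem_filter.1 (mem_coe.1 hS)
        have hS2 := mem_filter.1 hS1.1
        rw [mem_coe, mem_product]
        constructor
        · exact mem_image.2 ⟨S, mem_filter.2 ⟨hS2.1, hS1.2⟩, rfl⟩
        · rw [hB, mem_biUnion]
          refine ⟨(S ∩ Z).card, ?_, mem_powersetCard.2 ⟨inter_subset_right, rfl⟩⟩
          rw [mem_range]
          have h4 := card_sdiff_add_card_inter S Z
          have h5 := hS1.2
          have h6 := hS2.2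
          omega
      · intro S _ S' _ h
        have h4 := congrArg Prod.fst h
        have h5 := congrArg Prod.snd h
        dsimp only at h4 h5
        rw [← sdiff_union_inter S Z, ← sdiff_union_inter S' Z, h4, h5]
    have h4 : B.card ≤ ∑ j ∈ range (s - r), Z.card.choose j := by
      refine card_biUnion_le.trans (le_of_eq ?_)
      exact sum_congr rfl fun j _ => card_powersetCard j Z
    have h5 := few_traces hr' hG hs hmiss
    rw [← mul_sum]
    calc 4 * (low.filter (fun S => (S \ Z).card = r)).card ≤ 4 * (Rr ×ˢ B).card :=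
          Nat.mul_le_mul_left 4 h3
      _ = 4 * Rr.card * B.card := by rw [card_product]; ring
      _ ≤ (Zᶜ).card.choose r * ∑ j ∈ range (s - r), Z.card.choose j := Nat.mul_le_mul h5 h4
  have h3 : ∑ r ∈ range s, ∑ j ∈ range (s - r), (Zᶜ).card.choose r * Z.card.choose j =
      ∑ i ∈ range s, (Fintype.card α).choose i := by
    rw [← sum_range_diag_flip s (fun r j => (Zᶜ).card.choose r * Z.card.choose j)]
    refine sum_congr rfl fun i _ => ?_
    have h4 : Fintype.card α = (Zᶜ).card + Z.card := by
      rw [card_compl_add_card]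
    rw [h4, Nat.add_choose_eq,
      Finset.Nat.sum_antidiagonal_eq_sum_range_succ
        (fun r j => (Zᶜ).card.choose r * Z.card.choose j)]
  rw [h1, mul_sum, ← h3]
  exact sum_le_sum h2

end Pool.Agent.OddDiam
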